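import Pool.Agent.Lib.MP_d439b2_co.FV.Tgt

/-!
# MP_d439b2_co, FV: closed chordless tracks with a stable base, 7 and 8 rails (helper40)

The certificates were found by computer.
-/

set_option autoImplicit false
set_option linter.style.longLine false

namespace Pool.Agent.MPd439b2.FV.ClosB

open Pool.Agent.MPd439b2 Pool.Agent.MPd439b2.FV
open Pool.Agent.MPd439b2.FT (Mt)

/-- nogoods -/
def c0 : List Cert := [
  (true, 0, 2, 2, 196609, [[13, 0], [10, 17], [4, 9], [3], [14], [7]]),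
  (true, 0, 2, 65536, 131075, [[5, 16], [6, 1], [12, 9], [15], [2], [11]]),
  (true, 0, 3, 393218, 12884967425, [[16], [1], [10], [12], [5], [6]]),
  (false, 0, 3, 4295360518, 8590000129, [[31, 25], [23, 36], [28, 34], [16, 4], [2, 18], [10, 6], [12]]),
  (true, 0, 3, 17180196864, 463168356949264781694283940034751631413079938662562256157830336031665403592710, [[14], [4], [8], [10], [6], [2]]),
  (true, 0, 4, 34360393730, 327693, [[13], [23], [5], [8], [18], [0]]),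
  (true, 0, 4, 844433520197632, 1125921382006784, [[17], [3], [9], [14], [20], [6]]),
  (true, 0, 4, 1125908496908290, 844429225164801, [[21], [6], [13], [16], [3], [8]]),
  (true, 0, 4, 3659174697238538, 38655557637, [[11], [0], [19], [14], [5], [20]]),
  (true, 0, 3, 25769869316, 393218, [[8], [3], [14], [10], [1], [16]]),
  (true, 0, 3, 25770131456, 30354201441027016733116592294117482916287606860189680019559568902170379460626481158, [[2], [4], [11], [10], [6], [13]]),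
  (true, 0, 4, 34360197122, 231584178474632390847141970017375815706539969331281128078915168015826259804173, [[5], [14], [9], [8], [19], [0]]),
  (true, 0, 4, 2533309150134282, 231584178474632390847141970017375815706539969331281128078915169704689004445701, [[15], [0], [7], [10], [17], [16]]),
  (true, 0, 3, 21475098626, 8590131200, [[11], [12], [5], [7], [16], [1]]),
  (true, 0, 3, 25769803778, 463168356949264781694283940034751631413079938662562256157830336031656813985796, [[2], [10], [8], [4], [6], [14]]),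
  (true, 0, 4, 60708402882054033466233184588234965832575213720379360039119137804342447762523488258, 1157920892373161954235709850086879078532699846656405640394575840360619158011909, [[1], [9], [3], [8], [0], [6]]),
  (true, 0, 5, 7957293199362350382553048436718309911538963563185004237767501868566714036040570620608516, 30356054114454813792243369429877621922813259179944330268584200223520698515893256218, [[4], [12], [14], [8], [0], [11]]),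
  (true, 0, 6, 926336713898529563388567880069503262826159877325124529240622146668113483530250, 3978585895446808349786441020423122181116413889096501187486772121774674819999768846336005, [[15], [5], [7], [12], [14], [0]]),
  (true, 0, 3, 8590131200, 262151, [[1], [16], [7], [3], [14], [9]]),
  (false, 0, 3, 12885098500, 262147, [[7, 13], [17, 0], [10, 4], [22, 34], [38, 18], [28, 30], [24]]),
  (true, 0, 4, 463168356949264781694283940034751631413079938662562256157830337157612554944518, 3978585892204629851141587548563134600873152469204941616848836327460936650978321809276936, [[2], [10], [0], [11], [3], [5]]),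
  (true, 0, 6, 4835979979619626637131776, 68351585149469152990842135624442400783878838832895804925912191639991050797847583788845488872095744, [[4], [14], [18], [9], [5], [13]]),
  (true, 0, 7, 31828687130226345097944463881396533766429193651030253916189694521162207808802144624181250, 7873862068137501288802826980590777734022358957263796039170658505550877742399489, [[22], [2], [8], [14], [6], [0]]),
  (false, 0, 4, 1688875630592007, 3978585892204629851141587548563134600873152469204941616848836327460936648163572041711624, [[25], [30], [21, 31], [18], [19, 13], [4, 8], [1, 11]]),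
  (true, 0, 5, 110680464442257506306, 694752535423897172541425910052127447119619907993843384236763950791565372293121, [[11], [4], [16], [15], [7], [5]]),
  (true, 0, 3, 25770065922, 30354201441027016733116592294117482916287606860189680019559568902170379460626546692, [[14], [10], [5], [4], [6], [1]]),
  (true, 0, 4, 562984313880578, 1157920892373161954235709850086879078532699846656405640394575840360619158011905, [[5], [11], [13], [12], [2], [8]]),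
  (true, 0, 4, 562984314077194, 3978585891509877315717690376021708690821025022085321708854992943224191144116123328315396, [[11], [5], [13], [2], [10], [4]]),
  (true, 0, 5, 926336713898529563388567880069503262826159877325124512315660678255763114688530, 3978585891741461494192322766868850660838400837791861678186274071303180099108300261687300, [[3], [6], [0], [17], [2], [14]]),
  (true, 0, 4, 281500746776580, 30354201441027016733116592294117482916287606860189680019559568902172068306191777794, [[14], [4], [10], [9], [3], [17]])]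

/-- nogoods -/
def c1 : List Cert := [
  (false, 0, 4, 562958544207877, 30354201441027016733116592294117482916287606860189680019559568902171786831214936074, [[20, 8], [27, 29], [30], [12, 18], [11, 17], [5], [6, 0]]),
  (false, 0, 4, 563010083749901, 30354201441027016733116592294117482916287606860189680019559568902173757156051910658, [[31, 26], [15], [22], [33], [16, 0], [10], [7, 9]]),
  (true, 0, 4, 1125929971941380, 30354201441027016733116592294117482916287606860189680019559568902171223915621908482, [[14], [2], [8], [7], [13], [1]]),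
  (true, 0, 4, 1125925676646412, 30354201441027016733116592294117482916287606860189680019559568902173194240458752002, [[0], [6], [14], [19], [13], [11]]),
  (false, 0, 4, 562980019044357, 30354201441027016733116592294117482916287606860189680019559568902170379490691121154, [[24, 30], [29], [20, 16], [10], [15, 9], [1, 7], [2]]),
  (true, 0, 3, 17180327936, 231584178474632390847141970017375815706539969331281128078915168015839144181765, [[4], [11], [7], [6], [2], [12]]),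
  (true, 0, 5, 110680464442257440770, 1852673427797059126777135760139006525652319754650249024631339790870683784118277, [[16], [4], [6], [10], [22], [0]]),
  (true, 0, 3, 393218, 30064836608, [[1], [16], [7], [5], [12], [11]]),
  (false, 0, 3, 4295360518, 25769869312, [[7, 13], [15, 2], [10, 4], [22, 34], [36, 20], [28, 32], [26]]),
  (true, 0, 3, 8590065667, 4295294980, [[13], [3], [7], [11], [15], [1]]),
  (false, 0, 4, 1688871335493634, 231584178474632390847141970017375815706539969331281128078915170267669022638080, [[18, 15], [23], [7, 10], [37], [2, 34], [26, 28], [29]]),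
  (true, 0, 3, 8590065667, 30354201441027016733116592294117482916287606860189680019559568902170379477806284804, [[10], [3], [7], [8], [12], [2]]),
  (false, 0, 4, 463168356949264781694283940034751631413079938662562256157830336594654012506112, 3978585892204629851141587548563134600873152469204941616848836327460936648163580631318528, [[2, 6], [13, 21], [10], [18], [19, 25], [31], [30, 28]]),
  (false, 0, 4, 1970329132138496, 2251808403619841, [[17], [10], [13], [24], [20], [7], [3]]),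
  (true, 0, 3, 17180262403, 12884967424, [[25, 1], [30, 18], [13, 22], [5, 8], [33, 27], [16, 10]]),
  (false, 0, 4, 563005788323846, 231584178474632390847141970017375815706539969331281128078915169423209732767745, [[36, 26], [15, 37], [34, 22], [29, 3], [10, 18], [4, 13], [12]]),
  (false, 0, 4, 2533330625822732, 1125908496777217, [[15], [26], [19], [20], [8], [5], [2]]),
  (false, 0, 4, 60708402882054033466233184588234965832575213720379360039119137804340758934137995270, 1157920892373161954235709850086879078532699846656405640394575840079139886333952, [[29, 25], [18, 10], [21], [13], [12, 6], [0], [1, 3]]),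
  (false, 0, 5, 221361210484047282177, 30354201441027016733116592294117482916287606860189680019559568920618249429947777024, [[20], [9], [25], [2], [1], [13], [17]]),
  (true, 0, 3, 8590131200, 17180131334, [[16], [1], [10], [14], [3], [8]]),
  (false, 0, 3, 12885098500, 17180131330, [[31, 25], [21, 38], [28, 34], [16, 4], [0, 20], [10, 8], [14]]),
  (true, 0, 3, 458753, 30354201441027016733116592294117482916287606860189680019559568902170379477806219270, [[4], [9], [7], [8], [0], [14]]),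
  (false, 0, 4, 463168356949264781694283940034751631413079938662562256157830337720528149282816, 3978585892204629851141587548563134600873152469204941616848836327460936648163572041646080, [[30, 26], [17, 9], [22], [14], [15, 5], [3], [2, 0]]),
  (false, 0, 5, 121416805764108066932466369176469931665150427440758720078238275756263633279520866304, 521481209941630522342328367924318433506906065160821039022575936564874322975926339253642985472, [[22, 27], [38, 33], [17, 2], [14, 7], [13], [41, 44], [40]]),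
  (false, 0, 5, 7957171782556586274486115970349133441607298412757563479047423630290607292432828152872976, 295147905187942760449, [[11], [2], [6], [29], [4], [20], [15]]),
  (true, 0, 3, 25769934850, 231584178474632390847141970017375815706539969331281128078915168015830554509317, [[10], [5], [7], [6], [14], [0]]),
  (false, 0, 3, 463168356949264781694283940034751631413079938662562256157830336031665403592710, 17180196865, [[22, 25], [27, 29], [16, 19], [14], [8, 10], [3], [0]]),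
  (true, 0, 3, 327683, 231584178474632390847141970017375815706539969331281128078915168015839144312836, [[0], [4], [9], [10], [8], [13]]),
  (true, 0, 4, 562992904011778, 30354201441027016733116592294117482916287606860189680019559568902171505377713127436, [[13], [1], [11], [4], [14], [2]]),
  (true, 0, 4, 844424930525186, 30354201441027016733116592294117482916287606860189680019559568902171505360533258245, [[3], [5], [13], [16], [14], [8]])]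

/-- nogoods -/
def c2 : List Cert := [
  (true, 0, 3, 8590000131, 231584178474632390847141970017375815706539969331281128078915168015830554640388, [[12], [10], [3], [4], [8], [1]]),
  (true, 0, 4, 51539607558, 3377699721314312, [[10], [0], [18], [15], [5], [23]]),
  (true, 0, 4, 34360197120, 524303, [[1], [18], [9], [4], [23], [12]]),
  (true, 0, 4, 2533309150199816, 1688862745165831, [[15], [20], [7], [10], [17], [0]]),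
  (true, 0, 4, 1688849860460544, 281487861612547, [[9], [3], [17], [12], [6], [20]]),
  (true, 0, 4, 917512, 60129542150, [[5], [23], [13], [10], [0], [18]]),
  (true, 0, 6, 9570149208293378, 281474978873377, [[25], [3], [13], [18], [35], [6]]),
  (true, 0, 6, 6045256288497551905390592, 68351585149469152990842135624442400783878838832895804925912191639991050784549934726973859962093568, [[11, 4], [19], [15, 26], [30], [10], [20]]),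
  (true, 0, 6, 13510936324734978, 68351585149469152990842135624442400783878838832895804925912191639991050784549399771114346192568380, [[7], [23], [15], [0], [8], [22]]),
  (true, 0, 5, 121416805764108066932466369176469931665150427440758720078238275608687710283403100178, 7957202136758027301502849086941427559090214700364423668727443189859454122580114893963276, [[16], [13], [19], [2], [17], [5]]),
  (false, 0, 3, 463168356949264781694283940034751631413079938662562256157830336031656813985796, 25769803779, [[7, 4], [0, 2], [13, 10], [17], [23, 19], [24], [27]]),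
  (true, 0, 4, 1125955741483012, 3978585892204629851141587548563134600873152469204941616848836327460936650415371855855624, [[6], [8], [14], [15], [1], [11]]),
  (true, 0, 4, 1407404948389892, 3978585891509877315717690376021708690821025022085321708854992943224191144679043217883136, [[8], [6], [14], [1], [9], [7]]),
  (false, 0, 4, 60708402882054033466233184588234965832575213720379360039119137804342447805473226759, 3978585891509877315717690376021708690821025022085321708854992943224191144397568240648200, [[26, 12], [13], [18, 21], [23], [28, 0], [11, 5], [10, 4]]),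
  (true, 0, 5, 73788102263466360834, 521481209971982639525749112965917401523293391694767287023041635054281181641584576290820718620, [[6], [14], [17], [0], [7], [13]]),
  (false, 0, 4, 2814797012008964, 30354201441027016733116592294117482916287606860189680019559568902171786831214936074, [[23, 11], [24, 30], [29], [15, 17], [8, 18], [6], [5, 3]]),
  (false, 0, 4, 3096237629177860, 30354201441027016733116592294117482916287606860189680019559568902171505356238225411, [[28, 25], [12], [21], [34], [19, 3], [9], [4, 10]]),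
  (false, 0, 4, 3940662559768580, 30354201441027016733116592294117482916287606860189680019559568902170379490691121154, [[7, 1], [2], [11, 15], [21], [16, 22], [30, 24], [29]]),
  (true, 0, 3, 17180327936, 12884901894, [[4], [14], [10], [6], [2], [16]]),
  (true, 0, 5, 77309542402, 55340232225423687697, [[26], [2], [16], [20], [14], [5]]),
  (false, 0, 4, 1688871335821312, 281517926383618, [[33, 29], [22, 2], [25, 51], [44, 6], [53, 11], [41, 19], [14, 36]]),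
  (false, 0, 4, 563005788454912, 3978585891278293137243057985174566720803649206378781739523711815145275976100275594199043, [[21, 24], [16], [32, 29], [2], [37, 5], [13, 11], [10]]),
  (false, 0, 4, 562988608323588, 926336713898529563388567880069503262826159877325124512315660673189213533896714, [[9, 5], [2], [13, 17], [26, 20], [29, 23], [42, 32], [45, 39]]),
  (true, 0, 5, 516511085971055312896, 18452655048220475392, [[12], [18], [9], [25], [3], [24]]),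
  (true, 0, 3, 458753, 12884901894, [[4], [12], [10], [8], [0], [16]]),
  (false, 0, 4, 563001493684230, 1125899907170312, [[21, 25], [34, 54], [29, 7], [8, 50], [1, 47], [13, 39], [42, 16]]),
  (false, 0, 5, 5066622597201932, 1852673427797059126777135760139006525652319754650249024631468918079242700324866, [[21, 28], [17], [33, 36], [7, 0], [11, 41], [53, 45], [49]]),
  (false, 0, 5, 6755489637203980, 521481209941628438084722096232800809229175908778479680162851955034721612739414196825899401234, [[20, 7], [26], [15, 2], [12, 32], [38, 43], [49], [5, 48]]),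
  (true, 0, 5, 6755468162105346, 30354201441027016733116592294117482916287606860189680019559569049744332080367534108, [[6], [19], [13], [0], [7], [23]]),
  (false, 0, 5, 258255261469748822019, 18447869973616525312, [[20], [4], [30], [8], [12], [16], [26]])]

/-- nogoods -/
def c3 : List Cert := [
  (true, 0, 4, 281483567562752, 30354201441027016733116592294117482916287606860189680019559568902170379512166023168, [[5], [15], [9], [10], [16], [2]]),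
  (false, 0, 4, 2814797012664324, 30354201441027016733116592294117482916287606860189680019559568902171505356238290944, [[27, 29], [30], [23, 19], [9], [12, 10], [2, 4], [1]]),
  (false, 0, 4, 3377712606216196, 30354201441027016733116592294117482916287606860189680019559568902170660965667897352, [[11, 23], [4, 2], [1], [19, 13], [20, 14], [26], [25, 31]]),
  (false, 0, 4, 2251812699504654, 30354201441027016733116592294117482916287606860189680019559568902170379490691186689, [[4, 9], [20], [13], [2], [19, 35], [25], [28, 26]]),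
  (true, 0, 3, 25769934850, 4295294980, [[13], [5], [7], [9], [17], [1]]),
  (false, 0, 4, 34360393742, 2251799813947393, [[9], [18], [13], [0], [4], [23], [27]]),
  (false, 0, 4, 1125925677301766, 3978585891278293137243057985174566720803649206378781739523711815145275976100267004592129, [[17, 12], [20], [4, 9], [38], [1, 33], [25, 31], [30]]),
  (false, 0, 5, 258255261469749411844, 1852673427797059126777135760139006525652319754650249024631321349756109608779776, [[31, 28], [37], [23, 16], [47, 50], [41, 11], [3, 5], [9]]),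
  (false, 0, 5, 7957171782556586274486115970349133441607298412757563479047423630290681079409049976569878, 295147905179353088001, [[16], [27], [21], [4], [29], [5], [10]]),
  (false, 0, 5, 258257513286742310916, 521481209941628438084722096232800809229175908778479680162851955034721612757862066756566450176, [[25, 42], [21], [30, 47], [37, 17], [13, 8], [4], [40, 3]]),
  (false, 0, 4, 1688871335624706, 926336713898529563388567880069503262826159877325124512315660672063347986857992, [[38, 42], [45], [34, 30], [21, 27], [18, 24], [5, 15], [2, 8]]),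
  (false, 0, 4, 1970324837892111, 2251808403685376, [[12], [1], [8], [7], [19], [22], [25]]),
  (false, 0, 4, 1688888515887106, 3978585891278293137243057985174566720803649206378781739523711815145275978633550384660480, [[3, 13], [24, 2], [5, 17], [10, 36], [29, 21], [35, 26], [27]]),
  (false, 0, 4, 563005788913670, 1407383473553408, [[22, 46], [49, 15], [18, 38], [33, 41], [6, 10], [28], [1, 27]]),
  (false, 0, 4, 844480765624326, 1125908496842752, [[10], [21], [6], [1], [16], [15], [26]]),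
  (false, 0, 5, 258255261581418233861, 18447869982206328832, [[20], [9], [30], [2], [16], [13], [27]]),
  (true, 0, 6, 926336713898529563388567880069503262826159877325124570344395174981483657953280, 756316507022091616304, [[9], [22], [17], [6], [4], [29]]),
  (false, 0, 7, 1254386196888160305156, 147575078489583517776, [[58, 86], [43, 3], [79, 51], [66, 17], [11, 72], [21], [32, 41]]),
  (false, 0, 5, 129134808387582689310, 147575078489583321089, [[26], [30], [5], [3], [17], [14], [23]]),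
  (false, 0, 5, 295147905282433613854, 4503599627632641, [[34], [23], [29], [0], [5], [11], [17]]),
  (true, 0, 3, 25770000385, 262150, [[10, 34], [3, 15], [22, 13], [32, 29], [0, 6], [19, 25]]),
  (false, 0, 4, 1125904202465286, 926336713898529563388567880069503262826159877325124512315660672344814373896192, [[37, 41], [46], [33, 29], [22, 24], [17, 27], [6, 12], [1, 11]]),
  (false, 0, 4, 4222154715430926, 34360000513, [[15], [2], [11], [4], [16], [21], [26]]),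
  (true, 0, 4, 64424771590, 30354201441027016733116592294117482916287606860189680019559568902172068306192367624, [[2], [14], [4], [11], [1], [13]]),
  (true, 0, 4, 281530811547648, 30354201441027016733116592294117482916287606860189680019559568902174320106005921792, [[16], [14], [6], [3], [5], [11]]),
  (false, 0, 4, 562980018978823, 30354201441027016733116592294117482916287606860189680019559568902171505356238290944, [[4, 2], [1], [8, 12], [22], [19, 21], [29, 27], [30]]),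
  (true, 0, 4, 60708402882054033466233184588234965832575213720379360039119137804340758955613159426, 1157920892373161954235709850086879078532699846656405640394575840079135591628813, [[9], [1], [11], [0], [8], [6]]),
  (true, 0, 5, 7957293199362350382553048436718309911538963563185004237767501868566455786127211329748992, 30356054114454813792243369429877621922813259179944330268584200389535484239128625152, [[14], [2], [4], [8], [10], [1]]),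
  (true, 0, 6, 926336713898529563388567880069503262826159877325124512315660681915066663108608, 3978585895446808349786441020423122181116413889096501187486772120565749000385152556204067, [[3], [17], [7], [0], [2], [12]]),
  (true, 0, 4, 1125921381744640, 3096267693490176, [[14], [20], [6], [11], [17], [3]])]

/-- nogoods -/
def c4 : List Cert := [
  (true, 0, 4, 17180131340, 42950328322, [[18], [0], [10], [13], [23], [5]]),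
  (true, 0, 4, 463168356949264781694283940034751631413079938662562256157830337157608260304896, 3978585892204629851141587548563134600873152469204941616848836327460936651259805375660032, [[10], [2], [8], [3], [11], [5]]),
  (true, 0, 6, 6044758226407566042202112, 68351585149469152990842135624442400783878838832895804925912191639991050796638805542057549467025408, [[14], [4], [18], [9], [13], [5]]),
  (true, 0, 7, 274882297856, 7410693711188236507108543040556026102609279018600996098525285376506453181857859, [[8], [34], [22], [14], [2], [28]]),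
  (false, 0, 4, 563005788848129, 3978585892204629851141587548563134600873152469204941616848836327460936648445055608029186, [[5], [2], [9, 3], [14], [15, 17], [24, 20], [29, 23]]),
  (true, 0, 5, 68720721922, 694752535423897172541425910052127447119619907993843384236745504047478778101781, [[6], [19], [1], [0], [12], [10]]),
  (true, 0, 4, 1125908496973826, 231584178474632390847141970017375815706539969331281128078915168860255484379137, [[13], [6], [9], [8], [3], [16]]),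
  (true, 0, 4, 3659174697304072, 231584178474632390847141970017375815706539969331281128078915168015864914771973, [[7], [16], [15], [10], [1], [0]]),
  (true, 0, 4, 1688849860984834, 1157920892373161954235709850086879078532699846656405640394575840079131296661517, [[9], [7], [1], [0], [14], [4]]),
  (true, 0, 4, 1970333427630080, 3978585891509877315717690376021708690821025022085321708854992943224191144116114738642948, [[7], [9], [1], [14], [6], [8]]),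
  (true, 0, 5, 926336713898529563388567880069503262826159877325124512315826692760002783674368, 3978585891741461494192322766868850660838400837791861678186274071303216992596460564381696, [[18], [11], [15], [2], [17], [9]]),
  (true, 0, 4, 30065033224, 30354201441027016733116592294117482916287606860189680019559568902170379490691842048, [[6], [12], [10], [9], [19], [1]]),
  (false, 0, 4, 562962839109635, 30354201441027016733116592294117482916287606860189680019559568902170660965667897352, [[8, 20], [7, 1], [2], [16, 14], [23, 13], [25], [26, 28]]),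
  (false, 0, 4, 1970354902532097, 30354201441027016733116592294117482916287606860189680019559568902172631290504871936, [[7, 10], [23], [14], [1], [16, 32], [26], [31, 25]]),
  (true, 0, 5, 68720721920, 1852673427797059126777135760139006525652319754650249024631321344126622959140883, [[6], [24], [16], [10], [2], [20]]),
  (false, 0, 4, 60130263044, 231584178474632390847141970017375815706539969331281128078915171393525980069888, [[22, 27], [19], [35, 30], [1], [38, 6], [14, 8], [9]]),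
  (false, 0, 4, 60708402882054033466233184588234965832575213720379360039119137804340758942727733252, 1157920892373161954235709850086879078532699846656405640394575840079131296661504, [[1, 5], [14, 22], [9], [17], [16, 26], [28], [29, 31]]),
  (false, 0, 5, 110686656986234224655, 30354201441027016733116592294117482916287606860189680019559568902170379490691121168, [[5], [24], [0], [27], [26], [18], [12]]),
  (false, 0, 5, 73786976415098994702, 231584178474632390847141970017375815706539969331281128078915173645325793755152, [[29, 42], [23], [34, 47], [37, 17], [11, 6], [0], [44, 1]]),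
  (false, 0, 5, 121416805764108066932466369176469931665150427440758720078238275830049202160820813836, 521481209941630522342328367924318433506906065160821039022575936564874322975927465119190089728, [[22, 17], [8, 13], [27, 42], [34, 37], [33], [1, 4], [0]]),
  (false, 0, 4, 1125929972203526, 231584178474632390847141970017375815706539969331281128078915168015860619280393, [[0, 14], [27, 1], [6, 18], [9, 39], [30, 22], [32, 25], [24]]),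
  (true, 0, 6, 9671406556917033398370304, 3626777458843887524118539, [[7], [33], [19], [12], [5], [24]]),
  (true, 0, 6, 19342813113834247184973856, 68351585149469152990842135624442400783878838832895804925912191639991050784549694923523090813026334, [[29, 34], [13], [21, 8], [0], [28], [14]]),
  (true, 0, 6, 16925145942608495494889472, 68351585149469152990842135624442400783878838832895804925912191639991050785758417825856620014338048, [[13], [5], [9], [18], [14], [4]]),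
  (true, 0, 5, 121416805764108066932466369176469931665150427440758720078238275774702214523072086016, 7957202136758027301502849086941427559090214700364423668727443189859527910963681536507908, [[1], [8], [4], [17], [2], [10]]),
  (true, 0, 4, 1125955741417478, 3978585892204629851141587548563134600873152469204941616848836327460936651259805375135744, [[10], [4], [2], [3], [13], [7]]),
  (true, 0, 4, 55834837006, 3978585891509877315717690376021708690821025022085321708854992943224191144679051807555584, [[4], [10], [2], [13], [5], [11]]),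
  (false, 0, 4, 60708402882054033466233184588234965832575213720379360039119137804342447801178587137, 3978585891509877315717690376021708690821025022085321708854992943224191144397576830320648, [[6, 16], [17], [14, 9], [11], [0, 28], [23, 25], [22, 24]]),
  (true, 0, 5, 110681027503879946240, 521481209971982639525749112965917401523293391694767287023041635054281181660032727709349052416, [[11], [9], [2], [15], [12], [8]]),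
  (true, 0, 5, 73786976294838665216, 18446744073710600215, [[1], [27], [11], [5], [19], [20]])]

/-- nogoods -/
def c5 : List Cert := [
  (true, 0, 5, 368942762842258407428, 147573952624036151320, [[17], [13], [24], [0], [28], [9]]),
  (true, 0, 5, 258257231781700894720, 30354201441027016733116592294117482916287606860189680019559568920623034508846825472, [[16], [9], [13], [20], [17], [3]]),
  (false, 0, 5, 4503668348747791, 34359869456, [[10], [34], [0], [28], [22], [16], [6]]),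
  (true, 0, 4, 562958543749128, 30354201441027016733116592294117482916287606860189680019559568902171505373418094598, [[13], [7], [9], [10], [0], [18]]),
  (true, 0, 4, 1688858451181568, 30354201441027016733116592294117482916287606860189680019559568902170660987142668294, [[1], [13], [7], [8], [2], [14]]),
  (true, 0, 4, 8590655496, 30354201441027016733116592294117482916287606860189680019559568902170379494986088455, [[19], [13], [5], [0], [6], [8]]),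
  (false, 0, 5, 424277084024451694592, 147573952598266347521, [[4], [13], [9], [30], [25], [21], [17]]),
  (false, 0, 4, 563001493618692, 926336713898529563388567880069503262826159877325124512315660673470679920934914, [[10, 6], [1], [14, 18], [25, 23], [30, 20], [41, 35], [46, 36]]),
  (false, 0, 4, 844472175493129, 2251799813947394, [[12], [25], [16], [23], [11], [6], [1]]),
  (false, 0, 4, 1688892810657796, 3978585891278293137243057985174566720803649206378781739523711815145275978352066818211850, [[39, 25], [12, 38], [33, 21], [30, 0], [9, 17], [7, 14], [15]]),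
  (false, 0, 5, 73792605893158240271, 34360000528, [[10], [29], [0], [32], [16], [23], [7]]),
  (true, 0, 6, 926336713898529563388567880069503262826159877325124560673726474316599760257024, 20551757384696369306927120, [[21], [10], [17], [18], [28], [5]]),
  (false, 0, 7, 1267650600375806731876294983688, 79228162532715585309830545408, [[30, 2], [43, 87], [9, 37], [24, 73], [81, 16], [63], [60, 55]]),
  (false, 0, 4, 1688879925755908, 34360000522, [[30, 6], [1, 39], [34, 14], [17, 9], [46, 42], [20], [49, 27]]),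
  (false, 0, 4, 1688879925755916, 34360000514, [[18], [5], [22], [25], [8], [15], [2]]),
  (false, 0, 5, 166024355911099547676, 4503633987108867, [[6], [0], [25], [33], [17], [24], [13]]),
  (true, 0, 4, 281505041481728, 1688849860722688, [[6], [20], [14], [9], [3], [17]]),
  (true, 0, 5, 1389505070847794345082851820104254894239239815987686768473564795071252393885711, 3978585893130966565040117111951702480942655732031101494173960839776800234411687884423168, [[0], [12], [10], [6], [4], [13]]),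
  (true, 0, 6, 590304817557964324872, 521481209941628669668900570865191656371145926154295386702821286315849691654582212849727176756, [[1], [15], [23], [8], [0], [16]]),
  (true, 0, 6, 13298220911219393177845760, 521481209941628669668900570865191656371145926154295386702821286315873870263208225574135791616, [[9], [19], [5], [14], [10], [18]]),
  (true, 0, 6, 121418658437535863991593146312230070671676079760513370327304010998188352186047791104, 231584178474632390847141970017375815706539969331281153466431166899471205269540, [[7], [10], [23], [14], [6], [5]]),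
  (true, 0, 7, 2535339886082686471126997008432, 7410693711188236507108543040556026102609279018607334448240492092684257789476928, [[26], [0], [12], [20], [32], [6]]),
  (true, 0, 7, 3705346855594118253554271520278013051304639509300498166529055933426682510180368, 8958978968711216842229776532967488300723089097481638695626059013134186086984412251325969240986988052480, [[14], [5], [19], [25], [20], [11]]),
  (true, 0, 7, 31828687130226345097944463881396533766429193651030253916189694521162207808802136034508802, 231584178474632390847141970017375815706539969331281128078915168015826263474245, [[15], [23], [8], [7], [27], [0]]),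
  (true, 0, 7, 485667223056432267729865476705879726660601709763034880788322077520312097137444126722, 7642277889662868897955685010573401918315818987932277226604200544522296621006852, [[13], [22], [8], [2], [7], [16]]),
  (true, 0, 5, 73786976294838665218, 121417500516643490829638910602379983792597547060666713921622512372632309377813970965, [[6], [12], [1], [0], [9], [10]]),
  (true, 0, 6, 242834537864930032394496126920819932833563681041394765280998538284592016126525374472, 3936931034068750644401413490295388867011179478631779178550483675883722827104257, [[15], [11], [7], [6], [2], [12]]),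
  (false, 0, 5, 73789791147686101006, 1852673427797059126777135760139006525652319754650249024631321349756109608779776, [[33, 26], [37], [21, 18], [47, 54], [43, 13], [1, 9], [5]]),
  (true, 0, 4, 38655164416, 231584178474632390847141970017375815706539969331281128078915169986176866582528, [[1], [6], [16], [17], [11], [14]]),
  (false, 0, 4, 2251834173685774, 17180393473, [[27], [9], [23], [0], [4], [14], [18]])]

/-- nogoods -/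
def c6 : List Cert := [
  (false, 0, 4, 3940653969309702, 1157920892373161954235709850086879078532699846656405640394575840360649222782976, [[26], [29], [22, 28], [17], [16, 14], [7, 11], [2, 8]]),
  (true, 0, 5, 147580707989117468684, 521489167113410994670996582348771158362617516076892437726331002458351903586514302599390298128, [[13], [0], [18], [19], [7], [9]]),
  (true, 0, 7, 1852673427797059126777135760139006525652319754650249140688790322941369551683584, 8958978968711216842229769122273777112486581988938598139599956403855167489791246183617019199790652588128, [[12], [4], [19], [20], [0], [27]]),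
  (false, 0, 7, 2535417259272060068512015581200, 8958978969232698052171401265705354802837636352439294326391487388657528745324036401000578744617325821984, [[4], [11], [10, 16], [26, 33], [21, 39], [54, 48], [55]]),
  (false, 0, 7, 31828687130226345097944463881396533766429193651030253916191279084413083391364644793155600, 485667223056432267729865476705879726660601709763034880312953102434726071516054683649, [[9, 27], [15, 22], [34, 2], [30], [61, 53], [35], [42]]),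
  (false, 0, 7, 1743019575369155659283390791702, 231584178474632390847141970017375815706539969331360356241503219329723231371264, [[13], [14], [15, 6], [25], [44], [36], [30, 35]]),
  (false, 0, 5, 926336713898529563388567880069503262826159877325124512315660672063378052939790, 521481209941630522342328367924318433506906065160821039022575936564874322975926339245053050896, [[25], [29], [28, 5], [10, 2], [11], [17], [22]]),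
  (false, 0, 5, 7957171782556586274486115970349133441607298412757563479047423630290644185920906851713028, 17180917761, [[6], [14], [1], [27], [12], [20], [15]]),
  (false, 0, 5, 110684405091931717646, 231584178474632390847141970017375815706539969331281128079062741968476065234945, [[26, 21], [17], [33, 42], [0], [1, 30], [7, 4], [38, 13]]),
  (false, 0, 4, 463168356949264781694283940034751631413079938662562256157830339972306487803910, 3978585891509877315717690376021708690821025022085321708854992943224191144397594010058760, [[25, 15], [14], [17, 22], [20], [31, 3], [8, 6], [9, 7]]),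
  (true, 0, 5, 147575922918808616964, 3978585891509877315717690376021708690821025022085321708854992943224320271324635000209408, [[8], [10], [17], [4], [7], [11]]),
  (false, 0, 7, 1852673427797059126777135760139006525652319754654052015118241002554082801745936, 3705346855594118253554271520278013051304639509305568671006368719693342477123616, [[53, 35], [47, 40], [28, 60], [32], [1, 9], [27], [20]]),
  (false, 0, 7, 1584646667956174336712933113856, 8958978968711216842229769122273777112486581988938598139599956403855167484799891286924675121041605918720, [[35], [34], [33, 42], [23], [4], [12], [18, 13]]),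
  (false, 0, 5, 107375165452, 3978585891278293137243057985174566720803649206378781739523711815145275980603875221569537, [[11, 6], [2], [16, 21], [25], [30], [38], [44, 37]]),
  (true, 0, 5, 1389505070847794345082851820104254894239239815987686768473491008376505546899457, 3978585893130966565040117111951702480942655732031101494173960839776597325293435250278418, [[10], [2], [0], [6], [14], [3]]),
  (true, 0, 6, 31432108204312939481530368, 521481209941628669668900570865191656371145926154295386702821286315855736375915132027832107008, [[19], [9], [5], [14], [18], [10]]),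
  (true, 0, 6, 9007233618149416, 521481209941628669668900570865191656371145926154295386702821286315849692244878023174073352212, [[15], [1], [23], [8], [16], [0]]),
  (true, 0, 6, 121418658437535863991593146312230070671676079760513370327323353221006375902727110656, 231584178474632390847141970017375815706539969331281134124134561899541291860000, [[13], [16], [5], [8], [12], [23]]),
  (true, 0, 7, 3705346855594118253554271520278013051304639509303033408491556935302487650336816, 8958978968711216842229776532967488300723089097481638695626059013134186086984392909103151217278898405376, [[7], [26], [12], [4], [13], [18]]),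
  (true, 0, 7, 31828687130226345097944463881396533766429193651030253916189694521162207808802144624246784, 231584178474632390847141970017375815706539969331518812566457961028611186098177, [[8], [2], [15], [14], [6], [21]]),
  (true, 0, 7, 485667223056432267729865476705879726660601709763034880629865752491783421958950158336, 7642277889662868897955685010573401918315818987932277226604200544522288031334404, [[20], [1], [15], [23], [14], [9]]),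
  (true, 0, 5, 77309607938, 121417500516643490829638910602379983792597547060666713921622512409525797529526992913, [[6], [2], [11], [10], [9], [0]]),
  (true, 0, 6, 242834537864930032394496126920819932833563681041394765280993702581323409096571879426, 3936931034068750644401413490295388867011179478631779177341557857394946314862629, [[3], [11], [7], [6], [14], [0]]),
  (false, 0, 5, 110684686639923003392, 1852673427797059126777135760139006525652319754650249024631468918079242700324866, [[23, 26], [17], [31, 38], [7, 4], [13, 43], [51, 49], [45]]),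
  (false, 0, 4, 2251847059046404, 1157920892373161954235709850086879078532699846656405640394575841205031203504136, [[6], [1], [10, 0], [13], [12, 18], [27, 23], [30, 20]]),
  (true, 0, 5, 147580989468389146624, 521489167113410994670996582348771158362617516076892437726331002458351903678749148764765683712, [[8], [15], [3], [4], [12], [14]]),
  (true, 0, 7, 1852673427797059126777135760139006525652319754650249160031013140965077641330688, 136703170298938245280692082906039571841681632471381803379219941919232011332059318267738713501990912, [[5], [25], [19], [13], [21], [27]]),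
  (true, 0, 7, 1852673427797059126777135760139006525652319754652784383860217144431803866546176, 8958978968711216842229769122273777112486581988938598139599956403855167491138126154104740932792663146496, [[19], [25], [12], [13], [21], [6]]),
  (false, 0, 7, 4120009521858550558072946819092, 8958978969232698052171401265705354802837636352439294326391487388657528745324018267629793359312292151296, [[53], [46], [45, 37], [33, 26], [28, 18], [5, 13], [6]]),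
  (false, 0, 7, 31828687130226345097944463881396533766429193651030253916190011453156313911839799013146630, 485667223056432267729865476705879726660601709763034880471414263240320181299927318529, [[51, 41], [43, 36], [34, 58], [30], [5, 11], [21], [14]])]

/-- nogoods -/
def c7 : List Cert := [
  (false, 0, 7, 1199038365078888972308, 231584178474632390847141970017375815706539969331281128078915168015894979018816, [[41], [28], [29, 48], [25], [2], [8], [16, 7]]),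
  (false, 0, 5, 926336713898529563388567880069503262826159877325124512315771352809235156107270, 521481209941630522342328367924318433506906065160821039022575936564874322994373083310172930048, [[0], [4], [3, 20], [15, 27], [16], [12], [7]]),
  (false, 0, 5, 7957171782556586274486115970349133441607298412757563479047423630290551952200615613038614, 36893488164598972417, [[21], [19], [26], [2], [17], [5], [10]]),
  (false, 0, 5, 2533390756282370, 231584178474632390847141970017375815706539969331281128078915173645342973624321, [[16, 21], [27], [13, 2], [40], [41, 10], [37, 44], [8, 33]]),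
  (true, 0, 4, 1125908496908294, 231584178474632390847141970017375815706539969331281128078915168578827753095176, [[17], [14], [0], [1], [11], [6]]),
  (false, 0, 4, 3659187582205952, 562967133290497, [[3], [17], [7], [24], [20], [14], [10]]),
  (false, 0, 4, 463168356949264781694283940034751631413079938662562256157830338283499577475078, 3978585891509877315717690376021708690821025022085321708854992943224191144397585420386312, [[5, 19], [18], [13, 10], [8], [3, 31], [20, 26], [21, 27]]),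
  (true, 0, 5, 4503646872535052, 3978585891509877315717690376021708690821025022085321708854992943224191144116179164200976, [[13], [5], [2], [19], [12], [6]]),
  (false, 0, 7, 1852673427797059126777135760139006525652319754650566077517972515138768226746388, 3705346855594118253554271520278013051304639509305568652873182401748637098967040, [[11, 21], [19, 26], [28, 4], [32], [57, 51], [41], [48]]),
  (false, 0, 7, 4119883794735451010060808880180, 8958978968711216842229769122273777112486581988938598139599956403855167484720643782113805783513853591616, [[7], [20], [19, 0], [23], [46], [40], [32, 41]]),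
  (false, 0, 5, 73788946632560214022, 3978585891278293137243057985174566720803649206378781739523711815145423550052856680939521, [[31, 36], [42], [26, 21], [15], [10], [8], [4, 7]]),
  (false, 0, 5, 110682434857288794112, 231584178474632390847141970017375815706539969331281128079081188712532594917376, [[24, 7], [28], [19, 2], [12, 32], [36, 41], [45], [9, 46]]),
  (false, 0, 5, 121418658437535863991593146312230070671676079760513370327262907040708079202494447622, 231584178474632390847141970017375815706539969331281128078915172519434476584960, [[16], [12], [21], [3], [9], [5], [6]]),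
  (false, 0, 5, 121418658437535863991593146312230070671676079760513370327262906930025644551365656584, 231584178474632390847141970017375815706539969331281128079062741968415935954944, [[6], [12], [1], [23], [19], [15], [16]]),
  (true, 0, 7, 1852673427797059126777135760139006525652319754652784364517994326408095776899072, 136703170298938245280692082906039571841681632471381803379219941919228129228259626542538985266217056, [[26], [4], [12], [20], [0], [6]]),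
  (true, 0, 7, 117265822949363103656050688, 7410693711188236507108543040556026102609279018608681230290939904684090177093632, [[12], [28], [26], [20], [4], [34]]),
  (true, 0, 6, 240519217204, 68351585149469152990842135624442400783878838832895804925912191639991050784549399784625041998086154, [[8], [22], [0], [15], [7], [23]]),
  (true, 0, 6, 364250417292324200797399107529409794995451282322276160234714826992065250139362623505, 68351585149469122636640694597425667667286544715412888638305331450311031235860829977547924331561002, [[10], [7], [18], [15], [11], [0]]),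
  (true, 0, 7, 475368975085586025561263833090, 7410693711188236507108543040556026102609279018601075326687799640844033841233925, [[22], [6], [8], [14], [30], [0]]),
  (true, 0, 7, 15914343565113172548972231940698266883214596825515126958094847260581103904401068019286114, 77371252455336542063624196, [[26], [7], [15], [23], [34], [1]]),
  (true, 0, 7, 2085924839766513752338888384931203236916703635113918720651407820376570938500451770245857673216, 35807273021967806592136786648265384427267594488822115594376285505115371178284451207905280, [[3], [8], [6], [16], [2], [14]]),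
  (true, 0, 6, 15914343565113172548972231940698266883214596825515126958094847260581233031609583983919110, 231584178474632390847141970017375815706539969331281128079505463826184967421984, [[4], [20], [6], [7], [23], [13]]),
  (true, 0, 7, 792298550104117980743885914114, 30354201441027016733116592294117482916287606860189680415778961651767018354766774284, [[22], [5], [31], [14], [23], [13]]),
  (true, 0, 7, 19703256963874882, 30354201441027016733116592294117482916287606860189680019559568902170379782748897292, [[22], [17], [34], [9], [23], [0]]),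
  (true, 0, 6, 15914343565113172548972231940698266883214596825515126958094847260581103904401068017516549, 2417851639229266941444130, [[20], [7], [12], [23], [25], [0]]),
  (false, 0, 7, 136703170306895417055837975469337451304922222872433075689368226379670119905552915649219667993559084, 9263367138985295633885678800695032628261598773254097337007858107675266242641984, [[65, 4], [52, 45], [11, 58], [32, 34], [40, 28], [8, 27], [30, 14]]),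
  (false, 0, 5, 129133682513447092242, 442721857777619238912, [[8], [4], [29], [31], [17], [20], [11]]),
  (false, 0, 7, 633834973070204875407152381956, 737870889123166814272, [[32, 4], [47, 87], [11, 39], [24, 73], [79, 18], [69], [58, 49]]),
  (false, 0, 5, 2779010141695588690165703640208509788478479631975373536947203380496499348340748, 521481209941628438084722096232800809229175908778479680162851955034721612739414196817309532160, [[18], [12], [23], [1], [5], [9], [8]]),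
  (false, 0, 5, 276702005543458308097, 295149031079259734016, [[30], [21], [25], [4], [9], [13], [17]])]

/-- nogoods -/
def c8 : List Cert := [
  (false, 0, 5, 121416805764108066932466369176469931665150427440758720078238275737810696670426300418, 147573952598266413056, [[1], [20], [6], [9], [13], [17], [26]]),
  (false, 0, 5, 221365151009167245340, 4503633987174400, [[6], [15], [11], [3], [24], [27], [33]]),
  (true, 0, 6, 4503805786849302, 68351585149469152990842135624442400783878838832895804925912191639991050784549399780121476730454056, [[22], [8], [0], [15], [23], [7]]),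
  (true, 0, 6, 364250417292324200797399107529409794995451282322276160234714826844495801149313515539, 68351585149469122636640694597425667667286544715412888638305331450311031226189423430201040141615144, [[16], [13], [0], [9], [17], [18]]),
  (true, 0, 7, 31828687130226345097944463881396533766429193651030253916189694521162207808802136034574336, 7873862068137501288802826980590777734022358957263558354683115712538092819710023, [[1], [23], [15], [7], [27], [21]]),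
  (true, 0, 7, 15914343565113172548972231940698266883214596825515126958094926492370395627582549085323264, 3010670175542044828567555014658, [[12], [21], [15], [9], [6], [29]]),
  (true, 0, 7, 2085924839766513752338888384931203236916703635113918720651407820138886450957656787166163632200, 35807273021967806592136786648265384427267594488822115594375968592465314120934356204650502, [[17], [8], [20], [2], [16], [0]]),
  (true, 0, 6, 15914343565113172548972231940698266883214596825515126958094847260581103904401141032615952, 231584178474632390847141970017375815706539969331281151048505740693789168762880, [[22], [2], [12], [13], [5], [7]]),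
  (true, 0, 7, 27584685162954752, 30354201441027016733116592294117482916287606860189682554860769358630590103794221152, [[8], [33], [3], [14], [9], [27]]),
  (true, 0, 7, 871509787656907713563344044032, 30354201441027016733116592294117482916287606860189680336472218959229137226865573888, [[8], [17], [6], [23], [9], [28]]),
  (true, 0, 6, 15914343565113172548972231940698266883214596825515126958094847260581103904401080902090755, 3626777458843887526543360, [[8], [19], [12], [11], [1], [24]]),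
  (false, 0, 7, 136703170306895417055837975469337451304922222872433075689368226379670912190803581391138425202016256, 9263367138985295633885678800695032628261598773251324448033186558644895346589698, [[2, 67], [17, 24], [60, 9], [39, 41], [33, 35], [57, 48], [37, 49]]),
  (false, 0, 5, 276701161217314193436, 295152408778980458498, [[28], [34], [9], [1], [17], [10], [21]]),
  (false, 0, 7, 1267650600670981658636231639040, 396160155384440025668502159360, [[60, 88], [47, 3], [81, 53], [66, 17], [9, 74], [27], [30, 35]]),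
  (false, 0, 5, 2779010141695588690165703640208509788478479631975373536947018917278002865766400, 521481209941628438084722096232800809229175908778479680162851955034721612739415322682856570882, [[8], [12], [3], [21], [15], [19], [18]]),
  (false, 0, 5, 55347832161464614920, 147575078489583255554, [[26], [15], [21], [33], [14], [7], [3]]),
  (false, 0, 5, 4503668348682269, 295147905213712564226, [[0], [11], [5], [34], [29], [23], [17]]),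
  (false, 0, 5, 121416805764108066932466369176469931665150427440758720078238275645575569034368974876, 4503599627632642, [[26], [5], [21], [24], [18], [12], [1]]),
  (true, 0, 6, 15914343565113172548972231940698266883214596825515126958094847284759694083669946349387804, 1042966398469151859809437029641840347296592899219217043746952734279355991168147095168422510624, [[14], [0], [10], [17], [15], [5]]),
  (false, 0, 7, 136703170298938245282544756333836630968458768231520809904872261673873307573118800983266888171192410, 521481209941628438084722096232800809229175908778479680162851955034721613034562101962306748417, [[17], [18], [25], [0], [21], [8], [27]]),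
  (false, 0, 7, 11116040566782354760662814560834039153913918527901494147789865000190472689287264, 8958978969232698052171397560358499208719382798167774048378436084018019439755365394558072075048731017217, [[10], [11], [4], [14], [21], [26], [27]]),
  (false, 0, 7, 136703170298938245282544756333836630968458768231520809904872261673878378175519861456811066149306456, 295165919577862307841, [[34], [17], [27], [0], [21], [11], [25]]),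
  (false, 0, 7, 38687397115099209707552880, 77371547603241446534021121, [[33], [48], [40], [0], [7], [18], [25]]),
  (true, 0, 6, 137438953479, 2555936, [[0], [26], [12], [7], [35], [19]]),
  (false, 0, 7, 2085924839766515605012316181990330014052463774120444372971162470467208154764021931464472920136, 77371400029288856857608193, [[5], [27], [12], [14], [28], [18], [24]]),
  (true, 0, 7, 1180591620717415694338, 2084257606271691517624277730156382341358859723981530152710291852374657462173761, [[8], [27], [15], [14], [4], [0]]),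
  (false, 0, 7, 31828687138100207166081965170199360747019971385052612873456818235036827726665808170975232, 3978585891278293137243057985174566720803649206378781739528782418755114713320900171661312, [[17], [16], [23], [6], [27], [12], [21]]),
  (false, 0, 7, 1584563250432861830635341152278, 3979071558732933747985420241498414570547685623795084743735305896326699657163715177873409, [[51], [44], [45, 39], [29, 22], [34, 16], [1, 7], [0]]),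
  (true, 0, 7, 136703170298938245273281389194851335334573089430825777276610662900629668392249780139721837200277504, 3705346855594118253554271520278013051304639509300577375348148341375776843628608, [[11], [19], [13], [14], [5], [27]]),
  (false, 0, 7, 463168356949264781694283940034751631413079938662562256157830336031966056218702, 2085924839766513752338888384931203236916703635113918720651407820138886450957656787157568716801, [[15], [9], [23], [0], [21], [31], [34]])]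

/-- nogoods -/
def c9 : List Cert := [
  (false, 0, 7, 485674633750143455966372585248920282686704319042053482259789577891275754764038307916, 3978585891509877315717690376021708690821025022085321708860063545625104061722097256235008, [[17], [16], [23], [13], [6], [1], [0]]),
  (true, 0, 6, 15914343565113172548972231940698266883214596825515126958094847260581712647237185862369280, 1042966398469151859809437029641840347296592899219217043746952734279366870762667374681494913024, [[2], [12], [10], [5], [3], [17]]),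
  (false, 0, 7, 11116040566782354760662814560834039153913918527903474882073930168068828039217176, 8958978969232698052171397560358499208719382798167774048378436084018019439755365394558072075048731017217, [[17], [18], [25], [7], [0], [5], [6]]),
  (false, 0, 7, 1346938000126101599993517309952, 2535301200751606708172759236609, [[19], [6], [12], [42], [35], [32], [25]]),
  (true, 0, 6, 4835703278458520993857537, 3626777458843896114184194, [[30], [8], [18], [25], [5], [13]]),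
  (false, 0, 7, 2085924839766515605012316181990330014052463774120444372971162471734828531238027419998648008824, 2535301200456463306593033781249, [[33], [13], [26], [14], [0], [18], [10]]),
  (false, 0, 7, 316912651256100782037000192002, 3979071558732933747985420241498414570547685623795084743735464352651654398862667553177601, [[2], [9], [10, 18], [22, 29], [27, 37], [50, 42], [49]]),
  (true, 0, 7, 136703170298938245273281389194851335334573089430825777276610662900628400838361828145315524647059472, 3705346855594118253554271520278013051304639509303112578626203707204165804490848, [[18], [12], [20], [7], [26], [6]]),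
  (false, 0, 7, 463168356949264781694283940034751631413079938663116853295430188365145048154118, 2085924839766513752338888384931203236916703635113918720651407820138886450957656787148979044353, [[15], [23], [9], [28], [7], [3], [6]]),
  (false, 0, 7, 485674633750143455966372585248920282686704319042053481546736115262914449667793092608, 3978585891509877315717690376021708690821025022085321708860063545625104061722097256235008, [[10], [9], [2], [20], [27], [22], [21]])]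

/-- the library -/
def lib : List Cert := c0 ++ c1 ++ c2 ++ c3 ++ c4 ++ c5 ++ c6 ++ c7 ++ c8 ++ c9

/-- a part of a tree -/
def t0 : Tr := (.st 3 4 (.cn 2 4 (.cn 1 4 (.cn 0 4 (.bt 85 (.st 4 5 (.lf 0 4) (.lf 1 4) (.xx 4 5)) (.st 4 5 (.cn 3 5 (.cn 2 5 (.lf 11 2) (.lf 12 2)) (.lf 13 3)) (.cn 3 5 (.lf 14 3) (.cn 2 5 (.lf 15 2) (.cn 1 5 (.lf 16 1) (.cn 0 5 (.lf 17 0) (.st 5 6 (.vi 36) (.cn 4 6 (.lf 18 4) (.lf 19 4)) (.cn 4 6 (.cn 3 6 (.lf 20 3) (.cn 2 6 (.cn 1 6 (.lf 21 1) (.vi 0)) (.cn 1 6 (.lf 22 0) (.vi 0)))) (.cn 3 6 (.lf 23 3) (.cn 2 6 (.lf 24 2) (.cn 1 6 (.lf 22 0) (.vi 0)))))))))) (.cn 3 5 (.lf 25 3) (.cn 2 5 (.lf 26 2) (.lf 27 2))))) (.lf 28 0)) (.lf 29 1)) (.cn 1 4 (.lf 30 1) (.lf 31 1))) (.cn 2 4 (.cn 1 4 (.lf 32 1) (.lf 33 1)) (.lf 34 1)) (.vi 42))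

/-- a part of a tree -/
def t1 : Tr := (.st 2 3 (.cn 1 3 (.lf 4 1) (.cn 0 3 (.lf 5 0) (.lf 6 0))) (.cn 1 3 (.cn 0 3 (.lf 7 0) (.lf 8 0)) (.lf 9 1)) (.cn 1 3 (.lf 10 1) (.cn 0 3 (.lf 5 0) (.bt 68 t0 (.st 3 4 (.cn 2 4 (.lf 35 2) (.cn 1 4 (.lf 30 1) (.cn 0 4 (.lf 36 0) (.bt 85 (.st 4 5 (.cn 3 5 (.lf 37 3) (.lf 38 3)) (.cn 3 5 (.lf 39 3) (.lf 40 2)) (.cn 3 5 (.lf 41 3) (.cn 2 5 (.lf 42 2) (.lf 43 2)))) (.st 4 5 (.cn 3 5 (.lf 44 3) (.cn 2 5 (.lf 45 2) (.lf 46 2))) (.cn 3 5 (.lf 39 3) (.cn 2 5 (.lf 47 2) (.cn 1 5 (.lf 48 1) (.cn 0 5 (.lf 17 0) (.st 5 6 (.vi 36) (.cn 4 6 (.lf 49 4) (.lf 50 4)) (.cn 4 6 (.lf 51 4) (.cn 3 6 (.lf 52 3) (.cn 2 6 (.lf 53 2) (.lf 54 2))))))))) (.xx 4 5)))))) (.cn 2 4 (.lf 55 2) (.lf 34 1)) (.xx 3 4))))))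

/-- a part of a tree -/
def t2 : Tr := (.cn 1 4 (.cn 0 4 (.lf 79 0) (.bt 85 (.st 4 5 (.cn 3 5 (.lf 37 3) (.lf 38 3)) (.cn 3 5 (.lf 39 3) (.cn 2 5 (.lf 80 2) (.lf 43 2))) (.cn 3 5 (.lf 41 3) (.lf 81 2))) (.st 4 5 (.cn 3 5 (.lf 44 3) (.cn 2 5 (.lf 82 2) (.lf 46 2))) (.cn 3 5 (.lf 39 3) (.cn 2 5 (.lf 80 2) (.cn 1 5 (.lf 83 1) (.cn 0 5 (.st 5 6 (.cn 4 6 (.lf 84 4) (.cn 3 6 (.lf 85 3) (.cn 2 6 (.lf 86 2) (.lf 54 2)))) (.vi 37) (.cn 4 6 (.lf 51 4) (.cn 3 6 (.lf 52 3) (.cn 2 6 (.lf 87 2) (.lf 54 2))))) (.st 5 6 (.vi 36) (.cn 4 6 (.lf 49 4) (.lf 50 4)) (.cn 4 6 (.lf 51 4) (.cn 3 6 (.lf 52 3) (.cn 2 6 (.lf 87 2) (.lf 54 2))))))))) (.xx 4 5)))) (.cn 0 4 (.lf 88 0) (.bt 85 (.st 4 5 (.cn 3 5 (.lf 37 3) (.lf 38 3)) (.cn 3 5 (.lf 39 3) (.cn 2 5 (.lf 80 2) (.lf 43 2))) (.cn 3 5 (.lf 41 3) (.lf 81 2))) (.st 4 5 (.cn 3 5 (.lf 44 3) (.cn 2 5 (.lf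 82 2) (.lf 46 2))) (.cn 3 5 (.lf 39 3) (.cn 2 5 (.lf 80 2) (.cn 1 5 (.lf 89 1) (.cn 0 5 (.st 5 6 (.cn 4 6 (.lf 84 4) (.cn 3 6 (.lf 85 3) (.cn 2 6 (.lf 86 2) (.lf 54 2)))) (.vi 37) (.cn 4 6 (.lf 51 4) (.cn 3 6 (.lf 52 3) (.cn 2 6 (.lf 87 2) (.lf 54 2))))) (.st 5 6 (.vi 36) (.cn 4 6 (.lf 49 4) (.lf 50 4)) (.cn 4 6 (.lf 51 4) (.cn 3 6 (.lf 52 3) (.cn 2 6 (.lf 87 2) (.lf 54 2))))))))) (.xx 4 5)))))

/-- a part of a tree -/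
def t3 : Tr := (.bt 68 (.st 3 4 (.cn 2 4 (.cn 1 4 (.lf 61 1) (.cn 0 4 (.bt 85 (.st 4 5 (.lf 0 4) (.lf 1 4) (.xx 4 5)) (.st 4 5 (.cn 3 5 (.cn 2 5 (.lf 62 2) (.lf 63 2)) (.lf 13 3)) (.cn 3 5 (.lf 14 3) (.cn 2 5 (.lf 64 2) (.lf 65 2))) (.cn 3 5 (.lf 25 3) (.cn 2 5 (.lf 64 2) (.cn 1 5 (.cn 0 5 (.lf 66 0) (.lf 67 0)) (.cn 0 5 (.lf 68 0) (.lf 67 0))))))) (.lf 69 0))) (.lf 70 2)) (.cn 2 4 (.lf 18 2) (.lf 19 2)) (.cn 2 4 (.cn 1 4 (.lf 71 1) (.lf 72 1)) (.cn 1 4 (.lf 73 1) (.cn 0 4 (.lf 74 0) (.bt 85 (.st 4 5 (.lf 0 4) (.lf 1 4) (.xx 4 5)) (.st 4 5 (.cn 3 5 (.lf 57 3) (.cn 2 5 (.lf 75 2) (.lf 76 2))) (.cn 3 5 (.lf 60 3) (.lf 77 2)) (.vi 43))))))) (.st 3 4 (.cn 2 4 (.lf 78 2) t2) (.cn 2 4 (.lf 18 2) (.lf 19 2)) (.xx 3 4)))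

/-- a part of a tree -/
def t4 : Tr := (.bt 68 (.st 3 4 (.cn 2 4 (.lf 37 2) (.lf 38 2)) (.cn 2 4 (.lf 39 2) (.cn 1 4 (.lf 80 1) (.cn 0 4 (.lf 97 0) (.lf 98 0)))) (.cn 2 4 (.lf 41 2) (.cn 1 4 (.lf 42 1) (.cn 0 4 (.lf 99 0) (.lf 98 0))))) (.st 3 4 (.cn 2 4 (.lf 44 2) (.cn 1 4 (.lf 82 1) (.cn 0 4 (.bt 85 (.st 4 5 (.cn 3 5 (.lf 37 3) (.lf 38 3)) (.cn 3 5 (.lf 39 3) (.cn 2 5 (.lf 100 2) (.lf 101 2))) (.cn 3 5 (.lf 41 3) (.cn 2 5 (.lf 102 2) (.lf 101 2)))) (.st 4 5 (.cn 3 5 (.lf 44 3) (.cn 2 5 (.lf 103 2) (.lf 104 2))) (.cn 3 5 (.lf 39 3) (.cn 2 5 (.lf 100 2) (.cn 1 5 (.lf 105 1) (.cn 0 5 (.lf 106 0) (.st 5 6 (.vi 36) (.cn 4 6 (.lf 49 4) (.lf 50 4)) (.cn 4 6 (.lf 51 4) (.lf 107 0))))))) (.xx 4 5))) (.lf 108 0)))) (.cn 2 4 (.lf 39 2) (.cn 1 4 (.lf 80 1) (.cn 0 4 (.lf 97 0) (.lf 109 0)))) (.xx 3 4)))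

/-- a part of a tree -/
def t5 : Tr := (.bt 34 (.st 1 2 (.cn 0 2 (.lf 2 0) (.lf 3 0)) (.cn 0 2 (.bt 51 (.st 2 3 (.lf 0 2) (.lf 1 2) (.xx 2 3)) t1) (.lf 56 0)) (.cn 0 2 (.bt 51 (.st 2 3 (.lf 0 2) (.lf 1 2) (.xx 2 3)) (.st 2 3 (.cn 1 3 (.lf 57 1) (.cn 0 3 (.lf 58 0) (.lf 59 0))) (.cn 1 3 (.lf 60 1) (.cn 0 3 t3 (.lf 90 0))) (.vi 41))) (.bt 51 (.st 2 3 (.lf 0 2) (.lf 1 2) (.xx 2 3)) (.st 2 3 (.cn 1 3 (.lf 57 1) (.lf 91 0)) (.cn 1 3 (.lf 60 1) (.cn 0 3 (.lf 92 0) (.lf 93 0))) (.vi 41))))) (.st 1 2 (.cn 0 2 (.lf 2 0) (.lf 3 0)) (.cn 0 2 (.lf 94 0) (.bt 51 (.st 2 3 (.cn 1 3 (.lf 84 1) (.cn 0 3 (.lf 85 0) (.lf 95 0))) (.cn 1 3 (.lf 49 1) (.lf 50 1)) (.cn 1 3 (.lf 51 1) (.lf 96 0))) (.st 2 3 (.cn 1 3 (.lf 84 1) (.cn 0 3 (.lf 85 0) t4)) (.cn 1 3 (.lf 110 1) (.cn 0 3 (.lf 111 0) (.lf 112 0))) (.xx 2 3)))) (.xx 1 2)))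

/-- a part of a tree -/
def t6 : Tr := (.st 3 4 (.cn 2 4 (.cn 1 4 (.lf 113 1) (.lf 114 1)) (.lf 115 1)) (.cn 2 4 (.cn 1 4 (.cn 0 4 (.bt 85 (.st 4 5 (.lf 0 4) (.lf 1 4) (.xx 4 5)) (.st 4 5 (.cn 3 5 (.lf 4 3) (.cn 2 5 (.lf 116 2) (.cn 1 5 (.lf 117 1) (.cn 0 5 (.lf 118 0) (.st 5 6 (.vi 36) (.cn 4 6 (.cn 3 6 (.lf 119 3) (.lf 120 3)) (.lf 56 4)) (.cn 4 6 (.cn 3 6 (.lf 121 3) (.cn 2 6 (.cn 1 6 (.vi 1) (.lf 122 1)) (.cn 1 6 (.vi 1) (.lf 123 0)))) (.cn 3 6 (.lf 124 3) (.cn 2 6 (.lf 125 2) (.cn 1 6 (.vi 1) (.lf 123 0)))))))))) (.cn 3 5 (.cn 2 5 (.lf 126 2) (.lf 127 2)) (.lf 9 3)) (.cn 3 5 (.lf 10 3) (.cn 2 5 (.lf 128 2) (.lf 129 2))))) (.lf 130 0)) (.lf 131 1)) (.cn 1 4 (.lf 132 1) (.lf 133 1))) (.vi 42))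

/-- a part of a tree -/
def t7 : Tr := (.cn 1 3 (.lf 25 1) (.cn 0 3 (.lf 64 0) (.bt 68 t6 (.st 3 4 (.cn 2 4 (.lf 35 2) (.lf 115 1)) (.cn 2 4 (.lf 55 2) (.cn 1 4 (.lf 132 1) (.cn 0 4 (.lf 134 0) (.bt 85 (.st 4 5 (.cn 3 5 (.lf 84 3) (.lf 135 2)) (.cn 3 5 (.lf 49 3) (.lf 50 3)) (.cn 3 5 (.lf 51 3) (.cn 2 5 (.lf 52 2) (.lf 95 2)))) (.st 4 5 (.cn 3 5 (.lf 84 3) (.cn 2 5 (.lf 136 2) (.cn 1 5 (.lf 137 1) (.cn 0 5 (.lf 118 0) (.st 5 6 (.vi 36) (.cn 4 6 (.lf 39 4) (.cn 3 6 (.lf 80 3) (.cn 2 6 (.lf 138 2) (.lf 98 2)))) (.cn 4 6 (.lf 41 4) (.cn 3 6 (.lf 42 3) (.cn 2 6 (.lf 139 2) (.lf 98 2))))))))) (.cn 3 5 (.lf 110 3) (.cn 2 5 (.lf 140 2) (.lf 112 2))) (.xx 4 5)))))) (.xx 3 4)))))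

/-- a part of a tree -/
def t8 : Tr := (.cn 1 4 (.cn 0 4 (.lf 149 0) (.bt 85 (.st 4 5 (.cn 3 5 (.lf 84 3) (.cn 2 5 (.lf 85 2) (.lf 95 2))) (.cn 3 5 (.lf 49 3) (.lf 50 3)) (.cn 3 5 (.lf 51 3) (.lf 96 2))) (.st 4 5 (.cn 3 5 (.lf 84 3) (.cn 2 5 (.lf 85 2) (.cn 1 5 (.lf 150 1) (.cn 0 5 (.st 5 6 (.cn 4 6 (.lf 37 4) (.lf 38 4)) (.vi 37) (.cn 4 6 (.lf 41 4) (.cn 3 6 (.lf 42 3) (.cn 2 6 (.lf 99 2) (.lf 98 2))))) (.st 5 6 (.vi 36) (.cn 4 6 (.lf 39 4) (.cn 3 6 (.lf 80 3) (.cn 2 6 (.lf 97 2) (.lf 98 2)))) (.cn 4 6 (.lf 41 4) (.cn 3 6 (.lf 42 3) (.cn 2 6 (.lf 99 2) (.lf 98 2))))))))) (.cn 3 5 (.lf 110 3) (.cn 2 5 (.lf 111 2) (.lf 112 2))) (.xx 4 5)))) (.cn 0 4 (.lf 151 0) (.bt 85 (.st 4 5 (.cn 3 5 (.lf 84 3) (.cn 2 5 (.lf 85 2) (.lf 95 2))) (.cn 3 5 (.lf 49 3) (.lf 50 3)) (.cn 3 5 (.lf 51 3) (.lf 96 2))) (.st 4 5 (.cn 3 5 (.lf 84 3) (.cn 2 5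 (.lf 85 2) (.cn 1 5 (.lf 152 1) (.cn 0 5 (.st 5 6 (.cn 4 6 (.lf 37 4) (.lf 38 4)) (.vi 37) (.cn 4 6 (.lf 41 4) (.cn 3 6 (.lf 42 3) (.cn 2 6 (.lf 99 2) (.lf 98 2))))) (.st 5 6 (.vi 36) (.cn 4 6 (.lf 39 4) (.cn 3 6 (.lf 80 3) (.cn 2 6 (.lf 97 2) (.lf 98 2)))) (.cn 4 6 (.lf 41 4) (.cn 3 6 (.lf 42 3) (.cn 2 6 (.lf 99 2) (.lf 98 2))))))))) (.cn 3 5 (.lf 110 3) (.cn 2 5 (.lf 111 2) (.lf 112 2))) (.xx 4 5)))))

/-- a part of a tree -/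
def t9 : Tr := (.bt 68 (.st 3 4 (.cn 2 4 (.lf 2 2) (.lf 3 2)) (.cn 2 4 (.cn 1 4 (.lf 119 1) (.cn 0 4 (.bt 85 (.st 4 5 (.lf 0 4) (.lf 1 4) (.xx 4 5)) (.st 4 5 (.cn 3 5 (.lf 4 3) (.cn 2 5 (.lf 5 2) (.lf 6 2))) (.cn 3 5 (.cn 2 5 (.lf 7 2) (.lf 8 2)) (.lf 9 3)) (.cn 3 5 (.lf 10 3) (.cn 2 5 (.lf 5 2) (.cn 1 5 (.cn 0 5 (.lf 141 0) (.lf 142 0)) (.cn 0 5 (.lf 143 0) (.lf 142 0))))))) (.lf 144 0))) (.lf 56 2)) (.cn 2 4 (.cn 1 4 (.lf 145 1) (.lf 146 1)) (.cn 1 4 (.lf 147 1) (.cn 0 4 (.lf 148 0) (.bt 85 (.st 4 5 (.lf 0 4) (.lf 1 4) (.xx 4 5)) (.st 4 5 (.cn 3 5 (.lf 57 3) (.lf 91 2)) (.cn 3 5 (.lf 60 3) (.cn 2 5 (.lf 92 2) (.lf 93 2))) (.vi 43))))))) (.st 3 4 (.cn 2 4 (.lf 2 2) (.lf 3 2)) (.cn 2 4 (.lf 94 2) t8) (.xx 3 4)))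

/-- a part of a tree -/
def t10 : Tr := (.bt 68 (.st 3 4 (.cn 2 4 (.lf 84 2) (.cn 1 4 (.lf 85 1) (.cn 0 4 (.lf 86 0) (.lf 54 0)))) (.cn 2 4 (.lf 49 2) (.lf 50 2)) (.cn 2 4 (.lf 51 2) (.cn 1 4 (.lf 52 1) (.cn 0 4 (.lf 87 0) (.lf 54 0))))) (.st 3 4 (.cn 2 4 (.lf 84 2) (.cn 1 4 (.lf 85 1) (.cn 0 4 (.lf 86 0) (.lf 156 0)))) (.cn 2 4 (.lf 110 2) (.cn 1 4 (.lf 111 1) (.cn 0 4 (.bt 85 (.st 4 5 (.cn 3 5 (.lf 84 3) (.cn 2 5 (.lf 157 2) (.lf 158 2))) (.cn 3 5 (.lf 49 3) (.lf 50 3)) (.cn 3 5 (.lf 51 3) (.cn 2 5 (.lf 159 2) (.lf 158 2)))) (.st 4 5 (.cn 3 5 (.lf 84 3) (.cn 2 5 (.lf 157 2) (.cn 1 5 (.lf 160 1) (.cn 0 5 (.lf 161 0) (.st 5 6 (.vi 36) (.cn 4 6 (.lf 39 4) (.lf 162 0)) (.cn 4 6 (.lf 41 4) (.lf 162 0))))))) (.cn 3 5 (.lf 110 3) (.cn 2 5 (.lf 163 2) (.lf 164 2))) (.xx 4 5))) (.lf 165 0)))) (.xx 3 4)))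

/-- a part of a tree -/
def t11 : Tr := (.bt 34 (.st 1 2 (.cn 0 2 (.bt 51 (.st 2 3 (.lf 0 2) (.lf 1 2) (.xx 2 3)) (.st 2 3 (.cn 1 3 (.cn 0 3 (.lf 62 0) (.lf 63 0)) (.lf 13 1)) (.cn 1 3 (.lf 14 1) (.cn 0 3 (.lf 64 0) (.lf 65 0))) t7)) (.lf 70 0)) (.cn 0 2 (.lf 18 0) (.lf 19 0)) (.cn 0 2 (.bt 51 (.st 2 3 (.lf 0 2) (.lf 1 2) (.xx 2 3)) (.st 2 3 (.cn 1 3 (.lf 57 1) (.cn 0 3 t9 (.lf 153 0))) (.cn 1 3 (.lf 60 1) (.cn 0 3 (.lf 154 0) (.lf 155 0))) (.vi 41))) (.bt 51 (.st 2 3 (.lf 0 2) (.lf 1 2) (.xx 2 3)) (.st 2 3 (.cn 1 3 (.lf 57 1) (.cn 0 3 (.lf 75 0) (.lf 76 0))) (.cn 1 3 (.lf 60 1) (.lf 77 0)) (.vi 41))))) (.st 1 2 (.cn 0 2 (.lf 78 0) (.bt 51 (.st 2 3 (.cn 1 3 (.lf 37 1) (.lf 38 1)) (.cn 1 3 (.lf 39 1) (.cn 0 3 (.lf 80 0) (.lf 43 0))) (.cn 1 3 (.lf 41 1) (.lf 81 0))) (.st 2 3 (.cn 1 3 (.lf 44 1) (.cn 0 3 (.lf 82 0) (.lf 46 0))) (.cn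 1 3 (.lf 39 1) (.cn 0 3 (.lf 80 0) t10)) (.xx 2 3)))) (.cn 0 2 (.lf 18 0) (.lf 19 0)) (.xx 1 2)))

/-- a part of a tree -/
def t12 : Tr := (.cn 2 4 (.cn 1 4 (.lf 20 1) (.cn 0 4 (.bt 85 (.st 4 5 (.lf 0 4) (.lf 1 4) (.xx 4 5)) (.st 4 5 (.cn 3 5 (.lf 57 3) (.cn 2 5 (.cn 1 5 (.lf 167 1) (.cn 0 5 (.lf 168 0) (.lf 169 0))) (.lf 153 2))) (.cn 3 5 (.lf 60 3) (.cn 2 5 (.lf 154 2) (.lf 155 2))) (.vi 43))) (.bt 85 (.st 4 5 (.lf 0 4) (.lf 1 4) (.xx 4 5)) (.st 4 5 (.cn 3 5 (.lf 57 3) (.cn 2 5 (.cn 1 5 (.lf 167 1) (.cn 0 5 (.lf 170 0) (.st 5 6 (.vi 36) (.cn 4 6 (.lf 171 0) (.lf 56 4)) (.cn 4 6 (.lf 172 0) (.cn 3 6 (.lf 147 3) (.cn 2 6 (.lf 148 2) (.cn 1 6 (.lf 173 0) (.lf 174 0)))))))) (.lf 153 2))) (.cn 3 5 (.lf 60 3) (.cn 2 5 (.lf 154 2) (.lf 155 2))) (.vi 43))))) (.cn 1 4 (.lf 23 1) (.cn 0 4 (.lf 24 0) (.bt 85 (.st 4 5 (.lf 0 4) (.lf 1 4) (.xx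 4 5)) (.st 4 5 (.cn 3 5 (.lf 57 3) (.cn 2 5 (.lf 75 2) (.lf 76 2))) (.cn 3 5 (.lf 60 3) (.lf 77 2)) (.vi 43))))))

/-- a part of a tree -/
def t13 : Tr := (.cn 1 4 (.cn 0 4 (.lf 175 0) (.bt 85 (.st 4 5 (.cn 3 5 (.lf 37 3) (.lf 38 3)) (.cn 3 5 (.lf 39 3) (.cn 2 5 (.lf 80 2) (.lf 43 2))) (.cn 3 5 (.lf 41 3) (.lf 81 2))) (.st 4 5 (.cn 3 5 (.lf 44 3) (.cn 2 5 (.lf 82 2) (.lf 46 2))) (.cn 3 5 (.lf 39 3) (.cn 2 5 (.lf 80 2) (.cn 1 5 (.lf 83 1) (.cn 0 5 (.lf 176 0) (.st 5 6 (.vi 36) (.cn 4 6 (.lf 49 4) (.lf 50 4)) (.cn 4 6 (.lf 51 4) (.cn 3 6 (.lf 52 3) (.cn 2 6 (.lf 87 2) (.lf 54 2))))))))) (.xx 4 5)))) (.cn 0 4 (.lf 24 0) (.bt 85 (.st 4 5 (.cn 3 5 (.lf 37 3) (.lf 38 3)) (.cn 3 5 (.lf 39 3) (.cn 2 5 (.lf 80 2) (.lf 43 2))) (.cn 3 5 (.lf 41 3) (.lf 81 2))) (.st 4 5 (.cn 3 5 (.lf 44 3) (.cn 2 5 (.lf 82 2) (.lf 46 2))) (.cn 3 5 (.lf 39 3)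 (.cn 2 5 (.lf 80 2) (.cn 1 5 (.lf 177 1) (.cn 0 5 (.lf 176 0) (.st 5 6 (.vi 36) (.cn 4 6 (.lf 49 4) (.lf 50 4)) (.cn 4 6 (.lf 51 4) (.cn 3 6 (.lf 52 3) (.cn 2 6 (.lf 87 2) (.lf 54 2))))))))) (.xx 4 5)))))

/-- a part of a tree -/
def t14 : Tr := (.st 3 4 (.cn 2 4 (.cn 1 4 (.lf 61 1) (.lf 166 1)) (.lf 70 2)) (.cn 2 4 (.lf 18 2) (.lf 19 2)) (.cn 2 4 (.cn 1 4 (.lf 20 1) (.cn 0 4 (.lf 181 0) (.bt 85 (.st 4 5 (.lf 0 4) (.lf 1 4) (.xx 4 5)) (.st 4 5 (.cn 3 5 (.lf 57 3) (.cn 2 5 (.cn 1 5 (.lf 167 1) (.cn 0 5 (.st 5 6 (.cn 4 6 (.lf 2 4) (.lf 3 4)) (.vi 37) (.cn 4 6 (.lf 182 0) (.cn 3 6 (.lf 147 3) (.cn 2 6 (.lf 148 2) (.lf 183 0))))) (.st 5 6 (.vi 36) (.cn 4 6 (.lf 171 0) (.lf 56 4)) (.cn 4 6 (.lf 172 0) (.cn 3 6 (.lf 147 3) (.cn 2 6 (.lf 148 2) (.cn 1 6 (.lf 184 0) (.lf 185 0)))))))) (.lf 153 2))) (.cn 3 5 (.lf 60 3) (.cn 2 5 (.lf 154 2)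 (.lf 155 2))) (.vi 43))))) (.cn 1 4 (.lf 23 1) (.cn 0 4 (.lf 186 0) (.lf 54 0)))))

/-- a part of a tree -/
def t15 : Tr := (.bt 68 (.st 3 4 (.cn 2 4 (.cn 1 4 (.lf 113 1) (.lf 114 1)) (.lf 115 1)) (.cn 2 4 (.cn 1 4 (.cn 0 4 (.lf 190 0) (.bt 85 (.st 4 5 (.lf 0 4) (.lf 1 4) (.xx 4 5)) (.st 4 5 (.cn 3 5 (.lf 4 3) (.cn 2 5 (.lf 116 2) (.cn 1 5 (.lf 117 1) (.cn 0 5 (.st 5 6 (.cn 4 6 (.lf 2 4) (.lf 3 4)) (.vi 37) (.cn 4 6 (.lf 182 0) (.cn 3 6 (.lf 124 3) (.cn 2 6 (.lf 125 2) (.lf 191 0))))) (.st 5 6 (.vi 36) (.cn 4 6 (.lf 171 0) (.lf 56 4)) (.cn 4 6 (.lf 172 0) (.cn 3 6 (.lf 124 3) (.cn 2 6 (.lf 125 2) (.lf 192 0))))))))) (.cn 3 5 (.cn 2 5 (.lf 126 2) (.lf 127 2)) (.lf 9 3)) (.cn 3 5 (.lf 10 3) (.cn 2 5 (.lf 128 2) (.lf 129 2)))))) (.lf 131 1)) (.lf 193 0)) (.vi 42)) (.st 3 4 (.cn 2 4 (.lf 35 2) (.lf 115 1)) (.cn 2 4 (.lf 55 2) (.lf 193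 0)) (.xx 3 4)))

/-- a part of a tree -/
def t16 : Tr := (.st 2 3 (.cn 1 3 (.cn 0 3 (.lf 178 0) (.lf 179 0)) (.lf 13 1)) (.cn 1 3 (.lf 14 1) (.cn 0 3 (.lf 180 0) (.bt 68 t14 (.st 3 4 (.cn 2 4 (.lf 78 2) (.cn 1 4 (.cn 0 4 (.bt 85 (.st 4 5 (.cn 3 5 (.lf 37 3) (.lf 38 3)) (.cn 3 5 (.lf 39 3) (.cn 2 5 (.lf 80 2) (.lf 43 2))) (.cn 3 5 (.lf 41 3) (.lf 81 2))) (.st 4 5 (.cn 3 5 (.lf 44 3) (.cn 2 5 (.lf 82 2) (.lf 46 2))) (.cn 3 5 (.lf 39 3) (.cn 2 5 (.lf 80 2) (.cn 1 5 (.lf 83 1) (.cn 0 5 (.lf 106 0) (.st 5 6 (.vi 36) (.cn 4 6 (.lf 49 4) (.lf 50 4)) (.cn 4 6 (.lf 51 4) (.cn 3 6 (.lf 52 3) (.cn 2 6 (.lf 87 2) (.lf 54 2))))))))) (.xx 4 5))) (.lf 187 0)) (.lf 188 0))) (.cn 2 4 (.lf 18 2) (.lf 19 2)) (.xx 3 4))))) (.cn 1 3 (.lf 25 1) (.cn 0 3 (.lf 189 0) t15)))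

/-- a part of a tree -/
def t17 : Tr := (.cn 2 4 (.cn 1 4 (.lf 121 1) (.cn 0 4 (.bt 85 (.st 4 5 (.lf 0 4) (.lf 1 4) (.xx 4 5)) (.st 4 5 (.cn 3 5 (.lf 57 3) (.cn 2 5 (.lf 58 2) (.lf 59 2))) (.cn 3 5 (.lf 60 3) (.cn 2 5 (.cn 1 5 (.lf 194 1) (.cn 0 5 (.lf 195 0) (.lf 196 0))) (.lf 90 2))) (.vi 43))) (.bt 85 (.st 4 5 (.lf 0 4) (.lf 1 4) (.xx 4 5)) (.st 4 5 (.cn 3 5 (.lf 57 3) (.cn 2 5 (.lf 58 2) (.lf 59 2))) (.cn 3 5 (.lf 60 3) (.cn 2 5 (.cn 1 5 (.lf 194 1) (.cn 0 5 (.lf 197 0) (.st 5 6 (.vi 36) (.cn 4 6 (.lf 18 4) (.lf 19 4)) (.cn 4 6 (.lf 198 0) (.cn 3 6 (.lf 73 3) (.cn 2 6 (.lf 74 2) (.cn 1 6 (.lf 199 0) (.lf 200 0)))))))) (.lf 90 2))) (.vi 43))))) (.cn 1 4 (.lf 124 1) (.cn 0 4 (.lf 125 0) (.bt 85 (.st 4 5 (.lf 0 4) (.lf 1 4) (.xx 4 5)) (.st 4 5 (.cn 3 5 (.lf 57 3) (.lf 91 2)) (.cn 3 5 (.lf 60 3) (.cn 2 5 (.lf 92 2) (.lf 93 2))) (.vi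 43))))))

/-- a part of a tree -/
def t18 : Tr := (.cn 1 4 (.cn 0 4 (.lf 201 0) (.bt 85 (.st 4 5 (.cn 3 5 (.lf 84 3) (.cn 2 5 (.lf 85 2) (.lf 95 2))) (.cn 3 5 (.lf 49 3) (.lf 50 3)) (.cn 3 5 (.lf 51 3) (.lf 96 2))) (.st 4 5 (.cn 3 5 (.lf 84 3) (.cn 2 5 (.lf 85 2) (.cn 1 5 (.lf 150 1) (.cn 0 5 (.lf 202 0) (.st 5 6 (.vi 36) (.cn 4 6 (.lf 39 4) (.cn 3 6 (.lf 80 3) (.cn 2 6 (.lf 97 2) (.lf 98 2)))) (.cn 4 6 (.lf 41 4) (.cn 3 6 (.lf 42 3) (.cn 2 6 (.lf 99 2) (.lf 98 2))))))))) (.cn 3 5 (.lf 110 3) (.cn 2 5 (.lf 111 2) (.lf 112 2))) (.xx 4 5)))) (.cn 0 4 (.lf 125 0) (.bt 85 (.st 4 5 (.cn 3 5 (.lf 84 3) (.cn 2 5 (.lf 85 2) (.lf 95 2))) (.cn 3 5 (.lf 49 3) (.lf 50 3)) (.cn 3 5 (.lf 51 3) (.lf 96 2))) (.st 4 5 (.cn 3 5 (.lf 84 3) (.cn 2 5 (.lf 85 2) (.cn 1 5 (.lf 203 1) (.cn 0 5 (.lf 202 0) (.st 5 6 (.vi 36) (.cn 4 6 (.lf 39 4) (.cn 3 6 (.lf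 80 3) (.cn 2 6 (.lf 97 2) (.lf 98 2)))) (.cn 4 6 (.lf 41 4) (.cn 3 6 (.lf 42 3) (.cn 2 6 (.lf 99 2) (.lf 98 2))))))))) (.cn 3 5 (.lf 110 3) (.cn 2 5 (.lf 111 2) (.lf 112 2))) (.xx 4 5)))))

/-- a part of a tree -/
def t19 : Tr := (.st 3 4 (.cn 2 4 (.lf 2 2) (.lf 3 2)) (.cn 2 4 (.cn 1 4 (.lf 119 1) (.lf 120 1)) (.lf 56 2)) (.cn 2 4 (.cn 1 4 (.lf 121 1) (.cn 0 4 (.lf 205 0) (.bt 85 (.st 4 5 (.lf 0 4) (.lf 1 4) (.xx 4 5)) (.st 4 5 (.cn 3 5 (.lf 57 3) (.cn 2 5 (.lf 58 2) (.lf 59 2))) (.cn 3 5 (.lf 60 3) (.cn 2 5 (.cn 1 5 (.lf 194 1) (.cn 0 5 (.st 5 6 (.cn 4 6 (.lf 206 0) (.lf 70 4)) (.vi 37) (.cn 4 6 (.lf 207 0) (.cn 3 6 (.lf 73 3) (.cn 2 6 (.lf 74 2) (.lf 208 0))))) (.st 5 6 (.vi 36) (.cn 4 6 (.lf 18 4) (.lf 19 4)) (.cn 4 6 (.lf 198 0) (.cn 3 6 (.lf 73 3) (.cn 2 6 (.lf 74 2) (.cn 1 6 (.lf 209 0) (.lf 210 0)))))))) (.lf 90 2))) (.vi 43)))))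 (.cn 1 4 (.lf 124 1) (.cn 0 4 (.lf 211 0) (.lf 98 0)))))

/-- a part of a tree -/
def t20 : Tr := (.cn 1 3 (.lf 4 1) (.cn 0 3 (.lf 204 0) (.bt 68 t19 (.st 3 4 (.cn 2 4 (.lf 2 2) (.lf 3 2)) (.cn 2 4 (.lf 94 2) (.cn 1 4 (.cn 0 4 (.bt 85 (.st 4 5 (.cn 3 5 (.lf 84 3) (.cn 2 5 (.lf 85 2) (.lf 95 2))) (.cn 3 5 (.lf 49 3) (.lf 50 3)) (.cn 3 5 (.lf 51 3) (.lf 96 2))) (.st 4 5 (.cn 3 5 (.lf 84 3) (.cn 2 5 (.lf 85 2) (.cn 1 5 (.lf 150 1) (.cn 0 5 (.lf 161 0) (.st 5 6 (.vi 36) (.cn 4 6 (.lf 39 4) (.cn 3 6 (.lf 80 3) (.cn 2 6 (.lf 97 2) (.lf 98 2)))) (.cn 4 6 (.lf 41 4) (.cn 3 6 (.lf 42 3) (.cn 2 6 (.lf 99 2) (.lf 98 2))))))))) (.cn 3 5 (.lf 110 3) (.cn 2 5 (.lf 111 2) (.lf 112 2))) (.xx 4 5))) (.lf 212 0)) (.lf 213 0))) (.xx 3 4)))))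

/-- a part of a tree -/
def t21 : Tr := (.bt 68 (.st 3 4 (.cn 2 4 (.cn 1 4 (.cn 0 4 (.lf 217 0) (.bt 85 (.st 4 5 (.lf 0 4) (.lf 1 4) (.xx 4 5)) (.st 4 5 (.cn 3 5 (.cn 2 5 (.lf 11 2) (.lf 12 2)) (.lf 13 3)) (.cn 3 5 (.lf 14 3) (.cn 2 5 (.lf 15 2) (.cn 1 5 (.lf 16 1) (.cn 0 5 (.st 5 6 (.cn 4 6 (.lf 206 0) (.lf 70 4)) (.vi 37) (.cn 4 6 (.lf 207 0) (.cn 3 6 (.lf 23 3) (.cn 2 6 (.lf 24 2) (.lf 218 0))))) (.st 5 6 (.vi 36) (.cn 4 6 (.lf 18 4) (.lf 19 4)) (.cn 4 6 (.lf 198 0) (.cn 3 6 (.lf 23 3) (.cn 2 6 (.lf 24 2) (.lf 219 0))))))))) (.cn 3 5 (.lf 25 3) (.cn 2 5 (.lf 26 2) (.lf 27 2)))))) (.lf 29 1)) (.lf 220 0)) (.cn 2 4 (.cn 1 4 (.lf 32 1) (.lf 33 1)) (.lf 34 1)) (.vi 42)) (.st 3 4 (.cn 2 4 (.lf 35 2) (.lf 220 0)) (.cn 2 4 (.lf 55 2) (.lf 34 1)) (.xx 3 4)))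

/-- a part of a tree -/
def t22 : Tr := (.st 1 2 (.cn 0 2 (.bt 51 (.st 2 3 (.lf 0 2) (.lf 1 2) (.xx 2 3)) (.st 2 3 (.cn 1 3 (.cn 0 3 (.lf 11 0) (.lf 12 0)) (.lf 13 1)) (.cn 1 3 (.lf 14 1) (.cn 0 3 (.lf 15 0) (.bt 68 (.st 3 4 (.cn 2 4 (.cn 1 4 (.lf 61 1) (.lf 166 1)) (.lf 70 2)) (.cn 2 4 (.lf 18 2) (.lf 19 2)) t12) (.st 3 4 (.cn 2 4 (.lf 78 2) t13) (.cn 2 4 (.lf 18 2) (.lf 19 2)) (.xx 3 4))))) (.cn 1 3 (.lf 25 1) (.cn 0 3 (.lf 26 0) (.lf 27 0))))) (.bt 51 (.st 2 3 (.lf 0 2) (.lf 1 2) (.xx 2 3)) t16)) (.cn 0 2 (.bt 51 (.st 2 3 (.lf 0 2) (.lf 1 2) (.xx 2 3)) (.st 2 3 (.cn 1 3 (.lf 4 1) (.cn 0 3 (.lf 116 0) (.bt 68 (.st 3 4 (.cn 2 4 (.lf 2 2) (.lf 3 2)) (.cn 2 4 (.cn 1 4 (.lf 119 1) (.lf 120 1)) (.lf 56 2)) t17) (.st 3 4 (.cn 2 4 (.lf 2 2) (.lf 3 2)) (.cn 2 4 (.lf 94 2) t18) (.xx 3 4))))) (.cn 1 3 (.cn 0 3 (.lf 126 0) (.lf 127 0)) (.lf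 9 1)) (.cn 1 3 (.lf 10 1) (.cn 0 3 (.lf 128 0) (.lf 129 0))))) (.bt 51 (.st 2 3 (.lf 0 2) (.lf 1 2) (.xx 2 3)) (.st 2 3 t20 (.cn 1 3 (.cn 0 3 (.lf 214 0) (.lf 215 0)) (.lf 9 1)) (.cn 1 3 (.lf 10 1) (.cn 0 3 (.lf 216 0) t21))))) (.vi 40))

/-- a part of a tree -/
def t23 : Tr := (.bt 68 (.st 3 4 (.cn 2 4 (.lf 84 2) (.cn 1 4 (.lf 85 1) (.cn 0 4 (.lf 221 0) (.lf 54 0)))) (.cn 2 4 (.lf 49 2) (.lf 50 2)) (.cn 2 4 (.lf 51 2) (.cn 1 4 (.lf 52 1) (.cn 0 4 (.lf 53 0) (.lf 54 0))))) (.st 3 4 (.cn 2 4 (.lf 84 2) (.cn 1 4 (.lf 85 1) (.cn 0 4 (.lf 221 0) (.lf 156 0)))) (.cn 2 4 (.lf 110 2) (.cn 1 4 (.lf 111 1) (.cn 0 4 (.bt 85 (.st 4 5 (.cn 3 5 (.lf 84 3) (.cn 2 5 (.lf 157 2) (.lf 158 2))) (.cn 3 5 (.lf 49 3) (.lf 50 3)) (.cn 3 5 (.lf 51 3) (.cn 2 5 (.lf 159 2) (.lf 158 2)))) (.st 4 5 (.cn 3 5 (.lf 84 3) (.cn 2 5 (.lf 157 2) (.cn 1 5 (.lf 160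 1) (.cn 0 5 (.lf 161 0) (.st 5 6 (.vi 36) (.cn 4 6 (.lf 39 4) (.lf 162 0)) (.cn 4 6 (.lf 41 4) (.lf 162 0))))))) (.cn 3 5 (.lf 110 3) (.cn 2 5 (.lf 163 2) (.lf 164 2))) (.xx 4 5))) (.lf 222 0)))) (.xx 3 4)))

/-- a part of a tree -/
def t24 : Tr := (.bt 68 (.st 3 4 (.cn 2 4 (.lf 37 2) (.lf 38 2)) (.cn 2 4 (.lf 39 2) (.cn 1 4 (.lf 80 1) (.cn 0 4 (.lf 138 0) (.lf 98 0)))) (.cn 2 4 (.lf 41 2) (.cn 1 4 (.lf 42 1) (.cn 0 4 (.lf 139 0) (.lf 98 0))))) (.st 3 4 (.cn 2 4 (.lf 44 2) (.cn 1 4 (.lf 82 1) (.cn 0 4 (.bt 85 (.st 4 5 (.cn 3 5 (.lf 37 3) (.lf 38 3)) (.cn 3 5 (.lf 39 3) (.cn 2 5 (.lf 100 2) (.lf 101 2))) (.cn 3 5 (.lf 41 3) (.cn 2 5 (.lf 102 2) (.lf 101 2)))) (.st 4 5 (.cn 3 5 (.lf 44 3) (.cn 2 5 (.lf 103 2) (.lf 104 2))) (.cn 3 5 (.lf 39 3) (.cn 2 5 (.lf 100 2) (.cn 1 5 (.lf 105 1) (.cn 0 5 (.lf 106 0) (.st 5 6 (.vi 36) (.cn 4 6 (.lf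 49 4) (.lf 50 4)) (.cn 4 6 (.lf 51 4) (.lf 107 0))))))) (.xx 4 5))) (.lf 223 0)))) (.cn 2 4 (.lf 39 2) (.cn 1 4 (.lf 80 1) (.cn 0 4 (.lf 138 0) (.lf 109 0)))) (.xx 3 4)))

/-- a part of a tree -/
def t25 : Tr := (.st 0 1 t5 t11 (.bt 34 t22 (.st 1 2 (.cn 0 2 (.lf 35 0) (.bt 51 (.st 2 3 (.cn 1 3 (.lf 37 1) (.lf 38 1)) (.cn 1 3 (.lf 39 1) (.lf 40 0)) (.cn 1 3 (.lf 41 1) (.cn 0 3 (.lf 42 0) (.lf 43 0)))) (.st 2 3 (.cn 1 3 (.lf 44 1) (.cn 0 3 (.lf 45 0) (.lf 46 0))) (.cn 1 3 (.lf 39 1) (.cn 0 3 (.lf 47 0) t23)) (.xx 2 3)))) (.cn 0 2 (.lf 55 0) (.bt 51 (.st 2 3 (.cn 1 3 (.lf 84 1) (.lf 135 0)) (.cn 1 3 (.lf 49 1) (.lf 50 1)) (.cn 1 3 (.lf 51 1) (.cn 0 3 (.lf 52 0) (.lf 95 0)))) (.st 2 3 (.cn 1 3 (.lf 84 1) (.cn 0 3 (.lf 136 0) t24)) (.cn 1 3 (.lf 110 1) (.cn 0 3 (.lf 140 0) (.lf 112 0))) (.xx 2 3)))) (.xx 1 2))))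

/-- a part of a tree -/
def t26 : Tr := (.st 3 4 (.cn 2 4 (.cn 1 4 (.cn 0 4 (.bt 85 (.st 4 5 (.lf 0 4) (.lf 1 4) (.xx 4 5)) (.st 4 5 (.cn 3 5 (.cn 2 5 (.lf 11 2) (.lf 12 2)) (.lf 13 3)) (.cn 3 5 (.lf 14 3) (.cn 2 5 (.lf 15 2) (.cn 1 5 (.lf 16 1) (.cn 0 5 (.lf 17 0) (.st 5 6 (.cn 4 6 (.cn 3 6 (.lf 61 3) (.lf 166 3)) (.lf 70 4)) (.vi 36) (.cn 4 6 (.cn 3 6 (.lf 20 3) (.cn 2 6 (.cn 1 6 (.lf 21 1) (.vi 0)) (.cn 1 6 (.lf 22 0) (.vi 0)))) (.cn 3 6 (.lf 23 3) (.cn 2 6 (.lf 24 2) (.cn 1 6 (.lf 22 0) (.vi 0)))))))))) (.cn 3 5 (.lf 25 3) (.cn 2 5 (.lf 26 2) (.lf 27 2))))) (.lf 28 0)) (.lf 29 1)) (.cn 1 4 (.lf 30 1) (.lf 31 1))) (.cn 2 4 (.cn 1 4 (.lf 32 1) (.lf 33 1)) (.lf 34 1)) (.vi 42))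

/-- a part of a tree -/
def t27 : Tr := (.cn 1 3 (.lf 10 1) (.cn 0 3 (.lf 5 0) (.bt 68 t26 (.st 3 4 (.cn 2 4 (.lf 35 2) (.cn 1 4 (.lf 30 1) (.cn 0 4 (.lf 36 0) (.bt 85 (.st 4 5 (.cn 3 5 (.lf 37 3) (.lf 38 3)) (.cn 3 5 (.lf 39 3) (.lf 40 2)) (.cn 3 5 (.lf 41 3) (.cn 2 5 (.lf 42 2) (.lf 43 2)))) (.st 4 5 (.cn 3 5 (.lf 44 3) (.cn 2 5 (.lf 45 2) (.lf 46 2))) (.cn 3 5 (.lf 39 3) (.cn 2 5 (.lf 47 2) (.cn 1 5 (.lf 48 1) (.cn 0 5 (.lf 17 0) (.st 5 6 (.cn 4 6 (.lf 84 4) (.cn 3 6 (.lf 85 3) (.cn 2 6 (.lf 221 2) (.lf 54 2)))) (.vi 36) (.cn 4 6 (.lf 51 4) (.cn 3 6 (.lf 52 3) (.cn 2 6 (.lf 53 2) (.lf 54 2))))))))) (.xx 4 5)))))) (.cn 2 4 (.lf 55 2) (.lf 34 1)) (.xx 3 4)))))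

/-- a part of a tree -/
def t28 : Tr := (.cn 1 4 (.cn 0 4 (.lf 79 0) (.bt 85 (.st 4 5 (.cn 3 5 (.lf 37 3) (.lf 38 3)) (.cn 3 5 (.lf 39 3) (.cn 2 5 (.lf 80 2) (.lf 43 2))) (.cn 3 5 (.lf 41 3) (.lf 81 2))) (.st 4 5 (.cn 3 5 (.lf 44 3) (.cn 2 5 (.lf 82 2) (.lf 46 2))) (.cn 3 5 (.lf 39 3) (.cn 2 5 (.lf 80 2) (.cn 1 5 (.lf 83 1) (.cn 0 5 (.st 5 6 (.vi 37) (.cn 4 6 (.lf 49 4) (.lf 50 4)) (.cn 4 6 (.lf 51 4) (.cn 3 6 (.lf 52 3) (.cn 2 6 (.lf 87 2) (.lf 54 2))))) (.st 5 6 (.cn 4 6 (.lf 84 4) (.cn 3 6 (.lf 85 3) (.cn 2 6 (.lf 86 2) (.lf 54 2)))) (.vi 36) (.cn 4 6 (.lf 51 4) (.cn 3 6 (.lf 52 3) (.cn 2 6 (.lf 87 2) (.lf 54 2))))))))) (.xx 4 5)))) (.cn 0 4 (.lf 88 0) (.bt 85 (.st 4 5 (.cn 3 5 (.lf 37 3) (.lf 38 3)) (.cn 3 5 (.lf 39 3) (.cn 2 5 (.lf 80 2) (.lf 43 2))) (.cn 3 5 (.lf 41 3) (.lf 81 2))) (.st 4 5 (.cn 3 5 (.lf 44 3) (.cn 2 5 (.lf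 82 2) (.lf 46 2))) (.cn 3 5 (.lf 39 3) (.cn 2 5 (.lf 80 2) (.cn 1 5 (.lf 89 1) (.cn 0 5 (.st 5 6 (.vi 37) (.cn 4 6 (.lf 49 4) (.lf 50 4)) (.cn 4 6 (.lf 51 4) (.cn 3 6 (.lf 52 3) (.cn 2 6 (.lf 87 2) (.lf 54 2))))) (.st 5 6 (.cn 4 6 (.lf 84 4) (.cn 3 6 (.lf 85 3) (.cn 2 6 (.lf 86 2) (.lf 54 2)))) (.vi 36) (.cn 4 6 (.lf 51 4) (.cn 3 6 (.lf 52 3) (.cn 2 6 (.lf 87 2) (.lf 54 2))))))))) (.xx 4 5)))))

/-- a part of a tree -/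
def t29 : Tr := (.bt 68 (.st 3 4 (.cn 2 4 (.cn 1 4 (.lf 61 1) (.cn 0 4 (.bt 85 (.st 4 5 (.lf 0 4) (.lf 1 4) (.xx 4 5)) (.st 4 5 (.cn 3 5 (.cn 2 5 (.lf 62 2) (.lf 63 2)) (.lf 13 3)) (.cn 3 5 (.lf 14 3) (.cn 2 5 (.lf 64 2) (.lf 65 2))) (.cn 3 5 (.lf 25 3) (.cn 2 5 (.lf 64 2) (.cn 1 5 (.cn 0 5 (.lf 66 0) (.lf 67 0)) (.cn 0 5 (.lf 68 0) (.lf 67 0))))))) (.lf 69 0))) (.lf 70 2)) (.cn 2 4 (.lf 18 2) (.lf 19 2)) (.cn 2 4 (.cn 1 4 (.lf 71 1) (.lf 72 1)) (.cn 1 4 (.lf 73 1) (.cn 0 4 (.lf 74 0) (.bt 85 (.st 4 5 (.lf 0 4) (.lf 1 4) (.xx 4 5)) (.st 4 5 (.cn 3 5 (.lf 57 3) (.cn 2 5 (.lf 75 2) (.lf 76 2))) (.cn 3 5 (.lf 60 3) (.lf 77 2)) (.vi 43))))))) (.st 3 4 (.cn 2 4 (.lf 78 2) t28) (.cn 2 4 (.lf 18 2) (.lf 19 2)) (.xx 3 4)))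

/-- a part of a tree -/
def t30 : Tr := (.bt 68 (.st 3 4 (.cn 2 4 (.lf 37 2) (.lf 38 2)) (.cn 2 4 (.lf 39 2) (.cn 1 4 (.lf 80 1) (.cn 0 4 (.lf 97 0) (.lf 98 0)))) (.cn 2 4 (.lf 41 2) (.cn 1 4 (.lf 42 1) (.cn 0 4 (.lf 99 0) (.lf 98 0))))) (.st 3 4 (.cn 2 4 (.lf 44 2) (.cn 1 4 (.lf 82 1) (.cn 0 4 (.bt 85 (.st 4 5 (.cn 3 5 (.lf 37 3) (.lf 38 3)) (.cn 3 5 (.lf 39 3) (.cn 2 5 (.lf 100 2) (.lf 101 2))) (.cn 3 5 (.lf 41 3) (.cn 2 5 (.lf 102 2) (.lf 101 2)))) (.st 4 5 (.cn 3 5 (.lf 44 3) (.cn 2 5 (.lf 103 2) (.lf 104 2))) (.cn 3 5 (.lf 39 3) (.cn 2 5 (.lf 100 2) (.cn 1 5 (.lf 105 1) (.cn 0 5 (.lf 106 0) (.st 5 6 (.cn 4 6 (.lf 84 4) (.lf 107 0)) (.vi 36) (.cn 4 6 (.lf 51 4) (.lf 107 0))))))) (.xx 4 5))) (.lf 108 0)))) (.cn 2 4 (.lf 39 2) (.cn 1 4 (.lf 80 1) (.cn 0 4 (.lf 97 0) (.lf 109 0)))) (.xx 3 4)))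

/-- a part of a tree -/
def t31 : Tr := (.bt 34 (.st 1 2 (.cn 0 2 (.lf 2 0) (.lf 3 0)) (.cn 0 2 (.bt 51 (.st 2 3 (.lf 0 2) (.lf 1 2) (.xx 2 3)) (.st 2 3 (.cn 1 3 (.lf 4 1) (.cn 0 3 (.lf 5 0) (.lf 6 0))) (.cn 1 3 (.cn 0 3 (.lf 7 0) (.lf 8 0)) (.lf 9 1)) t27)) (.lf 56 0)) (.cn 0 2 (.bt 51 (.st 2 3 (.lf 0 2) (.lf 1 2) (.xx 2 3)) (.st 2 3 (.cn 1 3 (.lf 57 1) (.cn 0 3 (.lf 58 0) (.lf 59 0))) (.cn 1 3 (.lf 60 1) (.cn 0 3 t29 (.lf 90 0))) (.vi 41))) (.bt 51 (.st 2 3 (.lf 0 2) (.lf 1 2) (.xx 2 3)) (.st 2 3 (.cn 1 3 (.lf 57 1) (.lf 91 0)) (.cn 1 3 (.lf 60 1) (.cn 0 3 (.lf 92 0) (.lf 93 0))) (.vi 41))))) (.st 1 2 (.cn 0 2 (.lf 2 0) (.lf 3 0)) (.cn 0 2 (.lf 94 0) (.bt 51 (.st 2 3 (.cn 1 3 (.lf 84 1) (.cn 0 3 (.lf 85 0) (.lf 95 0))) (.cn 1 3 (.lf 49 1) (.lf 50 1)) (.cn 1 3 (.lf 51 1) (.lf 96 0))) (.st 2 3 (.cn 1 3 (.lf 84 1) (.cn 0 3 (.lf 85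 0) t30)) (.cn 1 3 (.lf 110 1) (.cn 0 3 (.lf 111 0) (.lf 112 0))) (.xx 2 3)))) (.xx 1 2)))

/-- a part of a tree -/
def t32 : Tr := (.st 3 4 (.cn 2 4 (.cn 1 4 (.lf 113 1) (.lf 114 1)) (.lf 115 1)) (.cn 2 4 (.cn 1 4 (.cn 0 4 (.bt 85 (.st 4 5 (.lf 0 4) (.lf 1 4) (.xx 4 5)) (.st 4 5 (.cn 3 5 (.lf 4 3) (.cn 2 5 (.lf 116 2) (.cn 1 5 (.lf 117 1) (.cn 0 5 (.lf 118 0) (.st 5 6 (.cn 4 6 (.lf 2 4) (.lf 3 4)) (.vi 36) (.cn 4 6 (.cn 3 6 (.lf 121 3) (.cn 2 6 (.cn 1 6 (.vi 1) (.lf 122 1)) (.cn 1 6 (.vi 1) (.lf 123 0)))) (.cn 3 6 (.lf 124 3) (.cn 2 6 (.lf 125 2) (.cn 1 6 (.vi 1) (.lf 123 0)))))))))) (.cn 3 5 (.cn 2 5 (.lf 126 2) (.lf 127 2)) (.lf 9 3)) (.cn 3 5 (.lf 10 3) (.cn 2 5 (.lf 128 2) (.lf 129 2))))) (.lf 130 0)) (.lf 131 1)) (.cn 1 4 (.lf 132 1) (.lf 133 1))) (.vi 42))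

/-- a part of a tree -/
def t33 : Tr := (.st 2 3 (.cn 1 3 (.cn 0 3 (.lf 62 0) (.lf 63 0)) (.lf 13 1)) (.cn 1 3 (.lf 14 1) (.cn 0 3 (.lf 64 0) (.lf 65 0))) (.cn 1 3 (.lf 25 1) (.cn 0 3 (.lf 64 0) (.bt 68 t32 (.st 3 4 (.cn 2 4 (.lf 35 2) (.lf 115 1)) (.cn 2 4 (.lf 55 2) (.cn 1 4 (.lf 132 1) (.cn 0 4 (.lf 134 0) (.bt 85 (.st 4 5 (.cn 3 5 (.lf 84 3) (.lf 135 2)) (.cn 3 5 (.lf 49 3) (.lf 50 3)) (.cn 3 5 (.lf 51 3) (.cn 2 5 (.lf 52 2) (.lf 95 2)))) (.st 4 5 (.cn 3 5 (.lf 84 3) (.cn 2 5 (.lf 136 2) (.cn 1 5 (.lf 137 1) (.cn 0 5 (.lf 118 0) (.st 5 6 (.cn 4 6 (.lf 37 4) (.lf 38 4)) (.vi 36) (.cn 4 6 (.lf 41 4) (.cn 3 6 (.lf 42 3) (.cn 2 6 (.lf 139 2) (.lf 98 2))))))))) (.cn 3 5 (.lf 110 3) (.cn 2 5 (.lf 140 2) (.lf 112 2))) (.xx 4 5)))))) (.xx 3 4))))))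

/-- a part of a tree -/
def t34 : Tr := (.cn 1 4 (.cn 0 4 (.lf 149 0) (.bt 85 (.st 4 5 (.cn 3 5 (.lf 84 3) (.cn 2 5 (.lf 85 2) (.lf 95 2))) (.cn 3 5 (.lf 49 3) (.lf 50 3)) (.cn 3 5 (.lf 51 3) (.lf 96 2))) (.st 4 5 (.cn 3 5 (.lf 84 3) (.cn 2 5 (.lf 85 2) (.cn 1 5 (.lf 150 1) (.cn 0 5 (.st 5 6 (.vi 37) (.cn 4 6 (.lf 39 4) (.cn 3 6 (.lf 80 3) (.cn 2 6 (.lf 97 2) (.lf 98 2)))) (.cn 4 6 (.lf 41 4) (.cn 3 6 (.lf 42 3) (.cn 2 6 (.lf 99 2) (.lf 98 2))))) (.st 5 6 (.cn 4 6 (.lf 37 4) (.lf 38 4)) (.vi 36) (.cn 4 6 (.lf 41 4) (.cn 3 6 (.lf 42 3) (.cn 2 6 (.lf 99 2) (.lf 98 2))))))))) (.cn 3 5 (.lf 110 3) (.cn 2 5 (.lf 111 2) (.lf 112 2))) (.xx 4 5)))) (.cn 0 4 (.lf 151 0) (.bt 85 (.st 4 5 (.cn 3 5 (.lf 84 3) (.cn 2 5 (.lf 85 2) (.lf 95 2))) (.cn 3 5 (.lf 49 3) (.lf 50 3)) (.cn 3 5 (.lf 51 3) (.lf 96 2))) (.st 4 5 (.cn 3 5 (.lf 84 3) (.cn 2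 5 (.lf 85 2) (.cn 1 5 (.lf 152 1) (.cn 0 5 (.st 5 6 (.vi 37) (.cn 4 6 (.lf 39 4) (.cn 3 6 (.lf 80 3) (.cn 2 6 (.lf 97 2) (.lf 98 2)))) (.cn 4 6 (.lf 41 4) (.cn 3 6 (.lf 42 3) (.cn 2 6 (.lf 99 2) (.lf 98 2))))) (.st 5 6 (.cn 4 6 (.lf 37 4) (.lf 38 4)) (.vi 36) (.cn 4 6 (.lf 41 4) (.cn 3 6 (.lf 42 3) (.cn 2 6 (.lf 99 2) (.lf 98 2))))))))) (.cn 3 5 (.lf 110 3) (.cn 2 5 (.lf 111 2) (.lf 112 2))) (.xx 4 5)))))

/-- a part of a tree -/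
def t35 : Tr := (.bt 68 (.st 3 4 (.cn 2 4 (.lf 2 2) (.lf 3 2)) (.cn 2 4 (.cn 1 4 (.lf 119 1) (.cn 0 4 (.bt 85 (.st 4 5 (.lf 0 4) (.lf 1 4) (.xx 4 5)) (.st 4 5 (.cn 3 5 (.lf 4 3) (.cn 2 5 (.lf 5 2) (.lf 6 2))) (.cn 3 5 (.cn 2 5 (.lf 7 2) (.lf 8 2)) (.lf 9 3)) (.cn 3 5 (.lf 10 3) (.cn 2 5 (.lf 5 2) (.cn 1 5 (.cn 0 5 (.lf 141 0) (.lf 142 0)) (.cn 0 5 (.lf 143 0) (.lf 142 0))))))) (.lf 144 0))) (.lf 56 2)) (.cn 2 4 (.cn 1 4 (.lf 145 1) (.lf 146 1)) (.cn 1 4 (.lf 147 1) (.cn 0 4 (.lf 148 0) (.bt 85 (.st 4 5 (.lf 0 4) (.lf 1 4) (.xx 4 5)) (.st 4 5 (.cn 3 5 (.lf 57 3) (.lf 91 2)) (.cn 3 5 (.lf 60 3) (.cn 2 5 (.lf 92 2) (.lf 93 2))) (.vi 43))))))) (.st 3 4 (.cn 2 4 (.lf 2 2) (.lf 3 2)) (.cn 2 4 (.lf 94 2) t34) (.xx 3 4)))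

/-- a part of a tree -/
def t36 : Tr := (.bt 68 (.st 3 4 (.cn 2 4 (.lf 84 2) (.cn 1 4 (.lf 85 1) (.cn 0 4 (.lf 86 0) (.lf 54 0)))) (.cn 2 4 (.lf 49 2) (.lf 50 2)) (.cn 2 4 (.lf 51 2) (.cn 1 4 (.lf 52 1) (.cn 0 4 (.lf 87 0) (.lf 54 0))))) (.st 3 4 (.cn 2 4 (.lf 84 2) (.cn 1 4 (.lf 85 1) (.cn 0 4 (.lf 86 0) (.lf 156 0)))) (.cn 2 4 (.lf 110 2) (.cn 1 4 (.lf 111 1) (.cn 0 4 (.bt 85 (.st 4 5 (.cn 3 5 (.lf 84 3) (.cn 2 5 (.lf 157 2) (.lf 158 2))) (.cn 3 5 (.lf 49 3) (.lf 50 3)) (.cn 3 5 (.lf 51 3) (.cn 2 5 (.lf 159 2) (.lf 158 2)))) (.st 4 5 (.cn 3 5 (.lf 84 3) (.cn 2 5 (.lf 157 2) (.cn 1 5 (.lf 160 1) (.cn 0 5 (.lf 161 0) (.st 5 6 (.cn 4 6 (.lf 37 4) (.lf 38 4)) (.vi 36) (.cn 4 6 (.lf 41 4) (.lf 162 0))))))) (.cn 3 5 (.lf 110 3) (.cn 2 5 (.lf 163 2) (.lf 164 2))) (.xx 4 5))) (.lf 165 0)))) (.xx 3 4)))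

/-- a part of a tree -/
def t37 : Tr := (.bt 34 (.st 1 2 (.cn 0 2 (.bt 51 (.st 2 3 (.lf 0 2) (.lf 1 2) (.xx 2 3)) t33) (.lf 70 0)) (.cn 0 2 (.lf 18 0) (.lf 19 0)) (.cn 0 2 (.bt 51 (.st 2 3 (.lf 0 2) (.lf 1 2) (.xx 2 3)) (.st 2 3 (.cn 1 3 (.lf 57 1) (.cn 0 3 t35 (.lf 153 0))) (.cn 1 3 (.lf 60 1) (.cn 0 3 (.lf 154 0) (.lf 155 0))) (.vi 41))) (.bt 51 (.st 2 3 (.lf 0 2) (.lf 1 2) (.xx 2 3)) (.st 2 3 (.cn 1 3 (.lf 57 1) (.cn 0 3 (.lf 75 0) (.lf 76 0))) (.cn 1 3 (.lf 60 1) (.lf 77 0)) (.vi 41))))) (.st 1 2 (.cn 0 2 (.lf 78 0) (.bt 51 (.st 2 3 (.cn 1 3 (.lf 37 1) (.lf 38 1)) (.cn 1 3 (.lf 39 1) (.cn 0 3 (.lf 80 0) (.lf 43 0))) (.cn 1 3 (.lf 41 1) (.lf 81 0))) (.st 2 3 (.cn 1 3 (.lf 44 1) (.cn 0 3 (.lf 82 0) (.lf 46 0))) (.cn 1 3 (.lf 39 1) (.cn 0 3 (.lf 80 0) t36)) (.xx 2 3)))) (.cn 0 2 (.lf 18 0) (.lf 19 0)) (.xx 1 2)))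

/-- a part of a tree -/
def t38 : Tr := (.cn 2 4 (.cn 1 4 (.lf 20 1) (.cn 0 4 (.bt 85 (.st 4 5 (.lf 0 4) (.lf 1 4) (.xx 4 5)) (.st 4 5 (.cn 3 5 (.lf 57 3) (.cn 2 5 (.cn 1 5 (.lf 167 1) (.cn 0 5 (.lf 168 0) (.lf 169 0))) (.lf 153 2))) (.cn 3 5 (.lf 60 3) (.cn 2 5 (.lf 154 2) (.lf 155 2))) (.vi 43))) (.bt 85 (.st 4 5 (.lf 0 4) (.lf 1 4) (.xx 4 5)) (.st 4 5 (.cn 3 5 (.lf 57 3) (.cn 2 5 (.cn 1 5 (.lf 167 1) (.cn 0 5 (.lf 170 0) (.st 5 6 (.cn 4 6 (.lf 2 4) (.lf 3 4)) (.vi 36) (.cn 4 6 (.lf 172 0) (.cn 3 6 (.lf 147 3) (.cn 2 6 (.lf 148 2) (.cn 1 6 (.lf 173 0) (.lf 174 0)))))))) (.lf 153 2))) (.cn 3 5 (.lf 60 3) (.cn 2 5 (.lf 154 2) (.lf 155 2))) (.vi 43))))) (.cn 1 4 (.lf 23 1) (.cn 0 4 (.lf 24 0) (.bt 85 (.st 4 5 (.lf 0 4) (.lf 1 4) (.xx 4 5)) (.st 4 5 (.cn 3 5 (.lf 57 3) (.cn 2 5 (.lf 75 2) (.lf 76 2))) (.cn 3 5 (.lf 60 3) (.lf 77 2))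 (.vi 43))))))

/-- a part of a tree -/
def t39 : Tr := (.cn 1 4 (.cn 0 4 (.lf 175 0) (.bt 85 (.st 4 5 (.cn 3 5 (.lf 37 3) (.lf 38 3)) (.cn 3 5 (.lf 39 3) (.cn 2 5 (.lf 80 2) (.lf 43 2))) (.cn 3 5 (.lf 41 3) (.lf 81 2))) (.st 4 5 (.cn 3 5 (.lf 44 3) (.cn 2 5 (.lf 82 2) (.lf 46 2))) (.cn 3 5 (.lf 39 3) (.cn 2 5 (.lf 80 2) (.cn 1 5 (.lf 83 1) (.cn 0 5 (.lf 176 0) (.st 5 6 (.cn 4 6 (.lf 84 4) (.cn 3 6 (.lf 85 3) (.cn 2 6 (.lf 86 2) (.lf 54 2)))) (.vi 36) (.cn 4 6 (.lf 51 4) (.cn 3 6 (.lf 52 3) (.cn 2 6 (.lf 87 2) (.lf 54 2))))))))) (.xx 4 5)))) (.cn 0 4 (.lf 24 0) (.bt 85 (.st 4 5 (.cn 3 5 (.lf 37 3) (.lf 38 3)) (.cn 3 5 (.lf 39 3) (.cn 2 5 (.lf 80 2) (.lf 43 2))) (.cn 3 5 (.lf 41 3) (.lf 81 2))) (.st 4 5 (.cn 3 5 (.lf 44 3) (.cn 2 5 (.lf 82 2) (.lf 46 2))) (.cn 3 5 (.lf 39 3) (.cn 2 5 (.lf 80 2) (.cn 1 5 (.lf 177 1) (.cn 0 5 (.lf 176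 0) (.st 5 6 (.cn 4 6 (.lf 84 4) (.cn 3 6 (.lf 85 3) (.cn 2 6 (.lf 86 2) (.lf 54 2)))) (.vi 36) (.cn 4 6 (.lf 51 4) (.cn 3 6 (.lf 52 3) (.cn 2 6 (.lf 87 2) (.lf 54 2))))))))) (.xx 4 5)))))

/-- a part of a tree -/
def t40 : Tr := (.st 3 4 (.cn 2 4 (.cn 1 4 (.lf 61 1) (.lf 166 1)) (.lf 70 2)) (.cn 2 4 (.lf 18 2) (.lf 19 2)) (.cn 2 4 (.cn 1 4 (.lf 20 1) (.cn 0 4 (.lf 181 0) (.bt 85 (.st 4 5 (.lf 0 4) (.lf 1 4) (.xx 4 5)) (.st 4 5 (.cn 3 5 (.lf 57 3) (.cn 2 5 (.cn 1 5 (.lf 167 1) (.cn 0 5 (.st 5 6 (.vi 37) (.cn 4 6 (.lf 224 0) (.lf 56 4)) (.cn 4 6 (.lf 182 0) (.cn 3 6 (.lf 147 3) (.cn 2 6 (.lf 148 2) (.lf 183 0))))) (.st 5 6 (.cn 4 6 (.lf 2 4) (.lf 3 4)) (.vi 36) (.cn 4 6 (.lf 172 0) (.cn 3 6 (.lf 147 3) (.cn 2 6 (.lf 148 2) (.cn 1 6 (.lf 184 0) (.lf 185 0)))))))) (.lf 153 2))) (.cn 3 5 (.lf 60 3) (.cn 2 5 (.lf 154 2) (.lf 155 2))) (.vi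 43))))) (.cn 1 4 (.lf 23 1) (.cn 0 4 (.lf 186 0) (.lf 54 0)))))

/-- a part of a tree -/
def t41 : Tr := (.cn 1 3 (.lf 14 1) (.cn 0 3 (.lf 180 0) (.bt 68 t40 (.st 3 4 (.cn 2 4 (.lf 78 2) (.cn 1 4 (.cn 0 4 (.bt 85 (.st 4 5 (.cn 3 5 (.lf 37 3) (.lf 38 3)) (.cn 3 5 (.lf 39 3) (.cn 2 5 (.lf 80 2) (.lf 43 2))) (.cn 3 5 (.lf 41 3) (.lf 81 2))) (.st 4 5 (.cn 3 5 (.lf 44 3) (.cn 2 5 (.lf 82 2) (.lf 46 2))) (.cn 3 5 (.lf 39 3) (.cn 2 5 (.lf 80 2) (.cn 1 5 (.lf 83 1) (.cn 0 5 (.lf 106 0) (.st 5 6 (.cn 4 6 (.lf 84 4) (.cn 3 6 (.lf 85 3) (.cn 2 6 (.lf 86 2) (.lf 54 2)))) (.vi 36) (.cn 4 6 (.lf 51 4) (.cn 3 6 (.lf 52 3) (.cn 2 6 (.lf 87 2) (.lf 54 2))))))))) (.xx 4 5))) (.lf 187 0)) (.lf 188 0))) (.cn 2 4 (.lf 18 2) (.lf 19 2)) (.xx 3 4)))))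

/-- a part of a tree -/
def t42 : Tr := (.bt 68 (.st 3 4 (.cn 2 4 (.cn 1 4 (.lf 113 1) (.lf 114 1)) (.lf 115 1)) (.cn 2 4 (.cn 1 4 (.cn 0 4 (.lf 190 0) (.bt 85 (.st 4 5 (.lf 0 4) (.lf 1 4) (.xx 4 5)) (.st 4 5 (.cn 3 5 (.lf 4 3) (.cn 2 5 (.lf 116 2) (.cn 1 5 (.lf 117 1) (.cn 0 5 (.st 5 6 (.vi 37) (.cn 4 6 (.lf 224 0) (.lf 56 4)) (.cn 4 6 (.lf 182 0) (.cn 3 6 (.lf 124 3) (.cn 2 6 (.lf 125 2) (.lf 191 0))))) (.st 5 6 (.cn 4 6 (.lf 2 4) (.lf 3 4)) (.vi 36) (.cn 4 6 (.lf 172 0) (.cn 3 6 (.lf 124 3) (.cn 2 6 (.lf 125 2) (.lf 192 0))))))))) (.cn 3 5 (.cn 2 5 (.lf 126 2) (.lf 127 2)) (.lf 9 3)) (.cn 3 5 (.lf 10 3) (.cn 2 5 (.lf 128 2) (.lf 129 2)))))) (.lf 131 1)) (.lf 193 0)) (.vi 42)) (.st 3 4 (.cn 2 4 (.lf 35 2) (.lf 115 1)) (.cn 2 4 (.lf 55 2) (.lf 193 0)) (.xx 3 4)))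

/-- a part of a tree -/
def t43 : Tr := (.cn 2 4 (.cn 1 4 (.lf 121 1) (.cn 0 4 (.bt 85 (.st 4 5 (.lf 0 4) (.lf 1 4) (.xx 4 5)) (.st 4 5 (.cn 3 5 (.lf 57 3) (.cn 2 5 (.lf 58 2) (.lf 59 2))) (.cn 3 5 (.lf 60 3) (.cn 2 5 (.cn 1 5 (.lf 194 1) (.cn 0 5 (.lf 195 0) (.lf 196 0))) (.lf 90 2))) (.vi 43))) (.bt 85 (.st 4 5 (.lf 0 4) (.lf 1 4) (.xx 4 5)) (.st 4 5 (.cn 3 5 (.lf 57 3) (.cn 2 5 (.lf 58 2) (.lf 59 2))) (.cn 3 5 (.lf 60 3) (.cn 2 5 (.cn 1 5 (.lf 194 1) (.cn 0 5 (.lf 197 0) (.st 5 6 (.cn 4 6 (.lf 225 0) (.lf 70 4)) (.vi 36) (.cn 4 6 (.lf 198 0) (.cn 3 6 (.lf 73 3) (.cn 2 6 (.lf 74 2) (.cn 1 6 (.lf 199 0) (.lf 200 0)))))))) (.lf 90 2))) (.vi 43))))) (.cn 1 4 (.lf 124 1) (.cn 0 4 (.lf 125 0) (.bt 85 (.st 4 5 (.lf 0 4) (.lf 1 4) (.xx 4 5)) (.st 4 5 (.cn 3 5 (.lf 57 3) (.lf 91 2)) (.cn 3 5 (.lf 60 3) (.cn 2 5 (.lf 92 2) (.lf 93 2)))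 (.vi 43))))))

/-- a part of a tree -/
def t44 : Tr := (.cn 1 4 (.cn 0 4 (.lf 201 0) (.bt 85 (.st 4 5 (.cn 3 5 (.lf 84 3) (.cn 2 5 (.lf 85 2) (.lf 95 2))) (.cn 3 5 (.lf 49 3) (.lf 50 3)) (.cn 3 5 (.lf 51 3) (.lf 96 2))) (.st 4 5 (.cn 3 5 (.lf 84 3) (.cn 2 5 (.lf 85 2) (.cn 1 5 (.lf 150 1) (.cn 0 5 (.lf 202 0) (.st 5 6 (.cn 4 6 (.lf 37 4) (.lf 38 4)) (.vi 36) (.cn 4 6 (.lf 41 4) (.cn 3 6 (.lf 42 3) (.cn 2 6 (.lf 99 2) (.lf 98 2))))))))) (.cn 3 5 (.lf 110 3) (.cn 2 5 (.lf 111 2) (.lf 112 2))) (.xx 4 5)))) (.cn 0 4 (.lf 125 0) (.bt 85 (.st 4 5 (.cn 3 5 (.lf 84 3) (.cn 2 5 (.lf 85 2) (.lf 95 2))) (.cn 3 5 (.lf 49 3) (.lf 50 3)) (.cn 3 5 (.lf 51 3) (.lf 96 2))) (.st 4 5 (.cn 3 5 (.lf 84 3) (.cn 2 5 (.lf 85 2) (.cn 1 5 (.lf 203 1) (.cn 0 5 (.lf 202 0) (.st 5 6 (.cn 4 6 (.lf 37 4) (.lf 38 4)) (.vi 36) (.cn 4 6 (.lf 41 4) (.cn 3 6 (.lf 42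 3) (.cn 2 6 (.lf 99 2) (.lf 98 2))))))))) (.cn 3 5 (.lf 110 3) (.cn 2 5 (.lf 111 2) (.lf 112 2))) (.xx 4 5)))))

/-- a part of a tree -/
def t45 : Tr := (.st 3 4 (.cn 2 4 (.lf 2 2) (.lf 3 2)) (.cn 2 4 (.cn 1 4 (.lf 119 1) (.lf 120 1)) (.lf 56 2)) (.cn 2 4 (.cn 1 4 (.lf 121 1) (.cn 0 4 (.lf 205 0) (.bt 85 (.st 4 5 (.lf 0 4) (.lf 1 4) (.xx 4 5)) (.st 4 5 (.cn 3 5 (.lf 57 3) (.cn 2 5 (.lf 58 2) (.lf 59 2))) (.cn 3 5 (.lf 60 3) (.cn 2 5 (.cn 1 5 (.lf 194 1) (.cn 0 5 (.st 5 6 (.vi 37) (.cn 4 6 (.lf 18 4) (.lf 19 4)) (.cn 4 6 (.lf 207 0) (.cn 3 6 (.lf 73 3) (.cn 2 6 (.lf 74 2) (.lf 208 0))))) (.st 5 6 (.cn 4 6 (.lf 225 0) (.lf 70 4)) (.vi 36) (.cn 4 6 (.lf 198 0) (.cn 3 6 (.lf 73 3) (.cn 2 6 (.lf 74 2) (.cn 1 6 (.lf 209 0) (.lf 210 0)))))))) (.lf 90 2))) (.vi 43))))) (.cn 1 4 (.lf 124 1) (.cn 0 4 (.lf 211 0) (.lf 98 0)))))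

/-- a part of a tree -/
def t46 : Tr := (.bt 68 (.st 3 4 (.cn 2 4 (.cn 1 4 (.cn 0 4 (.lf 217 0) (.bt 85 (.st 4 5 (.lf 0 4) (.lf 1 4) (.xx 4 5)) (.st 4 5 (.cn 3 5 (.cn 2 5 (.lf 11 2) (.lf 12 2)) (.lf 13 3)) (.cn 3 5 (.lf 14 3) (.cn 2 5 (.lf 15 2) (.cn 1 5 (.lf 16 1) (.cn 0 5 (.st 5 6 (.vi 37) (.cn 4 6 (.lf 18 4) (.lf 19 4)) (.cn 4 6 (.lf 207 0) (.cn 3 6 (.lf 23 3) (.cn 2 6 (.lf 24 2) (.lf 218 0))))) (.st 5 6 (.cn 4 6 (.lf 225 0) (.lf 70 4)) (.vi 36) (.cn 4 6 (.lf 198 0) (.cn 3 6 (.lf 23 3) (.cn 2 6 (.lf 24 2) (.lf 219 0))))))))) (.cn 3 5 (.lf 25 3) (.cn 2 5 (.lf 26 2) (.lf 27 2)))))) (.lf 29 1)) (.lf 220 0)) (.cn 2 4 (.cn 1 4 (.lf 32 1) (.lf 33 1)) (.lf 34 1)) (.vi 42)) (.st 3 4 (.cn 2 4 (.lf 35 2) (.lf 220 0)) (.cn 2 4 (.lf 55 2) (.lf 34 1)) (.xx 3 4)))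

/-- a part of a tree -/
def t47 : Tr := (.st 2 3 (.cn 1 3 (.lf 4 1) (.cn 0 3 (.lf 204 0) (.bt 68 t45 (.st 3 4 (.cn 2 4 (.lf 2 2) (.lf 3 2)) (.cn 2 4 (.lf 94 2) (.cn 1 4 (.cn 0 4 (.bt 85 (.st 4 5 (.cn 3 5 (.lf 84 3) (.cn 2 5 (.lf 85 2) (.lf 95 2))) (.cn 3 5 (.lf 49 3) (.lf 50 3)) (.cn 3 5 (.lf 51 3) (.lf 96 2))) (.st 4 5 (.cn 3 5 (.lf 84 3) (.cn 2 5 (.lf 85 2) (.cn 1 5 (.lf 150 1) (.cn 0 5 (.lf 161 0) (.st 5 6 (.cn 4 6 (.lf 37 4) (.lf 38 4)) (.vi 36) (.cn 4 6 (.lf 41 4) (.cn 3 6 (.lf 42 3) (.cn 2 6 (.lf 99 2) (.lf 98 2))))))))) (.cn 3 5 (.lf 110 3) (.cn 2 5 (.lf 111 2) (.lf 112 2))) (.xx 4 5))) (.lf 212 0)) (.lf 213 0))) (.xx 3 4))))) (.cn 1 3 (.cn 0 3 (.lf 214 0) (.lf 215 0)) (.lf 9 1)) (.cn 1 3 (.lf 10 1) (.cn 0 3 (.lf 216 0) t46)))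

/-- a part of a tree -/
def t48 : Tr := (.st 1 2 (.cn 0 2 (.bt 51 (.st 2 3 (.lf 0 2) (.lf 1 2) (.xx 2 3)) (.st 2 3 (.cn 1 3 (.cn 0 3 (.lf 11 0) (.lf 12 0)) (.lf 13 1)) (.cn 1 3 (.lf 14 1) (.cn 0 3 (.lf 15 0) (.bt 68 (.st 3 4 (.cn 2 4 (.cn 1 4 (.lf 61 1) (.lf 166 1)) (.lf 70 2)) (.cn 2 4 (.lf 18 2) (.lf 19 2)) t38) (.st 3 4 (.cn 2 4 (.lf 78 2) t39) (.cn 2 4 (.lf 18 2) (.lf 19 2)) (.xx 3 4))))) (.cn 1 3 (.lf 25 1) (.cn 0 3 (.lf 26 0) (.lf 27 0))))) (.bt 51 (.st 2 3 (.lf 0 2) (.lf 1 2) (.xx 2 3)) (.st 2 3 (.cn 1 3 (.cn 0 3 (.lf 178 0) (.lf 179 0)) (.lf 13 1)) t41 (.cn 1 3 (.lf 25 1) (.cn 0 3 (.lf 189 0) t42))))) (.cn 0 2 (.bt 51 (.st 2 3 (.lf 0 2) (.lf 1 2) (.xx 2 3)) (.st 2 3 (.cn 1 3 (.lf 4 1) (.cn 0 3 (.lf 116 0) (.bt 68 (.st 3 4 (.cn 2 4 (.lf 2 2) (.lf 3 2)) (.cn 2 4 (.cn 1 4 (.lf 119 1) (.lf 120 1)) (.lf 56 2)) t43) (.st 3 4 (.cn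 2 4 (.lf 2 2) (.lf 3 2)) (.cn 2 4 (.lf 94 2) t44) (.xx 3 4))))) (.cn 1 3 (.cn 0 3 (.lf 126 0) (.lf 127 0)) (.lf 9 1)) (.cn 1 3 (.lf 10 1) (.cn 0 3 (.lf 128 0) (.lf 129 0))))) (.bt 51 (.st 2 3 (.lf 0 2) (.lf 1 2) (.xx 2 3)) t47)) (.vi 40))

/-- a part of a tree -/
def t49 : Tr := (.bt 68 (.st 3 4 (.cn 2 4 (.lf 84 2) (.cn 1 4 (.lf 85 1) (.cn 0 4 (.lf 221 0) (.lf 54 0)))) (.cn 2 4 (.lf 49 2) (.lf 50 2)) (.cn 2 4 (.lf 51 2) (.cn 1 4 (.lf 52 1) (.cn 0 4 (.lf 53 0) (.lf 54 0))))) (.st 3 4 (.cn 2 4 (.lf 84 2) (.cn 1 4 (.lf 85 1) (.cn 0 4 (.lf 221 0) (.lf 156 0)))) (.cn 2 4 (.lf 110 2) (.cn 1 4 (.lf 111 1) (.cn 0 4 (.bt 85 (.st 4 5 (.cn 3 5 (.lf 84 3) (.cn 2 5 (.lf 157 2) (.lf 158 2))) (.cn 3 5 (.lf 49 3) (.lf 50 3)) (.cn 3 5 (.lf 51 3) (.cn 2 5 (.lf 159 2) (.lf 158 2)))) (.st 4 5 (.cn 3 5 (.lf 84 3) (.cn 2 5 (.lf 157 2) (.cn 1 5 (.lf 160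 1) (.cn 0 5 (.lf 161 0) (.st 5 6 (.cn 4 6 (.lf 37 4) (.lf 38 4)) (.vi 36) (.cn 4 6 (.lf 41 4) (.lf 162 0))))))) (.cn 3 5 (.lf 110 3) (.cn 2 5 (.lf 163 2) (.lf 164 2))) (.xx 4 5))) (.lf 222 0)))) (.xx 3 4)))

/-- a part of a tree -/
def t50 : Tr := (.bt 68 (.st 3 4 (.cn 2 4 (.lf 37 2) (.lf 38 2)) (.cn 2 4 (.lf 39 2) (.cn 1 4 (.lf 80 1) (.cn 0 4 (.lf 138 0) (.lf 98 0)))) (.cn 2 4 (.lf 41 2) (.cn 1 4 (.lf 42 1) (.cn 0 4 (.lf 139 0) (.lf 98 0))))) (.st 3 4 (.cn 2 4 (.lf 44 2) (.cn 1 4 (.lf 82 1) (.cn 0 4 (.bt 85 (.st 4 5 (.cn 3 5 (.lf 37 3) (.lf 38 3)) (.cn 3 5 (.lf 39 3) (.cn 2 5 (.lf 100 2) (.lf 101 2))) (.cn 3 5 (.lf 41 3) (.cn 2 5 (.lf 102 2) (.lf 101 2)))) (.st 4 5 (.cn 3 5 (.lf 44 3) (.cn 2 5 (.lf 103 2) (.lf 104 2))) (.cn 3 5 (.lf 39 3) (.cn 2 5 (.lf 100 2) (.cn 1 5 (.lf 105 1) (.cn 0 5 (.lf 106 0) (.st 5 6 (.cn 4 6 (.lf 84 4)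 (.lf 107 0)) (.vi 36) (.cn 4 6 (.lf 51 4) (.lf 107 0))))))) (.xx 4 5))) (.lf 223 0)))) (.cn 2 4 (.lf 39 2) (.cn 1 4 (.lf 80 1) (.cn 0 4 (.lf 138 0) (.lf 109 0)))) (.xx 3 4)))

/-- a part of a tree -/
def t51 : Tr := (.st 0 1 t31 t37 (.bt 34 t48 (.st 1 2 (.cn 0 2 (.lf 35 0) (.bt 51 (.st 2 3 (.cn 1 3 (.lf 37 1) (.lf 38 1)) (.cn 1 3 (.lf 39 1) (.lf 40 0)) (.cn 1 3 (.lf 41 1) (.cn 0 3 (.lf 42 0) (.lf 43 0)))) (.st 2 3 (.cn 1 3 (.lf 44 1) (.cn 0 3 (.lf 45 0) (.lf 46 0))) (.cn 1 3 (.lf 39 1) (.cn 0 3 (.lf 47 0) t49)) (.xx 2 3)))) (.cn 0 2 (.lf 55 0) (.bt 51 (.st 2 3 (.cn 1 3 (.lf 84 1) (.lf 135 0)) (.cn 1 3 (.lf 49 1) (.lf 50 1)) (.cn 1 3 (.lf 51 1) (.cn 0 3 (.lf 52 0) (.lf 95 0)))) (.st 2 3 (.cn 1 3 (.lf 84 1) (.cn 0 3 (.lf 136 0) t50)) (.cn 1 3 (.lf 110 1) (.cn 0 3 (.lf 140 0) (.lf 112 0))) (.xx 2 3)))) (.xx 1 2))))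

/-- a part of a tree -/
def t52 : Tr := (.st 5 6 (.cn 4 6 (.lf 78 4) (.cn 3 6 (.cn 2 6 (.lf 175 2) (.cn 1 6 (.cn 0 6 (.lf 22 0) (.st 6 7 (.vi 44) (.cn 5 7 (.lf 39 5) (.cn 4 7 (.lf 80 4) (.lf 43 4))) (.cn 5 7 (.lf 41 5) (.lf 81 4)))) (.cn 0 6 (.lf 228 0) (.st 6 7 (.vi 44) (.cn 5 7 (.lf 39 5) (.cn 4 7 (.lf 80 4) (.lf 43 4))) (.cn 5 7 (.lf 41 5) (.lf 81 4)))))) (.cn 2 6 (.lf 24 2) (.cn 1 6 (.cn 0 6 (.lf 22 0) (.st 6 7 (.vi 44) (.cn 5 7 (.lf 39 5) (.cn 4 7 (.lf 80 4) (.lf 43 4))) (.cn 5 7 (.lf 41 5) (.lf 81 4)))) (.cn 0 6 (.lf 228 0) (.st 6 7 (.vi 44) (.cn 5 7 (.lf 39 5) (.cn 4 7 (.lf 80 4) (.lf 43 4))) (.cn 5 7 (.lf 41 5) (.lf 81 4)))))))) (.cn 4 6 (.lf 18 4) (.lf 19 4)) (.xx 5 6))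

/-- a part of a tree -/
def t53 : Tr := (.st 4 5 (.cn 3 5 (.cn 2 5 (.lf 11 2) (.lf 12 2)) (.lf 13 3)) (.cn 3 5 (.lf 14 3) (.cn 2 5 (.lf 15 2) (.cn 1 5 (.lf 16 1) (.cn 0 5 (.lf 17 0) (.bt 102 (.st 5 6 (.cn 4 6 (.cn 3 6 (.lf 61 3) (.lf 166 3)) (.lf 70 4)) (.cn 4 6 (.lf 18 4) (.lf 19 4)) (.cn 4 6 (.cn 3 6 (.lf 20 3) (.cn 2 6 (.cn 1 6 (.lf 21 1) (.lf 226 1)) (.cn 1 6 (.lf 227 1) (.cn 0 6 (.lf 228 0) (.st 6 7 (.vi 44) (.lf 1 6) (.xx 6 7)))))) (.cn 3 6 (.lf 23 3) (.cn 2 6 (.lf 24 2) (.cn 1 6 (.cn 0 6 (.lf 22 0) (.st 6 7 (.vi 44) (.lf 1 6) (.xx 6 7))) (.cn 0 6 (.lf 228 0) (.st 6 7 (.vi 44) (.lf 1 6) (.xx 6 7)))))))) t52))))) (.cn 3 5 (.lf 25 3) (.cn 2 5 (.lf 26 2) (.lf 27 2))))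

/-- a part of a tree -/
def t54 : Tr := (.bt 102 (.st 5 6 (.cn 4 6 (.lf 84 4) (.cn 3 6 (.lf 85 3) (.cn 2 6 (.lf 221 2) (.lf 54 2)))) (.cn 4 6 (.lf 49 4) (.lf 50 4)) (.cn 4 6 (.lf 51 4) (.cn 3 6 (.lf 52 3) (.cn 2 6 (.lf 53 2) (.lf 54 2))))) (.st 5 6 (.cn 4 6 (.lf 84 4) (.cn 3 6 (.lf 85 3) (.cn 2 6 (.lf 221 2) (.lf 156 2)))) (.cn 4 6 (.lf 110 4) (.cn 3 6 (.lf 111 3) (.cn 2 6 (.cn 1 6 (.cn 0 6 (.st 6 7 (.cn 5 7 (.lf 84 5) (.cn 4 7 (.lf 157 4) (.lf 158 4))) (.vi 45) (.cn 5 7 (.lf 51 5) (.cn 4 7 (.lf 159 4) (.lf 158 4)))) (.lf 229 0)) (.cn 0 6 (.st 6 7 (.cn 5 7 (.lf 84 5) (.cn 4 7 (.lf 157 4) (.lf 158 4))) (.vi 45) (.cn 5 7 (.lf 51 5) (.cn 4 7 (.lf 159 4) (.lf 158 4)))) (.lf 230 0))) (.lf 222 2)))) (.xx 5 6)))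

/-- a part of a tree -/
def t55 : Tr := (.bt 68 (.st 3 4 (.cn 2 4 (.cn 1 4 (.cn 0 4 (.bt 85 (.st 4 5 (.lf 0 4) (.lf 1 4) (.xx 4 5)) t53) (.lf 28 0)) (.lf 29 1)) (.cn 1 4 (.lf 30 1) (.lf 31 1))) (.cn 2 4 (.cn 1 4 (.lf 32 1) (.lf 33 1)) (.lf 34 1)) (.vi 50)) (.st 3 4 (.cn 2 4 (.lf 35 2) (.cn 1 4 (.lf 30 1) (.cn 0 4 (.lf 36 0) (.bt 85 (.st 4 5 (.cn 3 5 (.lf 37 3) (.lf 38 3)) (.cn 3 5 (.lf 39 3) (.lf 40 2)) (.cn 3 5 (.lf 41 3) (.cn 2 5 (.lf 42 2) (.lf 43 2)))) (.st 4 5 (.cn 3 5 (.lf 44 3) (.cn 2 5 (.lf 45 2) (.lf 46 2))) (.cn 3 5 (.lf 39 3) (.cn 2 5 (.lf 47 2) (.cn 1 5 (.lf 48 1) (.cn 0 5 (.lf 17 0) t54)))) (.xx 4 5)))))) (.cn 2 4 (.lf 55 2) (.lf 34 1)) (.xx 3 4)))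

/-- a part of a tree -/
def t56 : Tr := (.cn 0 5 (.bt 102 (.st 5 6 (.cn 4 6 (.lf 84 4) (.cn 3 6 (.lf 85 3) (.cn 2 6 (.lf 86 2) (.lf 54 2)))) (.cn 4 6 (.lf 49 4) (.lf 50 4)) (.cn 4 6 (.lf 51 4) (.cn 3 6 (.lf 52 3) (.cn 2 6 (.lf 87 2) (.lf 54 2))))) (.st 5 6 (.cn 4 6 (.lf 84 4) (.cn 3 6 (.lf 85 3) (.cn 2 6 (.lf 86 2) (.lf 156 2)))) (.cn 4 6 (.lf 110 4) (.cn 3 6 (.lf 111 3) (.cn 2 6 (.cn 1 6 (.lf 231 1) (.cn 0 6 (.lf 232 0) (.lf 233 0))) (.lf 165 2)))) (.xx 5 6))) (.bt 102 (.st 5 6 (.cn 4 6 (.lf 84 4) (.cn 3 6 (.lf 85 3) (.cn 2 6 (.lf 86 2) (.lf 54 2)))) (.cn 4 6 (.lf 49 4) (.lf 50 4)) (.cn 4 6 (.lf 51 4) (.cn 3 6 (.lf 52 3) (.cn 2 6 (.lf 87 2) (.lf 54 2))))) (.st 5 6 (.cn 4 6 (.lf 84 4) (.cn 3 6 (.lf 85 3) (.cn 2 6 (.lf 86 2) (.lf 156 2)))) (.cn 4 6 (.lf 110 4) (.cn 3 6 (.lf 111 3) (.cn 2 6 (.cn 1 6 (.lf 231 1) (.cn 0 6 (.st 6 7 (.cn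 5 7 (.lf 84 5) (.cn 4 7 (.lf 157 4) (.lf 158 4))) (.vi 45) (.cn 5 7 (.lf 51 5) (.cn 4 7 (.lf 159 4) (.lf 158 4)))) (.lf 233 0))) (.lf 165 2)))) (.xx 5 6))))

/-- a part of a tree -/
def t57 : Tr := (.cn 0 5 (.bt 102 (.st 5 6 (.cn 4 6 (.lf 84 4) (.cn 3 6 (.lf 85 3) (.cn 2 6 (.lf 86 2) (.lf 54 2)))) (.cn 4 6 (.lf 49 4) (.lf 50 4)) (.cn 4 6 (.lf 51 4) (.cn 3 6 (.lf 52 3) (.cn 2 6 (.lf 87 2) (.lf 54 2))))) (.st 5 6 (.cn 4 6 (.lf 84 4) (.cn 3 6 (.lf 85 3) (.cn 2 6 (.lf 86 2) (.lf 156 2)))) (.cn 4 6 (.lf 110 4) (.cn 3 6 (.lf 111 3) (.cn 2 6 (.cn 1 6 (.lf 231 1) (.cn 0 6 (.lf 232 0) (.lf 233 0))) (.lf 165 2)))) (.xx 5 6))) (.bt 102 (.st 5 6 (.cn 4 6 (.lf 84 4) (.cn 3 6 (.lf 85 3) (.cn 2 6 (.lf 86 2) (.lf 54 2)))) (.cn 4 6 (.lf 49 4) (.lf 50 4)) (.cn 4 6 (.lf 51 4) (.cn 3 6 (.lf 52 3) (.cn 2 6 (.lf 87 2) (.lf 54 2))))) (.st 5 6 (.cn 4 6 (.lf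 84 4) (.cn 3 6 (.lf 85 3) (.cn 2 6 (.lf 86 2) (.lf 156 2)))) (.cn 4 6 (.lf 110 4) (.cn 3 6 (.lf 111 3) (.cn 2 6 (.cn 1 6 (.lf 231 1) (.cn 0 6 (.st 6 7 (.cn 5 7 (.lf 84 5) (.cn 4 7 (.lf 157 4) (.lf 158 4))) (.vi 45) (.cn 5 7 (.lf 51 5) (.cn 4 7 (.lf 159 4) (.lf 158 4)))) (.lf 233 0))) (.lf 165 2)))) (.xx 5 6))))

/-- a part of a tree -/
def t58 : Tr := (.cn 2 4 (.lf 78 2) (.cn 1 4 (.cn 0 4 (.lf 79 0) (.bt 85 (.st 4 5 (.cn 3 5 (.lf 37 3) (.lf 38 3)) (.cn 3 5 (.lf 39 3) (.cn 2 5 (.lf 80 2) (.lf 43 2))) (.cn 3 5 (.lf 41 3) (.lf 81 2))) (.st 4 5 (.cn 3 5 (.lf 44 3) (.cn 2 5 (.lf 82 2) (.lf 46 2))) (.cn 3 5 (.lf 39 3) (.cn 2 5 (.lf 80 2) (.cn 1 5 (.lf 83 1) t56))) (.xx 4 5)))) (.cn 0 4 (.lf 88 0) (.bt 85 (.st 4 5 (.cn 3 5 (.lf 37 3) (.lf 38 3)) (.cn 3 5 (.lf 39 3) (.cn 2 5 (.lf 80 2) (.lf 43 2))) (.cn 3 5 (.lf 41 3) (.lf 81 2))) (.st 4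 5 (.cn 3 5 (.lf 44 3) (.cn 2 5 (.lf 82 2) (.lf 46 2))) (.cn 3 5 (.lf 39 3) (.cn 2 5 (.lf 80 2) (.cn 1 5 (.lf 89 1) t57))) (.xx 4 5))))))

/-- a part of a tree -/
def t59 : Tr := (.bt 68 (.st 3 4 (.cn 2 4 (.cn 1 4 (.lf 61 1) (.cn 0 4 (.bt 85 (.st 4 5 (.lf 0 4) (.lf 1 4) (.xx 4 5)) (.st 4 5 (.cn 3 5 (.cn 2 5 (.lf 62 2) (.lf 63 2)) (.lf 13 3)) (.cn 3 5 (.lf 14 3) (.cn 2 5 (.lf 64 2) (.lf 65 2))) (.cn 3 5 (.lf 25 3) (.cn 2 5 (.lf 64 2) (.cn 1 5 (.cn 0 5 (.lf 66 0) (.lf 67 0)) (.cn 0 5 (.lf 68 0) (.lf 67 0))))))) (.lf 69 0))) (.lf 70 2)) (.cn 2 4 (.lf 18 2) (.lf 19 2)) (.cn 2 4 (.cn 1 4 (.lf 71 1) (.lf 72 1)) (.cn 1 4 (.lf 73 1) (.cn 0 4 (.lf 74 0) (.bt 85 (.st 4 5 (.lf 0 4) (.lf 1 4) (.xx 4 5)) (.st 4 5 (.cn 3 5 (.lf 57 3) (.cn 2 5 (.lf 75 2) (.lf 76 2))) (.cn 3 5 (.lf 60 3) (.lf 77 2)) (.vi 51))))))) (.st 3 4 t58 (.cn 2 4 (.lf 18 2)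 (.lf 19 2)) (.xx 3 4)))

/-- a part of a tree -/
def t60 : Tr := (.bt 102 (.st 5 6 (.cn 4 6 (.lf 84 4) (.cn 3 6 (.lf 85 3) (.cn 2 6 (.cn 1 6 (.lf 234 1) (.cn 0 6 (.lf 235 0) (.st 6 7 (.vi 44) (.lf 1 6) (.xx 6 7)))) (.lf 236 2)))) (.cn 4 6 (.lf 49 4) (.lf 50 4)) (.cn 4 6 (.lf 51 4) (.cn 3 6 (.lf 52 3) (.cn 2 6 (.cn 1 6 (.lf 234 1) (.cn 0 6 (.lf 237 0) (.st 6 7 (.vi 44) (.lf 1 6) (.xx 6 7)))) (.lf 238 2))))) (.st 5 6 (.cn 4 6 (.lf 84 4) (.cn 3 6 (.lf 85 3) (.cn 2 6 (.cn 1 6 (.lf 234 1) (.cn 0 6 (.lf 235 0) (.st 6 7 (.vi 44) (.cn 5 7 (.lf 39 5) (.cn 4 7 (.lf 80 4) (.cn 3 7 (.lf 97 3) (.lf 239 3)))) (.cn 5 7 (.lf 41 5) (.cn 4 7 (.lf 42 4) (.cn 3 7 (.lf 99 3) (.lf 239 3))))))) (.lf 240 2)))) (.cn 4 6 (.lf 110 4) (.cn 3 6 (.lf 111 3) (.cn 2 6 (.cn 1 6 (.lf 234 1) (.cn 0 6 (.lf 237 0) (.st 6 7 (.vi 44) (.cn 5 7 (.lf 49 5) (.lf 50 5)) (.cn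 5 7 (.lf 51 5) (.cn 4 7 (.lf 159 4) (.lf 158 4)))))) (.lf 241 2)))) (.xx 5 6)))

/-- a part of a tree -/
def t61 : Tr := (.bt 68 (.st 3 4 (.cn 2 4 (.lf 37 2) (.lf 38 2)) (.cn 2 4 (.lf 39 2) (.cn 1 4 (.lf 80 1) (.cn 0 4 (.lf 97 0) (.lf 98 0)))) (.cn 2 4 (.lf 41 2) (.cn 1 4 (.lf 42 1) (.cn 0 4 (.lf 99 0) (.lf 98 0))))) (.st 3 4 (.cn 2 4 (.lf 44 2) (.cn 1 4 (.lf 82 1) (.cn 0 4 (.bt 85 (.st 4 5 (.cn 3 5 (.lf 37 3) (.lf 38 3)) (.cn 3 5 (.lf 39 3) (.cn 2 5 (.lf 100 2) (.lf 101 2))) (.cn 3 5 (.lf 41 3) (.cn 2 5 (.lf 102 2) (.lf 101 2)))) (.st 4 5 (.cn 3 5 (.lf 44 3) (.cn 2 5 (.lf 103 2) (.lf 104 2))) (.cn 3 5 (.lf 39 3) (.cn 2 5 (.lf 100 2) (.cn 1 5 (.lf 105 1) (.cn 0 5 (.lf 106 0) t60)))) (.xx 4 5))) (.lf 108 0)))) (.cn 2 4 (.lf 39 2) (.cn 1 4 (.lf 80 1) (.cn 0 4 (.lf 97 0) (.lf 109 0)))) (.xx 3 4)))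

/-- a part of a tree -/
def t62 : Tr := (.bt 34 (.st 1 2 (.cn 0 2 (.lf 2 0) (.lf 3 0)) (.cn 0 2 (.bt 51 (.st 2 3 (.lf 0 2) (.lf 1 2) (.xx 2 3)) (.st 2 3 (.cn 1 3 (.lf 4 1) (.cn 0 3 (.lf 5 0) (.lf 6 0))) (.cn 1 3 (.cn 0 3 (.lf 7 0) (.lf 8 0)) (.lf 9 1)) (.cn 1 3 (.lf 10 1) (.cn 0 3 (.lf 5 0) t55)))) (.lf 56 0)) (.cn 0 2 (.bt 51 (.st 2 3 (.lf 0 2) (.lf 1 2) (.xx 2 3)) (.st 2 3 (.cn 1 3 (.lf 57 1) (.cn 0 3 (.lf 58 0) (.lf 59 0))) (.cn 1 3 (.lf 60 1) (.cn 0 3 t59 (.lf 90 0))) (.vi 49))) (.bt 51 (.st 2 3 (.lf 0 2) (.lf 1 2) (.xx 2 3)) (.st 2 3 (.cn 1 3 (.lf 57 1) (.lf 91 0)) (.cn 1 3 (.lf 60 1) (.cn 0 3 (.lf 92 0) (.lf 93 0))) (.vi 49))))) (.st 1 2 (.cn 0 2 (.lf 2 0) (.lf 3 0)) (.cn 0 2 (.lf 94 0) (.bt 51 (.st 2 3 (.cn 1 3 (.lf 84 1) (.cn 0 3 (.lf 85 0) (.lf 95 0))) (.cn 1 3 (.lf 49 1) (.lf 50 1)) (.cn 1 3 (.lf 51 1) (.lf 96 0))) (.st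 2 3 (.cn 1 3 (.lf 84 1) (.cn 0 3 (.lf 85 0) t61)) (.cn 1 3 (.lf 110 1) (.cn 0 3 (.lf 111 0) (.lf 112 0))) (.xx 2 3)))) (.xx 1 2)))

/-- a part of a tree -/
def t63 : Tr := (.bt 102 (.st 5 6 (.cn 4 6 (.lf 2 4) (.lf 3 4)) (.cn 4 6 (.cn 3 6 (.lf 119 3) (.lf 120 3)) (.lf 56 4)) (.cn 4 6 (.cn 3 6 (.lf 121 3) (.cn 2 6 (.cn 1 6 (.lf 242 1) (.lf 122 1)) (.cn 1 6 (.lf 243 1) (.cn 0 6 (.lf 123 0) (.st 6 7 (.vi 44) (.lf 1 6) (.xx 6 7)))))) (.cn 3 6 (.lf 124 3) (.cn 2 6 (.lf 125 2) (.cn 1 6 (.cn 0 6 (.lf 244 0) (.st 6 7 (.vi 44) (.lf 1 6) (.xx 6 7))) (.cn 0 6 (.lf 123 0) (.st 6 7 (.vi 44) (.lf 1 6) (.xx 6 7)))))))) (.st 5 6 (.cn 4 6 (.lf 2 4) (.lf 3 4)) (.cn 4 6 (.lf 94 4) (.cn 3 6 (.cn 2 6 (.lf 201 2) (.cn 1 6 (.cn 0 6 (.lf 244 0) (.st 6 7 (.vi 44) (.cn 5 7 (.lf 49 5) (.lf 50 5)) (.cn 5 7 (.lf 51 5) (.lf 96 4)))) (.cn 0 6 (.lf 123 0) (.st 6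 7 (.vi 44) (.cn 5 7 (.lf 49 5) (.lf 50 5)) (.cn 5 7 (.lf 51 5) (.lf 96 4)))))) (.cn 2 6 (.lf 125 2) (.cn 1 6 (.cn 0 6 (.lf 244 0) (.st 6 7 (.vi 44) (.cn 5 7 (.lf 49 5) (.lf 50 5)) (.cn 5 7 (.lf 51 5) (.lf 96 4)))) (.cn 0 6 (.lf 123 0) (.st 6 7 (.vi 44) (.cn 5 7 (.lf 49 5) (.lf 50 5)) (.cn 5 7 (.lf 51 5) (.lf 96 4)))))))) (.xx 5 6)))

/-- a part of a tree -/
def t64 : Tr := (.cn 0 5 (.lf 118 0) (.bt 102 (.st 5 6 (.cn 4 6 (.lf 37 4) (.lf 38 4)) (.cn 4 6 (.lf 39 4) (.cn 3 6 (.lf 80 3) (.cn 2 6 (.lf 138 2) (.lf 98 2)))) (.cn 4 6 (.lf 41 4) (.cn 3 6 (.lf 42 3) (.cn 2 6 (.lf 139 2) (.lf 98 2))))) (.st 5 6 (.cn 4 6 (.lf 44 4) (.cn 3 6 (.lf 82 3) (.cn 2 6 (.cn 1 6 (.cn 0 6 (.st 6 7 (.cn 5 7 (.lf 37 5) (.lf 38 5)) (.vi 45) (.cn 5 7 (.lf 41 5) (.cn 4 7 (.lf 102 4) (.lf 101 4)))) (.lf 245 0)) (.cn 0 6 (.st 6 7 (.cn 5 7 (.lf 37 5) (.lf 38 5))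 (.vi 45) (.cn 5 7 (.lf 41 5) (.cn 4 7 (.lf 102 4) (.lf 101 4)))) (.lf 246 0))) (.lf 223 2)))) (.cn 4 6 (.lf 39 4) (.cn 3 6 (.lf 80 3) (.cn 2 6 (.lf 138 2) (.lf 109 2)))) (.xx 5 6))))

/-- a part of a tree -/
def t65 : Tr := (.bt 68 (.st 3 4 (.cn 2 4 (.cn 1 4 (.lf 113 1) (.lf 114 1)) (.lf 115 1)) (.cn 2 4 (.cn 1 4 (.cn 0 4 (.bt 85 (.st 4 5 (.lf 0 4) (.lf 1 4) (.xx 4 5)) (.st 4 5 (.cn 3 5 (.lf 4 3) (.cn 2 5 (.lf 116 2) (.cn 1 5 (.lf 117 1) (.cn 0 5 (.lf 118 0) t63)))) (.cn 3 5 (.cn 2 5 (.lf 126 2) (.lf 127 2)) (.lf 9 3)) (.cn 3 5 (.lf 10 3) (.cn 2 5 (.lf 128 2) (.lf 129 2))))) (.lf 130 0)) (.lf 131 1)) (.cn 1 4 (.lf 132 1) (.lf 133 1))) (.vi 50)) (.st 3 4 (.cn 2 4 (.lf 35 2) (.lf 115 1)) (.cn 2 4 (.lf 55 2) (.cn 1 4 (.lf 132 1) (.cn 0 4 (.lf 134 0) (.bt 85 (.st 4 5 (.cn 3 5 (.lf 84 3) (.lf 135 2)) (.cn 3 5 (.lf 49 3) (.lf 50 3)) (.cn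 3 5 (.lf 51 3) (.cn 2 5 (.lf 52 2) (.lf 95 2)))) (.st 4 5 (.cn 3 5 (.lf 84 3) (.cn 2 5 (.lf 136 2) (.cn 1 5 (.lf 137 1) t64))) (.cn 3 5 (.lf 110 3) (.cn 2 5 (.lf 140 2) (.lf 112 2))) (.xx 4 5)))))) (.xx 3 4)))

/-- a part of a tree -/
def t66 : Tr := (.cn 0 5 (.bt 102 (.st 5 6 (.cn 4 6 (.lf 37 4) (.lf 38 4)) (.cn 4 6 (.lf 39 4) (.cn 3 6 (.lf 80 3) (.cn 2 6 (.lf 97 2) (.lf 98 2)))) (.cn 4 6 (.lf 41 4) (.cn 3 6 (.lf 42 3) (.cn 2 6 (.lf 99 2) (.lf 98 2))))) (.st 5 6 (.cn 4 6 (.lf 44 4) (.cn 3 6 (.lf 82 3) (.cn 2 6 (.cn 1 6 (.lf 247 1) (.cn 0 6 (.lf 248 0) (.lf 249 0))) (.lf 108 2)))) (.cn 4 6 (.lf 39 4) (.cn 3 6 (.lf 80 3) (.cn 2 6 (.lf 97 2) (.lf 109 2)))) (.xx 5 6))) (.bt 102 (.st 5 6 (.cn 4 6 (.lf 37 4) (.lf 38 4)) (.cn 4 6 (.lf 39 4) (.cn 3 6 (.lf 80 3) (.cn 2 6 (.lf 97 2) (.lf 98 2)))) (.cn 4 6 (.lf 41 4) (.cn 3 6 (.lf 42 3) (.cn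 2 6 (.lf 99 2) (.lf 98 2))))) (.st 5 6 (.cn 4 6 (.lf 44 4) (.cn 3 6 (.lf 82 3) (.cn 2 6 (.cn 1 6 (.lf 247 1) (.cn 0 6 (.st 6 7 (.cn 5 7 (.lf 37 5) (.lf 38 5)) (.vi 45) (.cn 5 7 (.lf 41 5) (.cn 4 7 (.lf 102 4) (.lf 101 4)))) (.lf 249 0))) (.lf 108 2)))) (.cn 4 6 (.lf 39 4) (.cn 3 6 (.lf 80 3) (.cn 2 6 (.lf 97 2) (.lf 109 2)))) (.xx 5 6))))

/-- a part of a tree -/
def t67 : Tr := (.cn 0 5 (.bt 102 (.st 5 6 (.cn 4 6 (.lf 37 4) (.lf 38 4)) (.cn 4 6 (.lf 39 4) (.cn 3 6 (.lf 80 3) (.cn 2 6 (.lf 97 2) (.lf 98 2)))) (.cn 4 6 (.lf 41 4) (.cn 3 6 (.lf 42 3) (.cn 2 6 (.lf 99 2) (.lf 98 2))))) (.st 5 6 (.cn 4 6 (.lf 44 4) (.cn 3 6 (.lf 82 3) (.cn 2 6 (.cn 1 6 (.lf 247 1) (.cn 0 6 (.lf 248 0) (.lf 249 0))) (.lf 108 2)))) (.cn 4 6 (.lf 39 4) (.cn 3 6 (.lf 80 3) (.cn 2 6 (.lf 97 2) (.lf 109 2)))) (.xx 5 6))) (.bt 102 (.st 5 6 (.cn 4 6 (.lf 37 4)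 (.lf 38 4)) (.cn 4 6 (.lf 39 4) (.cn 3 6 (.lf 80 3) (.cn 2 6 (.lf 97 2) (.lf 98 2)))) (.cn 4 6 (.lf 41 4) (.cn 3 6 (.lf 42 3) (.cn 2 6 (.lf 99 2) (.lf 98 2))))) (.st 5 6 (.cn 4 6 (.lf 44 4) (.cn 3 6 (.lf 82 3) (.cn 2 6 (.cn 1 6 (.lf 247 1) (.cn 0 6 (.st 6 7 (.cn 5 7 (.lf 37 5) (.lf 38 5)) (.vi 45) (.cn 5 7 (.lf 41 5) (.cn 4 7 (.lf 102 4) (.lf 101 4)))) (.lf 249 0))) (.lf 108 2)))) (.cn 4 6 (.lf 39 4) (.cn 3 6 (.lf 80 3) (.cn 2 6 (.lf 97 2) (.lf 109 2)))) (.xx 5 6))))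

/-- a part of a tree -/
def t68 : Tr := (.cn 2 4 (.lf 94 2) (.cn 1 4 (.cn 0 4 (.lf 149 0) (.bt 85 (.st 4 5 (.cn 3 5 (.lf 84 3) (.cn 2 5 (.lf 85 2) (.lf 95 2))) (.cn 3 5 (.lf 49 3) (.lf 50 3)) (.cn 3 5 (.lf 51 3) (.lf 96 2))) (.st 4 5 (.cn 3 5 (.lf 84 3) (.cn 2 5 (.lf 85 2) (.cn 1 5 (.lf 150 1) t66))) (.cn 3 5 (.lf 110 3) (.cn 2 5 (.lf 111 2) (.lf 112 2))) (.xx 4 5)))) (.cn 0 4 (.lf 151 0) (.bt 85 (.st 4 5 (.cn 3 5 (.lf 84 3) (.cn 2 5 (.lf 85 2) (.lf 95 2))) (.cn 3 5 (.lf 49 3) (.lf 50 3)) (.cn 3 5 (.lf 51 3) (.lf 96 2))) (.st 4 5 (.cn 3 5 (.lf 84 3) (.cn 2 5 (.lf 85 2) (.cn 1 5 (.lf 152 1) t67))) (.cn 3 5 (.lf 110 3) (.cn 2 5 (.lf 111 2) (.lf 112 2))) (.xx 4 5))))))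

/-- a part of a tree -/
def t69 : Tr := (.bt 68 (.st 3 4 (.cn 2 4 (.lf 2 2) (.lf 3 2)) (.cn 2 4 (.cn 1 4 (.lf 119 1) (.cn 0 4 (.bt 85 (.st 4 5 (.lf 0 4) (.lf 1 4) (.xx 4 5)) (.st 4 5 (.cn 3 5 (.lf 4 3) (.cn 2 5 (.lf 5 2) (.lf 6 2))) (.cn 3 5 (.cn 2 5 (.lf 7 2) (.lf 8 2)) (.lf 9 3)) (.cn 3 5 (.lf 10 3) (.cn 2 5 (.lf 5 2) (.cn 1 5 (.cn 0 5 (.lf 141 0) (.lf 142 0)) (.cn 0 5 (.lf 143 0) (.lf 142 0))))))) (.lf 144 0))) (.lf 56 2)) (.cn 2 4 (.cn 1 4 (.lf 145 1) (.lf 146 1)) (.cn 1 4 (.lf 147 1) (.cn 0 4 (.lf 148 0) (.bt 85 (.st 4 5 (.lf 0 4) (.lf 1 4) (.xx 4 5)) (.st 4 5 (.cn 3 5 (.lf 57 3) (.lf 91 2)) (.cn 3 5 (.lf 60 3) (.cn 2 5 (.lf 92 2) (.lf 93 2))) (.vi 51))))))) (.st 3 4 (.cn 2 4 (.lf 2 2) (.lf 3 2)) t68 (.xx 3 4)))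

/-- a part of a tree -/
def t70 : Tr := (.bt 102 (.st 5 6 (.cn 4 6 (.lf 37 4) (.lf 38 4)) (.cn 4 6 (.lf 39 4) (.cn 3 6 (.lf 80 3) (.cn 2 6 (.cn 1 6 (.lf 250 1) (.cn 0 6 (.lf 251 0) (.st 6 7 (.vi 44) (.lf 1 6) (.xx 6 7)))) (.lf 252 2)))) (.cn 4 6 (.lf 41 4) (.cn 3 6 (.lf 42 3) (.cn 2 6 (.cn 1 6 (.lf 250 1) (.cn 0 6 (.lf 253 0) (.st 6 7 (.vi 44) (.lf 1 6) (.xx 6 7)))) (.lf 254 2))))) (.st 5 6 (.cn 4 6 (.lf 44 4) (.cn 3 6 (.lf 82 3) (.cn 2 6 (.cn 1 6 (.lf 250 1) (.cn 0 6 (.lf 253 0) (.st 6 7 (.vi 44) (.cn 5 7 (.lf 39 5) (.cn 4 7 (.lf 100 4) (.lf 101 4))) (.cn 5 7 (.lf 41 5) (.cn 4 7 (.lf 102 4) (.lf 101 4)))))) (.lf 255 2)))) (.cn 4 6 (.lf 39 4) (.cn 3 6 (.lf 80 3) (.cn 2 6 (.cn 1 6 (.lf 250 1) (.cn 0 6 (.lf 251 0) (.st 6 7 (.vi 44) (.cn 5 7 (.lf 49 5) (.lf 50 5)) (.cn 5 7 (.lf 51 5) (.cn 4 7 (.lf 52 4) (.cn 3 7 (.lf 87 3) (.lf 256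 3))))))) (.lf 257 2)))) (.xx 5 6)))

/-- a part of a tree -/
def t71 : Tr := (.bt 68 (.st 3 4 (.cn 2 4 (.lf 84 2) (.cn 1 4 (.lf 85 1) (.cn 0 4 (.lf 86 0) (.lf 54 0)))) (.cn 2 4 (.lf 49 2) (.lf 50 2)) (.cn 2 4 (.lf 51 2) (.cn 1 4 (.lf 52 1) (.cn 0 4 (.lf 87 0) (.lf 54 0))))) (.st 3 4 (.cn 2 4 (.lf 84 2) (.cn 1 4 (.lf 85 1) (.cn 0 4 (.lf 86 0) (.lf 156 0)))) (.cn 2 4 (.lf 110 2) (.cn 1 4 (.lf 111 1) (.cn 0 4 (.bt 85 (.st 4 5 (.cn 3 5 (.lf 84 3) (.cn 2 5 (.lf 157 2) (.lf 158 2))) (.cn 3 5 (.lf 49 3) (.lf 50 3)) (.cn 3 5 (.lf 51 3) (.cn 2 5 (.lf 159 2) (.lf 158 2)))) (.st 4 5 (.cn 3 5 (.lf 84 3) (.cn 2 5 (.lf 157 2) (.cn 1 5 (.lf 160 1) (.cn 0 5 (.lf 161 0) t70)))) (.cn 3 5 (.lf 110 3) (.cn 2 5 (.lf 163 2) (.lf 164 2))) (.xx 4 5))) (.lf 165 0)))) (.xx 3 4)))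

/-- a part of a tree -/
def t72 : Tr := (.bt 34 (.st 1 2 (.cn 0 2 (.bt 51 (.st 2 3 (.lf 0 2) (.lf 1 2) (.xx 2 3)) (.st 2 3 (.cn 1 3 (.cn 0 3 (.lf 62 0) (.lf 63 0)) (.lf 13 1)) (.cn 1 3 (.lf 14 1) (.cn 0 3 (.lf 64 0) (.lf 65 0))) (.cn 1 3 (.lf 25 1) (.cn 0 3 (.lf 64 0) t65)))) (.lf 70 0)) (.cn 0 2 (.lf 18 0) (.lf 19 0)) (.cn 0 2 (.bt 51 (.st 2 3 (.lf 0 2) (.lf 1 2) (.xx 2 3)) (.st 2 3 (.cn 1 3 (.lf 57 1) (.cn 0 3 t69 (.lf 153 0))) (.cn 1 3 (.lf 60 1) (.cn 0 3 (.lf 154 0) (.lf 155 0))) (.vi 49))) (.bt 51 (.st 2 3 (.lf 0 2) (.lf 1 2) (.xx 2 3)) (.st 2 3 (.cn 1 3 (.lf 57 1) (.cn 0 3 (.lf 75 0) (.lf 76 0))) (.cn 1 3 (.lf 60 1) (.lf 77 0)) (.vi 49))))) (.st 1 2 (.cn 0 2 (.lf 78 0) (.bt 51 (.st 2 3 (.cn 1 3 (.lf 37 1) (.lf 38 1)) (.cn 1 3 (.lf 39 1) (.cn 0 3 (.lf 80 0) (.lf 43 0))) (.cn 1 3 (.lf 41 1) (.lf 81 0))) (.st 2 3 (.cn 1 3 (.lf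 44 1) (.cn 0 3 (.lf 82 0) (.lf 46 0))) (.cn 1 3 (.lf 39 1) (.cn 0 3 (.lf 80 0) t71)) (.xx 2 3)))) (.cn 0 2 (.lf 18 0) (.lf 19 0)) (.xx 1 2)))

/-- a part of a tree -/
def t73 : Tr := (.cn 0 5 (.lf 170 0) (.bt 102 (.st 5 6 (.cn 4 6 (.lf 2 4) (.lf 3 4)) (.cn 4 6 (.cn 3 6 (.lf 119 3) (.cn 2 6 (.cn 1 6 (.lf 258 1) (.cn 0 6 (.lf 171 0) (.st 6 7 (.vi 44) (.lf 1 6) (.xx 6 7)))) (.lf 144 2))) (.lf 56 4)) (.cn 4 6 (.cn 3 6 (.lf 145 3) (.lf 146 3)) (.cn 3 6 (.lf 147 3) (.cn 2 6 (.lf 148 2) (.cn 1 6 (.cn 0 6 (.lf 173 0) (.lf 259 0)) (.cn 0 6 (.lf 174 0) (.lf 260 0))))))) (.st 5 6 (.cn 4 6 (.lf 2 4) (.lf 3 4)) (.cn 4 6 (.lf 94 4) (.cn 3 6 (.cn 2 6 (.lf 149 2) (.cn 1 6 (.cn 0 6 (.lf 173 0) (.lf 261 0)) (.cn 0 6 (.lf 174 0) (.lf 261 0)))) (.cn 2 6 (.lf 151 2) (.cn 1 6 (.cn 0 6 (.lf 173 0) (.lf 259 0)) (.cn 0 6 (.lf 174 0) (.lf 262 0)))))) (.xx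 5 6))))

/-- a part of a tree -/
def t74 : Tr := (.cn 2 4 (.cn 1 4 (.lf 20 1) (.cn 0 4 (.bt 85 (.st 4 5 (.lf 0 4) (.lf 1 4) (.xx 4 5)) (.st 4 5 (.cn 3 5 (.lf 57 3) (.cn 2 5 (.cn 1 5 (.lf 167 1) (.cn 0 5 (.lf 168 0) (.lf 169 0))) (.lf 153 2))) (.cn 3 5 (.lf 60 3) (.cn 2 5 (.lf 154 2) (.lf 155 2))) (.vi 51))) (.bt 85 (.st 4 5 (.lf 0 4) (.lf 1 4) (.xx 4 5)) (.st 4 5 (.cn 3 5 (.lf 57 3) (.cn 2 5 (.cn 1 5 (.lf 167 1) t73) (.lf 153 2))) (.cn 3 5 (.lf 60 3) (.cn 2 5 (.lf 154 2) (.lf 155 2))) (.vi 51))))) (.cn 1 4 (.lf 23 1) (.cn 0 4 (.lf 24 0) (.bt 85 (.st 4 5 (.lf 0 4) (.lf 1 4) (.xx 4 5)) (.st 4 5 (.cn 3 5 (.lf 57 3) (.cn 2 5 (.lf 75 2) (.lf 76 2))) (.cn 3 5 (.lf 60 3) (.lf 77 2)) (.vi 51))))))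

/-- a part of a tree -/
def t75 : Tr := (.st 4 5 (.cn 3 5 (.lf 44 3) (.cn 2 5 (.lf 82 2) (.lf 46 2))) (.cn 3 5 (.lf 39 3) (.cn 2 5 (.lf 80 2) (.cn 1 5 (.lf 83 1) (.cn 0 5 (.lf 176 0) (.bt 102 (.st 5 6 (.cn 4 6 (.lf 84 4) (.cn 3 6 (.lf 85 3) (.cn 2 6 (.lf 86 2) (.lf 54 2)))) (.cn 4 6 (.lf 49 4) (.lf 50 4)) (.cn 4 6 (.lf 51 4) (.cn 3 6 (.lf 52 3) (.cn 2 6 (.lf 87 2) (.lf 54 2))))) (.st 5 6 (.cn 4 6 (.lf 84 4) (.cn 3 6 (.lf 85 3) (.cn 2 6 (.lf 86 2) (.lf 156 2)))) (.cn 4 6 (.lf 110 4) (.cn 3 6 (.lf 111 3) (.cn 2 6 (.cn 1 6 (.lf 263 1) (.cn 0 6 (.st 6 7 (.cn 5 7 (.lf 84 5) (.cn 4 7 (.lf 157 4) (.lf 158 4))) (.vi 45) (.cn 5 7 (.lf 51 5) (.cn 4 7 (.lf 159 4) (.lf 158 4)))) (.lf 264 0))) (.lf 165 2)))) (.xx 5 6))))))) (.xx 4 5))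

/-- a part of a tree -/
def t76 : Tr := (.st 4 5 (.cn 3 5 (.lf 44 3) (.cn 2 5 (.lf 82 2) (.lf 46 2))) (.cn 3 5 (.lf 39 3) (.cn 2 5 (.lf 80 2) (.cn 1 5 (.lf 177 1) (.cn 0 5 (.lf 176 0) (.bt 102 (.st 5 6 (.cn 4 6 (.lf 84 4) (.cn 3 6 (.lf 85 3) (.cn 2 6 (.lf 86 2) (.lf 54 2)))) (.cn 4 6 (.lf 49 4) (.lf 50 4)) (.cn 4 6 (.lf 51 4) (.cn 3 6 (.lf 52 3) (.cn 2 6 (.lf 87 2) (.lf 54 2))))) (.st 5 6 (.cn 4 6 (.lf 84 4) (.cn 3 6 (.lf 85 3) (.cn 2 6 (.lf 86 2) (.lf 156 2)))) (.cn 4 6 (.lf 110 4) (.cn 3 6 (.lf 111 3) (.cn 2 6 (.cn 1 6 (.lf 263 1) (.cn 0 6 (.st 6 7 (.cn 5 7 (.lf 84 5) (.cn 4 7 (.lf 157 4) (.lf 158 4))) (.vi 45) (.cn 5 7 (.lf 51 5) (.cn 4 7 (.lf 159 4) (.lf 158 4)))) (.lf 264 0))) (.lf 165 2)))) (.xx 5 6))))))) (.xx 4 5))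

/-- a part of a tree -/
def t77 : Tr := (.st 2 3 (.cn 1 3 (.cn 0 3 (.lf 11 0) (.lf 12 0)) (.lf 13 1)) (.cn 1 3 (.lf 14 1) (.cn 0 3 (.lf 15 0) (.bt 68 (.st 3 4 (.cn 2 4 (.cn 1 4 (.lf 61 1) (.lf 166 1)) (.lf 70 2)) (.cn 2 4 (.lf 18 2) (.lf 19 2)) t74) (.st 3 4 (.cn 2 4 (.lf 78 2) (.cn 1 4 (.cn 0 4 (.lf 175 0) (.bt 85 (.st 4 5 (.cn 3 5 (.lf 37 3) (.lf 38 3)) (.cn 3 5 (.lf 39 3) (.cn 2 5 (.lf 80 2) (.lf 43 2))) (.cn 3 5 (.lf 41 3) (.lf 81 2))) t75)) (.cn 0 4 (.lf 24 0) (.bt 85 (.st 4 5 (.cn 3 5 (.lf 37 3) (.lf 38 3)) (.cn 3 5 (.lf 39 3) (.cn 2 5 (.lf 80 2) (.lf 43 2))) (.cn 3 5 (.lf 41 3) (.lf 81 2))) t76)))) (.cn 2 4 (.lf 18 2) (.lf 19 2)) (.xx 3 4))))) (.cn 1 3 (.lf 25 1) (.cn 0 3 (.lf 26 0) (.lf 27 0))))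

/-- a part of a tree -/
def t78 : Tr := (.cn 0 5 (.bt 102 (.st 5 6 (.cn 4 6 (.lf 2 4) (.lf 3 4)) (.cn 4 6 (.cn 3 6 (.lf 119 3) (.cn 2 6 (.cn 1 6 (.lf 258 1) (.cn 0 6 (.lf 224 0) (.st 6 7 (.vi 44) (.lf 1 6) (.xx 6 7)))) (.lf 144 2))) (.lf 56 4)) (.cn 4 6 (.cn 3 6 (.lf 145 3) (.lf 146 3)) (.cn 3 6 (.lf 147 3) (.cn 2 6 (.lf 148 2) (.lf 183 0))))) (.st 5 6 (.cn 4 6 (.lf 2 4) (.lf 3 4)) (.cn 4 6 (.lf 94 4) (.cn 3 6 (.cn 2 6 (.lf 149 2) (.cn 1 6 (.lf 184 0) (.cn 0 6 (.lf 185 0) (.lf 261 0)))) (.cn 2 6 (.lf 151 2) (.cn 1 6 (.lf 184 0) (.cn 0 6 (.lf 185 0) (.st 6 7 (.vi 44) (.cn 5 7 (.lf 49 5) (.lf 50 5)) (.cn 5 7 (.lf 51 5) (.lf 96 4)))))))) (.xx 5 6))) (.bt 102 (.st 5 6 (.cn 4 6 (.lf 2 4) (.lf 3 4)) (.cn 4 6 (.cn 3 6 (.lf 119 3) (.cn 2 6 (.cn 1 6 (.lf 258 1) (.cn 0 6 (.lf 171 0) (.st 6 7 (.vi 44) (.lf 1 6) (.xx 6 7)))) (.lf 144 2))) (.lf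 56 4)) (.cn 4 6 (.cn 3 6 (.lf 145 3) (.lf 146 3)) (.cn 3 6 (.lf 147 3) (.cn 2 6 (.lf 148 2) (.cn 1 6 (.lf 184 0) (.cn 0 6 (.lf 185 0) (.lf 260 0))))))) (.st 5 6 (.cn 4 6 (.lf 2 4) (.lf 3 4)) (.cn 4 6 (.lf 94 4) (.cn 3 6 (.cn 2 6 (.lf 149 2) (.cn 1 6 (.lf 184 0) (.cn 0 6 (.lf 185 0) (.lf 261 0)))) (.cn 2 6 (.lf 151 2) (.cn 1 6 (.lf 184 0) (.cn 0 6 (.lf 185 0) (.lf 262 0)))))) (.xx 5 6))))

/-- a part of a tree -/
def t79 : Tr := (.st 4 5 (.cn 3 5 (.lf 44 3) (.cn 2 5 (.lf 82 2) (.lf 46 2))) (.cn 3 5 (.lf 39 3) (.cn 2 5 (.lf 80 2) (.cn 1 5 (.lf 83 1) (.cn 0 5 (.lf 106 0) (.bt 102 (.st 5 6 (.cn 4 6 (.lf 84 4) (.cn 3 6 (.lf 85 3) (.cn 2 6 (.lf 86 2) (.lf 54 2)))) (.cn 4 6 (.lf 49 4) (.lf 50 4)) (.cn 4 6 (.lf 51 4) (.cn 3 6 (.lf 52 3) (.cn 2 6 (.lf 87 2) (.lf 54 2))))) (.st 5 6 (.cn 4 6 (.lf 84 4) (.cn 3 6 (.lf 85 3) (.cn 2 6 (.lf 86 2)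 (.lf 156 2)))) (.cn 4 6 (.lf 110 4) (.cn 3 6 (.lf 111 3) (.cn 2 6 (.cn 1 6 (.lf 263 1) (.cn 0 6 (.lf 265 0) (.st 6 7 (.vi 44) (.cn 5 7 (.lf 49 5) (.lf 50 5)) (.cn 5 7 (.lf 51 5) (.cn 4 7 (.lf 159 4) (.lf 158 4)))))) (.lf 165 2)))) (.xx 5 6))))))) (.xx 4 5))

/-- a part of a tree -/
def t80 : Tr := (.bt 68 (.st 3 4 (.cn 2 4 (.cn 1 4 (.lf 61 1) (.lf 166 1)) (.lf 70 2)) (.cn 2 4 (.lf 18 2) (.lf 19 2)) (.cn 2 4 (.cn 1 4 (.lf 20 1) (.cn 0 4 (.lf 181 0) (.bt 85 (.st 4 5 (.lf 0 4) (.lf 1 4) (.xx 4 5)) (.st 4 5 (.cn 3 5 (.lf 57 3) (.cn 2 5 (.cn 1 5 (.lf 167 1) t78) (.lf 153 2))) (.cn 3 5 (.lf 60 3) (.cn 2 5 (.lf 154 2) (.lf 155 2))) (.vi 51))))) (.cn 1 4 (.lf 23 1) (.cn 0 4 (.lf 186 0) (.lf 54 0))))) (.st 3 4 (.cn 2 4 (.lf 78 2) (.cn 1 4 (.cn 0 4 (.bt 85 (.st 4 5 (.cn 3 5 (.lf 37 3) (.lf 38 3)) (.cn 3 5 (.lf 39 3) (.cn 2 5 (.lf 80 2) (.lf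 43 2))) (.cn 3 5 (.lf 41 3) (.lf 81 2))) t79) (.lf 187 0)) (.lf 188 0))) (.cn 2 4 (.lf 18 2) (.lf 19 2)) (.xx 3 4)))

/-- a part of a tree -/
def t81 : Tr := (.bt 102 (.st 5 6 (.cn 4 6 (.lf 2 4) (.lf 3 4)) (.cn 4 6 (.cn 3 6 (.lf 119 3) (.lf 120 3)) (.lf 56 4)) (.cn 4 6 (.cn 3 6 (.lf 121 3) (.cn 2 6 (.cn 1 6 (.lf 242 1) (.lf 122 1)) (.cn 1 6 (.lf 243 1) (.cn 0 6 (.lf 172 0) (.lf 270 0))))) (.cn 3 6 (.lf 124 3) (.cn 2 6 (.lf 125 2) (.cn 1 6 (.lf 267 0) (.cn 0 6 (.lf 192 0) (.lf 270 0))))))) (.st 5 6 (.cn 4 6 (.lf 2 4) (.lf 3 4)) (.cn 4 6 (.lf 94 4) (.cn 3 6 (.cn 2 6 (.lf 201 2) (.cn 1 6 (.lf 267 0) (.cn 0 6 (.st 6 7 (.cn 5 7 (.lf 84 5) (.cn 4 7 (.lf 85 4) (.lf 95 4))) (.vi 45) (.cn 5 7 (.lf 51 5) (.lf 96 4))) (.lf 262 0)))) (.cn 2 6 (.lf 125 2) (.cn 1 6 (.lf 267 0) (.cn 0 6 (.st 6 7 (.cn 5 7 (.lf 84 5) (.cn 4 7 (.lf 85 4) (.lf 95 4)))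 (.vi 45) (.cn 5 7 (.lf 51 5) (.lf 96 4))) (.lf 262 0)))))) (.xx 5 6)))

/-- a part of a tree -/
def t82 : Tr := (.cn 2 5 (.lf 116 2) (.cn 1 5 (.lf 117 1) (.cn 0 5 (.bt 102 (.st 5 6 (.cn 4 6 (.lf 2 4) (.lf 3 4)) (.cn 4 6 (.cn 3 6 (.lf 119 3) (.lf 120 3)) (.lf 56 4)) (.cn 4 6 (.cn 3 6 (.lf 121 3) (.cn 2 6 (.cn 1 6 (.lf 242 1) (.lf 122 1)) (.cn 1 6 (.lf 243 1) (.cn 0 6 (.lf 182 0) (.lf 266 0))))) (.cn 3 6 (.lf 124 3) (.cn 2 6 (.lf 125 2) (.lf 191 0))))) (.st 5 6 (.cn 4 6 (.lf 2 4) (.lf 3 4)) (.cn 4 6 (.lf 94 4) (.cn 3 6 (.cn 2 6 (.lf 201 2) (.cn 1 6 (.lf 267 0) (.cn 0 6 (.lf 268 0) (.lf 269 0)))) (.cn 2 6 (.lf 125 2) (.cn 1 6 (.lf 267 0) (.cn 0 6 (.lf 268 0) (.st 6 7 (.vi 44) (.cn 5 7 (.lf 49 5) (.lf 50 5)) (.cn 5 7 (.lf 51 5) (.lf 96 4)))))))) (.xx 5 6))) t81)))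

/-- a part of a tree -/
def t83 : Tr := (.bt 51 (.st 2 3 (.lf 0 2) (.lf 1 2) (.xx 2 3)) (.st 2 3 (.cn 1 3 (.cn 0 3 (.lf 178 0) (.lf 179 0)) (.lf 13 1)) (.cn 1 3 (.lf 14 1) (.cn 0 3 (.lf 180 0) t80)) (.cn 1 3 (.lf 25 1) (.cn 0 3 (.lf 189 0) (.bt 68 (.st 3 4 (.cn 2 4 (.cn 1 4 (.lf 113 1) (.lf 114 1)) (.lf 115 1)) (.cn 2 4 (.cn 1 4 (.cn 0 4 (.lf 190 0) (.bt 85 (.st 4 5 (.lf 0 4) (.lf 1 4) (.xx 4 5)) (.st 4 5 (.cn 3 5 (.lf 4 3) t82) (.cn 3 5 (.cn 2 5 (.lf 126 2) (.lf 127 2)) (.lf 9 3)) (.cn 3 5 (.lf 10 3) (.cn 2 5 (.lf 128 2) (.lf 129 2)))))) (.lf 131 1)) (.lf 193 0)) (.vi 50)) (.st 3 4 (.cn 2 4 (.lf 35 2) (.lf 115 1)) (.cn 2 4 (.lf 55 2) (.lf 193 0)) (.xx 3 4)))))))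

/-- a part of a tree -/
def t84 : Tr := (.cn 0 5 (.lf 197 0) (.bt 102 (.st 5 6 (.cn 4 6 (.cn 3 6 (.lf 61 3) (.cn 2 6 (.cn 1 6 (.lf 271 1) (.cn 0 6 (.lf 225 0) (.st 6 7 (.vi 44) (.lf 1 6) (.xx 6 7)))) (.lf 69 2))) (.lf 70 4)) (.cn 4 6 (.lf 18 4) (.lf 19 4)) (.cn 4 6 (.cn 3 6 (.lf 71 3) (.lf 72 3)) (.cn 3 6 (.lf 73 3) (.cn 2 6 (.lf 74 2) (.cn 1 6 (.cn 0 6 (.lf 199 0) (.lf 259 0)) (.cn 0 6 (.lf 200 0) (.lf 272 0))))))) (.st 5 6 (.cn 4 6 (.lf 78 4) (.cn 3 6 (.cn 2 6 (.lf 79 2) (.cn 1 6 (.cn 0 6 (.lf 199 0) (.lf 261 0)) (.cn 0 6 (.lf 200 0) (.lf 261 0)))) (.cn 2 6 (.lf 88 2) (.cn 1 6 (.cn 0 6 (.lf 199 0) (.lf 259 0)) (.cn 0 6 (.lf 200 0) (.lf 273 0)))))) (.cn 4 6 (.lf 18 4) (.lf 19 4)) (.xx 5 6))))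

/-- a part of a tree -/
def t85 : Tr := (.cn 2 4 (.cn 1 4 (.lf 121 1) (.cn 0 4 (.bt 85 (.st 4 5 (.lf 0 4) (.lf 1 4) (.xx 4 5)) (.st 4 5 (.cn 3 5 (.lf 57 3) (.cn 2 5 (.lf 58 2) (.lf 59 2))) (.cn 3 5 (.lf 60 3) (.cn 2 5 (.cn 1 5 (.lf 194 1) (.cn 0 5 (.lf 195 0) (.lf 196 0))) (.lf 90 2))) (.vi 51))) (.bt 85 (.st 4 5 (.lf 0 4) (.lf 1 4) (.xx 4 5)) (.st 4 5 (.cn 3 5 (.lf 57 3) (.cn 2 5 (.lf 58 2) (.lf 59 2))) (.cn 3 5 (.lf 60 3) (.cn 2 5 (.cn 1 5 (.lf 194 1) t84) (.lf 90 2))) (.vi 51))))) (.cn 1 4 (.lf 124 1) (.cn 0 4 (.lf 125 0) (.bt 85 (.st 4 5 (.lf 0 4) (.lf 1 4) (.xx 4 5)) (.st 4 5 (.cn 3 5 (.lf 57 3) (.lf 91 2)) (.cn 3 5 (.lf 60 3) (.cn 2 5 (.lf 92 2) (.lf 93 2))) (.vi 51))))))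

/-- a part of a tree -/
def t86 : Tr := (.st 4 5 (.cn 3 5 (.lf 84 3) (.cn 2 5 (.lf 85 2) (.cn 1 5 (.lf 150 1) (.cn 0 5 (.lf 202 0) (.bt 102 (.st 5 6 (.cn 4 6 (.lf 37 4) (.lf 38 4)) (.cn 4 6 (.lf 39 4) (.cn 3 6 (.lf 80 3) (.cn 2 6 (.lf 97 2) (.lf 98 2)))) (.cn 4 6 (.lf 41 4) (.cn 3 6 (.lf 42 3) (.cn 2 6 (.lf 99 2) (.lf 98 2))))) (.st 5 6 (.cn 4 6 (.lf 44 4) (.cn 3 6 (.lf 82 3) (.cn 2 6 (.cn 1 6 (.lf 274 1) (.cn 0 6 (.st 6 7 (.cn 5 7 (.lf 37 5) (.lf 38 5)) (.vi 45) (.cn 5 7 (.lf 41 5) (.cn 4 7 (.lf 102 4) (.lf 101 4)))) (.lf 275 0))) (.lf 108 2)))) (.cn 4 6 (.lf 39 4) (.cn 3 6 (.lf 80 3) (.cn 2 6 (.lf 97 2) (.lf 109 2)))) (.xx 5 6))))))) (.cn 3 5 (.lf 110 3) (.cn 2 5 (.lf 111 2) (.lf 112 2))) (.xx 4 5))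

/-- a part of a tree -/
def t87 : Tr := (.st 4 5 (.cn 3 5 (.lf 84 3) (.cn 2 5 (.lf 85 2) (.cn 1 5 (.lf 203 1) (.cn 0 5 (.lf 202 0) (.bt 102 (.st 5 6 (.cn 4 6 (.lf 37 4) (.lf 38 4)) (.cn 4 6 (.lf 39 4) (.cn 3 6 (.lf 80 3) (.cn 2 6 (.lf 97 2) (.lf 98 2)))) (.cn 4 6 (.lf 41 4) (.cn 3 6 (.lf 42 3) (.cn 2 6 (.lf 99 2) (.lf 98 2))))) (.st 5 6 (.cn 4 6 (.lf 44 4) (.cn 3 6 (.lf 82 3) (.cn 2 6 (.cn 1 6 (.lf 274 1) (.cn 0 6 (.st 6 7 (.cn 5 7 (.lf 37 5) (.lf 38 5)) (.vi 45) (.cn 5 7 (.lf 41 5) (.cn 4 7 (.lf 102 4) (.lf 101 4)))) (.lf 275 0))) (.lf 108 2)))) (.cn 4 6 (.lf 39 4) (.cn 3 6 (.lf 80 3) (.cn 2 6 (.lf 97 2) (.lf 109 2)))) (.xx 5 6))))))) (.cn 3 5 (.lf 110 3) (.cn 2 5 (.lf 111 2) (.lf 112 2))) (.xx 4 5))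

/-- a part of a tree -/
def t88 : Tr := (.st 2 3 (.cn 1 3 (.lf 4 1) (.cn 0 3 (.lf 116 0) (.bt 68 (.st 3 4 (.cn 2 4 (.lf 2 2) (.lf 3 2)) (.cn 2 4 (.cn 1 4 (.lf 119 1) (.lf 120 1)) (.lf 56 2)) t85) (.st 3 4 (.cn 2 4 (.lf 2 2) (.lf 3 2)) (.cn 2 4 (.lf 94 2) (.cn 1 4 (.cn 0 4 (.lf 201 0) (.bt 85 (.st 4 5 (.cn 3 5 (.lf 84 3) (.cn 2 5 (.lf 85 2) (.lf 95 2))) (.cn 3 5 (.lf 49 3) (.lf 50 3)) (.cn 3 5 (.lf 51 3) (.lf 96 2))) t86)) (.cn 0 4 (.lf 125 0) (.bt 85 (.st 4 5 (.cn 3 5 (.lf 84 3) (.cn 2 5 (.lf 85 2) (.lf 95 2))) (.cn 3 5 (.lf 49 3) (.lf 50 3)) (.cn 3 5 (.lf 51 3) (.lf 96 2))) t87)))) (.xx 3 4))))) (.cn 1 3 (.cn 0 3 (.lf 126 0) (.lf 127 0)) (.lf 9 1)) (.cn 1 3 (.lf 10 1) (.cn 0 3 (.lf 128 0) (.lf 129 0))))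

/-- a part of a tree -/
def t89 : Tr := (.cn 0 5 (.bt 102 (.st 5 6 (.cn 4 6 (.cn 3 6 (.lf 61 3) (.cn 2 6 (.cn 1 6 (.lf 271 1) (.cn 0 6 (.lf 206 0) (.st 6 7 (.vi 44) (.lf 1 6) (.xx 6 7)))) (.lf 69 2))) (.lf 70 4)) (.cn 4 6 (.lf 18 4) (.lf 19 4)) (.cn 4 6 (.cn 3 6 (.lf 71 3) (.lf 72 3)) (.cn 3 6 (.lf 73 3) (.cn 2 6 (.lf 74 2) (.lf 208 0))))) (.st 5 6 (.cn 4 6 (.lf 78 4) (.cn 3 6 (.cn 2 6 (.lf 79 2) (.cn 1 6 (.lf 209 0) (.cn 0 6 (.lf 210 0) (.lf 261 0)))) (.cn 2 6 (.lf 88 2) (.cn 1 6 (.lf 209 0) (.cn 0 6 (.lf 210 0) (.st 6 7 (.vi 44) (.cn 5 7 (.lf 39 5) (.cn 4 7 (.lf 80 4) (.lf 43 4))) (.cn 5 7 (.lf 41 5) (.lf 81 4)))))))) (.cn 4 6 (.lf 18 4) (.lf 19 4)) (.xx 5 6))) (.bt 102 (.st 5 6 (.cn 4 6 (.cn 3 6 (.lf 61 3) (.cn 2 6 (.cn 1 6 (.lf 271 1) (.cn 0 6 (.lf 225 0) (.st 6 7 (.vi 44) (.lf 1 6) (.xx 6 7)))) (.lf 69 2))) (.lf 70 4)) (.cn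 4 6 (.lf 18 4) (.lf 19 4)) (.cn 4 6 (.cn 3 6 (.lf 71 3) (.lf 72 3)) (.cn 3 6 (.lf 73 3) (.cn 2 6 (.lf 74 2) (.cn 1 6 (.lf 209 0) (.cn 0 6 (.lf 210 0) (.lf 272 0))))))) (.st 5 6 (.cn 4 6 (.lf 78 4) (.cn 3 6 (.cn 2 6 (.lf 79 2) (.cn 1 6 (.lf 209 0) (.cn 0 6 (.lf 210 0) (.lf 261 0)))) (.cn 2 6 (.lf 88 2) (.cn 1 6 (.lf 209 0) (.cn 0 6 (.lf 210 0) (.lf 273 0)))))) (.cn 4 6 (.lf 18 4) (.lf 19 4)) (.xx 5 6))))

/-- a part of a tree -/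
def t90 : Tr := (.st 4 5 (.cn 3 5 (.lf 84 3) (.cn 2 5 (.lf 85 2) (.cn 1 5 (.lf 150 1) (.cn 0 5 (.lf 161 0) (.bt 102 (.st 5 6 (.cn 4 6 (.lf 37 4) (.lf 38 4)) (.cn 4 6 (.lf 39 4) (.cn 3 6 (.lf 80 3) (.cn 2 6 (.lf 97 2) (.lf 98 2)))) (.cn 4 6 (.lf 41 4) (.cn 3 6 (.lf 42 3) (.cn 2 6 (.lf 99 2) (.lf 98 2))))) (.st 5 6 (.cn 4 6 (.lf 44 4) (.cn 3 6 (.lf 82 3) (.cn 2 6 (.cn 1 6 (.lf 274 1) (.cn 0 6 (.lf 265 0) (.st 6 7 (.vi 44) (.cn 5 7 (.lf 39 5) (.cn 4 7 (.lf 100 4) (.lf 101 4))) (.cn 5 7 (.lf 41 5) (.cn 4 7 (.lf 102 4) (.lf 101 4)))))) (.lf 108 2)))) (.cn 4 6 (.lf 39 4) (.cn 3 6 (.lf 80 3) (.cn 2 6 (.lf 97 2) (.lf 109 2)))) (.xx 5 6))))))) (.cn 3 5 (.lf 110 3) (.cn 2 5 (.lf 111 2) (.lf 112 2))) (.xx 4 5))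

/-- a part of a tree -/
def t91 : Tr := (.bt 68 (.st 3 4 (.cn 2 4 (.lf 2 2) (.lf 3 2)) (.cn 2 4 (.cn 1 4 (.lf 119 1) (.lf 120 1)) (.lf 56 2)) (.cn 2 4 (.cn 1 4 (.lf 121 1) (.cn 0 4 (.lf 205 0) (.bt 85 (.st 4 5 (.lf 0 4) (.lf 1 4) (.xx 4 5)) (.st 4 5 (.cn 3 5 (.lf 57 3) (.cn 2 5 (.lf 58 2) (.lf 59 2))) (.cn 3 5 (.lf 60 3) (.cn 2 5 (.cn 1 5 (.lf 194 1) t89) (.lf 90 2))) (.vi 51))))) (.cn 1 4 (.lf 124 1) (.cn 0 4 (.lf 211 0) (.lf 98 0))))) (.st 3 4 (.cn 2 4 (.lf 2 2) (.lf 3 2)) (.cn 2 4 (.lf 94 2) (.cn 1 4 (.cn 0 4 (.bt 85 (.st 4 5 (.cn 3 5 (.lf 84 3) (.cn 2 5 (.lf 85 2) (.lf 95 2))) (.cn 3 5 (.lf 49 3) (.lf 50 3)) (.cn 3 5 (.lf 51 3) (.lf 96 2))) t90) (.lf 212 0)) (.lf 213 0))) (.xx 3 4)))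

/-- a part of a tree -/
def t92 : Tr := (.bt 102 (.st 5 6 (.cn 4 6 (.cn 3 6 (.lf 61 3) (.lf 166 3)) (.lf 70 4)) (.cn 4 6 (.lf 18 4) (.lf 19 4)) (.cn 4 6 (.cn 3 6 (.lf 20 3) (.cn 2 6 (.cn 1 6 (.lf 21 1) (.lf 226 1)) (.cn 1 6 (.lf 227 1) (.cn 0 6 (.lf 198 0) (.lf 279 0))))) (.cn 3 6 (.lf 23 3) (.cn 2 6 (.lf 24 2) (.cn 1 6 (.lf 276 0) (.cn 0 6 (.lf 219 0) (.lf 279 0))))))) (.st 5 6 (.cn 4 6 (.lf 78 4) (.cn 3 6 (.cn 2 6 (.lf 175 2) (.cn 1 6 (.lf 276 0) (.cn 0 6 (.st 6 7 (.cn 5 7 (.lf 37 5) (.lf 38 5)) (.vi 45) (.cn 5 7 (.lf 41 5) (.lf 81 4))) (.lf 273 0)))) (.cn 2 6 (.lf 24 2) (.cn 1 6 (.lf 276 0) (.cn 0 6 (.st 6 7 (.cn 5 7 (.lf 37 5) (.lf 38 5)) (.vi 45) (.cn 5 7 (.lf 41 5) (.lf 81 4))) (.lf 273 0)))))) (.cn 4 6 (.lf 18 4) (.lf 19 4)) (.xx 5 6)))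

/-- a part of a tree -/
def t93 : Tr := (.cn 1 5 (.lf 16 1) (.cn 0 5 (.bt 102 (.st 5 6 (.cn 4 6 (.cn 3 6 (.lf 61 3) (.lf 166 3)) (.lf 70 4)) (.cn 4 6 (.lf 18 4) (.lf 19 4)) (.cn 4 6 (.cn 3 6 (.lf 20 3) (.cn 2 6 (.cn 1 6 (.lf 21 1) (.lf 226 1)) (.cn 1 6 (.lf 227 1) (.cn 0 6 (.lf 207 0) (.lf 266 0))))) (.cn 3 6 (.lf 23 3) (.cn 2 6 (.lf 24 2) (.lf 218 0))))) (.st 5 6 (.cn 4 6 (.lf 78 4) (.cn 3 6 (.cn 2 6 (.lf 175 2) (.cn 1 6 (.lf 276 0) (.cn 0 6 (.lf 277 0) (.lf 278 0)))) (.cn 2 6 (.lf 24 2) (.cn 1 6 (.lf 276 0) (.cn 0 6 (.lf 277 0) (.st 6 7 (.vi 44) (.cn 5 7 (.lf 39 5) (.cn 4 7 (.lf 80 4) (.lf 43 4))) (.cn 5 7 (.lf 41 5) (.lf 81 4)))))))) (.cn 4 6 (.lf 18 4) (.lf 19 4)) (.xx 5 6))) t92))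

/-- a part of a tree -/
def t94 : Tr := (.bt 51 (.st 2 3 (.lf 0 2) (.lf 1 2) (.xx 2 3)) (.st 2 3 (.cn 1 3 (.lf 4 1) (.cn 0 3 (.lf 204 0) t91)) (.cn 1 3 (.cn 0 3 (.lf 214 0) (.lf 215 0)) (.lf 9 1)) (.cn 1 3 (.lf 10 1) (.cn 0 3 (.lf 216 0) (.bt 68 (.st 3 4 (.cn 2 4 (.cn 1 4 (.cn 0 4 (.lf 217 0) (.bt 85 (.st 4 5 (.lf 0 4) (.lf 1 4) (.xx 4 5)) (.st 4 5 (.cn 3 5 (.cn 2 5 (.lf 11 2) (.lf 12 2)) (.lf 13 3)) (.cn 3 5 (.lf 14 3) (.cn 2 5 (.lf 15 2) t93)) (.cn 3 5 (.lf 25 3) (.cn 2 5 (.lf 26 2) (.lf 27 2)))))) (.lf 29 1)) (.lf 220 0)) (.cn 2 4 (.cn 1 4 (.lf 32 1) (.lf 33 1)) (.lf 34 1)) (.vi 50)) (.st 3 4 (.cn 2 4 (.lf 35 2) (.lf 220 0)) (.cn 2 4 (.lf 55 2) (.lf 34 1)) (.xx 3 4)))))))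

/-- a part of a tree -/
def t95 : Tr := (.bt 102 (.st 5 6 (.cn 4 6 (.lf 37 4) (.lf 38 4)) (.cn 4 6 (.lf 39 4) (.cn 3 6 (.lf 80 3) (.cn 2 6 (.cn 1 6 (.lf 250 1) (.cn 0 6 (.lf 253 0) (.st 6 7 (.vi 44) (.lf 1 6) (.xx 6 7)))) (.lf 252 2)))) (.cn 4 6 (.lf 41 4) (.cn 3 6 (.lf 42 3) (.cn 2 6 (.cn 1 6 (.lf 250 1) (.cn 0 6 (.lf 253 0) (.st 6 7 (.vi 44) (.lf 1 6) (.xx 6 7)))) (.lf 254 2))))) (.st 5 6 (.cn 4 6 (.lf 44 4) (.cn 3 6 (.lf 82 3) (.cn 2 6 (.cn 1 6 (.lf 250 1) (.cn 0 6 (.lf 253 0) (.st 6 7 (.vi 44) (.cn 5 7 (.lf 39 5) (.cn 4 7 (.lf 100 4) (.lf 101 4))) (.cn 5 7 (.lf 41 5) (.cn 4 7 (.lf 102 4) (.lf 101 4)))))) (.lf 255 2)))) (.cn 4 6 (.lf 39 4) (.cn 3 6 (.lf 80 3) (.cn 2 6 (.cn 1 6 (.lf 250 1) (.cn 0 6 (.lf 253 0) (.st 6 7 (.vi 44) (.cn 5 7 (.lf 49 5) (.lf 50 5)) (.cn 5 7 (.lf 51 5) (.cn 4 7 (.lf 52 4) (.cn 3 7 (.lf 87 3) (.lf 256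 3))))))) (.lf 257 2)))) (.xx 5 6)))

/-- a part of a tree -/
def t96 : Tr := (.bt 68 (.st 3 4 (.cn 2 4 (.lf 84 2) (.cn 1 4 (.lf 85 1) (.cn 0 4 (.lf 221 0) (.lf 54 0)))) (.cn 2 4 (.lf 49 2) (.lf 50 2)) (.cn 2 4 (.lf 51 2) (.cn 1 4 (.lf 52 1) (.cn 0 4 (.lf 53 0) (.lf 54 0))))) (.st 3 4 (.cn 2 4 (.lf 84 2) (.cn 1 4 (.lf 85 1) (.cn 0 4 (.lf 221 0) (.lf 156 0)))) (.cn 2 4 (.lf 110 2) (.cn 1 4 (.lf 111 1) (.cn 0 4 (.bt 85 (.st 4 5 (.cn 3 5 (.lf 84 3) (.cn 2 5 (.lf 157 2) (.lf 158 2))) (.cn 3 5 (.lf 49 3) (.lf 50 3)) (.cn 3 5 (.lf 51 3) (.cn 2 5 (.lf 159 2) (.lf 158 2)))) (.st 4 5 (.cn 3 5 (.lf 84 3) (.cn 2 5 (.lf 157 2) (.cn 1 5 (.lf 160 1) (.cn 0 5 (.lf 161 0) t95)))) (.cn 3 5 (.lf 110 3) (.cn 2 5 (.lf 163 2) (.lf 164 2))) (.xx 4 5))) (.lf 222 0)))) (.xx 3 4)))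

/-- a part of a tree -/
def t97 : Tr := (.bt 102 (.st 5 6 (.cn 4 6 (.lf 84 4) (.cn 3 6 (.lf 85 3) (.cn 2 6 (.cn 1 6 (.lf 234 1) (.cn 0 6 (.lf 237 0) (.st 6 7 (.vi 44) (.lf 1 6) (.xx 6 7)))) (.lf 236 2)))) (.cn 4 6 (.lf 49 4) (.lf 50 4)) (.cn 4 6 (.lf 51 4) (.cn 3 6 (.lf 52 3) (.cn 2 6 (.cn 1 6 (.lf 234 1) (.cn 0 6 (.lf 237 0) (.st 6 7 (.vi 44) (.lf 1 6) (.xx 6 7)))) (.lf 238 2))))) (.st 5 6 (.cn 4 6 (.lf 84 4) (.cn 3 6 (.lf 85 3) (.cn 2 6 (.cn 1 6 (.lf 234 1) (.cn 0 6 (.lf 237 0) (.st 6 7 (.vi 44) (.cn 5 7 (.lf 39 5) (.cn 4 7 (.lf 80 4) (.cn 3 7 (.lf 97 3) (.lf 239 3)))) (.cn 5 7 (.lf 41 5) (.cn 4 7 (.lf 42 4) (.cn 3 7 (.lf 99 3) (.lf 239 3))))))) (.lf 240 2)))) (.cn 4 6 (.lf 110 4) (.cn 3 6 (.lf 111 3) (.cn 2 6 (.cn 1 6 (.lf 234 1) (.cn 0 6 (.lf 237 0) (.st 6 7 (.vi 44) (.cn 5 7 (.lf 49 5) (.lf 50 5)) (.cn 5 7 (.lf 51 5) (.cn 4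 7 (.lf 159 4) (.lf 158 4)))))) (.lf 241 2)))) (.xx 5 6)))

/-- a part of a tree -/
def t98 : Tr := (.bt 68 (.st 3 4 (.cn 2 4 (.lf 37 2) (.lf 38 2)) (.cn 2 4 (.lf 39 2) (.cn 1 4 (.lf 80 1) (.cn 0 4 (.lf 138 0) (.lf 98 0)))) (.cn 2 4 (.lf 41 2) (.cn 1 4 (.lf 42 1) (.cn 0 4 (.lf 139 0) (.lf 98 0))))) (.st 3 4 (.cn 2 4 (.lf 44 2) (.cn 1 4 (.lf 82 1) (.cn 0 4 (.bt 85 (.st 4 5 (.cn 3 5 (.lf 37 3) (.lf 38 3)) (.cn 3 5 (.lf 39 3) (.cn 2 5 (.lf 100 2) (.lf 101 2))) (.cn 3 5 (.lf 41 3) (.cn 2 5 (.lf 102 2) (.lf 101 2)))) (.st 4 5 (.cn 3 5 (.lf 44 3) (.cn 2 5 (.lf 103 2) (.lf 104 2))) (.cn 3 5 (.lf 39 3) (.cn 2 5 (.lf 100 2) (.cn 1 5 (.lf 105 1) (.cn 0 5 (.lf 106 0) t97)))) (.xx 4 5))) (.lf 223 0)))) (.cn 2 4 (.lf 39 2) (.cn 1 4 (.lf 80 1) (.cn 0 4 (.lf 138 0) (.lf 109 0)))) (.xx 3 4)))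

/-- a part of a tree -/
def t99 : Tr := (.bt 34 (.st 1 2 (.cn 0 2 (.bt 51 (.st 2 3 (.lf 0 2) (.lf 1 2) (.xx 2 3)) t77) t83) (.cn 0 2 (.bt 51 (.st 2 3 (.lf 0 2) (.lf 1 2) (.xx 2 3)) t88) t94) (.vi 48)) (.st 1 2 (.cn 0 2 (.lf 35 0) (.bt 51 (.st 2 3 (.cn 1 3 (.lf 37 1) (.lf 38 1)) (.cn 1 3 (.lf 39 1) (.lf 40 0)) (.cn 1 3 (.lf 41 1) (.cn 0 3 (.lf 42 0) (.lf 43 0)))) (.st 2 3 (.cn 1 3 (.lf 44 1) (.cn 0 3 (.lf 45 0) (.lf 46 0))) (.cn 1 3 (.lf 39 1) (.cn 0 3 (.lf 47 0) t96)) (.xx 2 3)))) (.cn 0 2 (.lf 55 0) (.bt 51 (.st 2 3 (.cn 1 3 (.lf 84 1) (.lf 135 0)) (.cn 1 3 (.lf 49 1) (.lf 50 1)) (.cn 1 3 (.lf 51 1) (.cn 0 3 (.lf 52 0) (.lf 95 0)))) (.st 2 3 (.cn 1 3 (.lf 84 1) (.cn 0 3 (.lf 136 0) t98)) (.cn 1 3 (.lf 110 1) (.cn 0 3 (.lf 140 0) (.lf 112 0))) (.xx 2 3)))) (.xx 1 2)))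

/-- a part of a tree -/
def t100 : Tr := (.bt 102 (.st 5 6 (.cn 4 6 (.cn 3 6 (.lf 61 3) (.lf 166 3)) (.lf 70 4)) (.cn 4 6 (.lf 18 4) (.lf 19 4)) (.cn 4 6 (.cn 3 6 (.lf 20 3) (.cn 2 6 (.cn 1 6 (.lf 21 1) (.lf 226 1)) (.cn 1 6 (.lf 227 1) (.cn 0 6 (.lf 228 0) (.st 6 7 (.lf 0 6) (.vi 44) (.xx 6 7)))))) (.cn 3 6 (.lf 23 3) (.cn 2 6 (.lf 24 2) (.cn 1 6 (.cn 0 6 (.lf 22 0) (.st 6 7 (.lf 0 6) (.vi 44) (.xx 6 7))) (.cn 0 6 (.lf 228 0) (.st 6 7 (.lf 0 6) (.vi 44) (.xx 6 7)))))))) (.st 5 6 (.cn 4 6 (.lf 78 4) (.cn 3 6 (.cn 2 6 (.lf 175 2) (.cn 1 6 (.cn 0 6 (.lf 22 0) (.st 6 7 (.cn 5 7 (.lf 37 5) (.lf 38 5)) (.vi 44) (.cn 5 7 (.lf 41 5) (.lf 81 4)))) (.cn 0 6 (.lf 228 0) (.st 6 7 (.cn 5 7 (.lf 37 5) (.lf 38 5)) (.vi 44) (.cn 5 7 (.lf 41 5) (.lf 81 4)))))) (.cn 2 6 (.lf 24 2) (.cn 1 6 (.cn 0 6 (.lf 22 0) (.st 6 7 (.cn 5 7 (.lf 37 5) (.lf 38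 5)) (.vi 44) (.cn 5 7 (.lf 41 5) (.lf 81 4)))) (.cn 0 6 (.lf 228 0) (.st 6 7 (.cn 5 7 (.lf 37 5) (.lf 38 5)) (.vi 44) (.cn 5 7 (.lf 41 5) (.lf 81 4)))))))) (.cn 4 6 (.lf 18 4) (.lf 19 4)) (.xx 5 6)))

/-- a part of a tree -/
def t101 : Tr := (.cn 0 5 (.lf 17 0) (.bt 102 (.st 5 6 (.cn 4 6 (.lf 84 4) (.cn 3 6 (.lf 85 3) (.cn 2 6 (.lf 221 2) (.lf 54 2)))) (.cn 4 6 (.lf 49 4) (.lf 50 4)) (.cn 4 6 (.lf 51 4) (.cn 3 6 (.lf 52 3) (.cn 2 6 (.lf 53 2) (.lf 54 2))))) (.st 5 6 (.cn 4 6 (.lf 84 4) (.cn 3 6 (.lf 85 3) (.cn 2 6 (.lf 221 2) (.lf 156 2)))) (.cn 4 6 (.lf 110 4) (.cn 3 6 (.lf 111 3) (.cn 2 6 (.cn 1 6 (.cn 0 6 (.st 6 7 (.vi 45) (.cn 5 7 (.lf 49 5) (.lf 50 5)) (.cn 5 7 (.lf 51 5) (.cn 4 7 (.lf 159 4) (.lf 158 4)))) (.lf 229 0)) (.cn 0 6 (.st 6 7 (.vi 45) (.cn 5 7 (.lf 49 5) (.lf 50 5)) (.cn 5 7 (.lf 51 5) (.cn 4 7 (.lf 159 4) (.lf 158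 4)))) (.lf 230 0))) (.lf 222 2)))) (.xx 5 6))))

/-- a part of a tree -/
def t102 : Tr := (.bt 68 (.st 3 4 (.cn 2 4 (.cn 1 4 (.cn 0 4 (.bt 85 (.st 4 5 (.lf 0 4) (.lf 1 4) (.xx 4 5)) (.st 4 5 (.cn 3 5 (.cn 2 5 (.lf 11 2) (.lf 12 2)) (.lf 13 3)) (.cn 3 5 (.lf 14 3) (.cn 2 5 (.lf 15 2) (.cn 1 5 (.lf 16 1) (.cn 0 5 (.lf 17 0) t100)))) (.cn 3 5 (.lf 25 3) (.cn 2 5 (.lf 26 2) (.lf 27 2))))) (.lf 28 0)) (.lf 29 1)) (.cn 1 4 (.lf 30 1) (.lf 31 1))) (.cn 2 4 (.cn 1 4 (.lf 32 1) (.lf 33 1)) (.lf 34 1)) (.vi 50)) (.st 3 4 (.cn 2 4 (.lf 35 2) (.cn 1 4 (.lf 30 1) (.cn 0 4 (.lf 36 0) (.bt 85 (.st 4 5 (.cn 3 5 (.lf 37 3) (.lf 38 3)) (.cn 3 5 (.lf 39 3) (.lf 40 2)) (.cn 3 5 (.lf 41 3) (.cn 2 5 (.lf 42 2) (.lf 43 2)))) (.st 4 5 (.cn 3 5 (.lf 44 3) (.cn 2 5 (.lf 45 2) (.lf 46 2))) (.cn 3 5 (.lf 39 3) (.cn 2 5 (.lf 47 2) (.cn 1 5 (.lf 48 1) t101)))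 (.xx 4 5)))))) (.cn 2 4 (.lf 55 2) (.lf 34 1)) (.xx 3 4)))

/-- a part of a tree -/
def t103 : Tr := (.cn 0 5 (.bt 102 (.st 5 6 (.cn 4 6 (.lf 84 4) (.cn 3 6 (.lf 85 3) (.cn 2 6 (.lf 86 2) (.lf 54 2)))) (.cn 4 6 (.lf 49 4) (.lf 50 4)) (.cn 4 6 (.lf 51 4) (.cn 3 6 (.lf 52 3) (.cn 2 6 (.lf 87 2) (.lf 54 2))))) (.st 5 6 (.cn 4 6 (.lf 84 4) (.cn 3 6 (.lf 85 3) (.cn 2 6 (.lf 86 2) (.lf 156 2)))) (.cn 4 6 (.lf 110 4) (.cn 3 6 (.lf 111 3) (.cn 2 6 (.cn 1 6 (.lf 231 1) (.cn 0 6 (.lf 232 0) (.lf 233 0))) (.lf 165 2)))) (.xx 5 6))) (.bt 102 (.st 5 6 (.cn 4 6 (.lf 84 4) (.cn 3 6 (.lf 85 3) (.cn 2 6 (.lf 86 2) (.lf 54 2)))) (.cn 4 6 (.lf 49 4) (.lf 50 4)) (.cn 4 6 (.lf 51 4) (.cn 3 6 (.lf 52 3) (.cn 2 6 (.lf 87 2) (.lf 54 2))))) (.st 5 6 (.cn 4 6 (.lf 84 4) (.cn 3 6 (.lf 85 3) (.cn 2 6 (.lf 86 2) (.lf 156 2)))) (.cn 4 6 (.lf 110 4) (.cn 3 6 (.lf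 111 3) (.cn 2 6 (.cn 1 6 (.lf 231 1) (.cn 0 6 (.st 6 7 (.vi 45) (.cn 5 7 (.lf 49 5) (.lf 50 5)) (.cn 5 7 (.lf 51 5) (.cn 4 7 (.lf 159 4) (.lf 158 4)))) (.lf 233 0))) (.lf 165 2)))) (.xx 5 6))))

/-- a part of a tree -/
def t104 : Tr := (.cn 0 5 (.bt 102 (.st 5 6 (.cn 4 6 (.lf 84 4) (.cn 3 6 (.lf 85 3) (.cn 2 6 (.lf 86 2) (.lf 54 2)))) (.cn 4 6 (.lf 49 4) (.lf 50 4)) (.cn 4 6 (.lf 51 4) (.cn 3 6 (.lf 52 3) (.cn 2 6 (.lf 87 2) (.lf 54 2))))) (.st 5 6 (.cn 4 6 (.lf 84 4) (.cn 3 6 (.lf 85 3) (.cn 2 6 (.lf 86 2) (.lf 156 2)))) (.cn 4 6 (.lf 110 4) (.cn 3 6 (.lf 111 3) (.cn 2 6 (.cn 1 6 (.lf 231 1) (.cn 0 6 (.lf 232 0) (.lf 233 0))) (.lf 165 2)))) (.xx 5 6))) (.bt 102 (.st 5 6 (.cn 4 6 (.lf 84 4) (.cn 3 6 (.lf 85 3) (.cn 2 6 (.lf 86 2) (.lf 54 2)))) (.cn 4 6 (.lf 49 4) (.lf 50 4)) (.cn 4 6 (.lf 51 4) (.cn 3 6 (.lf 52 3) (.cn 2 6 (.lf 87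 2) (.lf 54 2))))) (.st 5 6 (.cn 4 6 (.lf 84 4) (.cn 3 6 (.lf 85 3) (.cn 2 6 (.lf 86 2) (.lf 156 2)))) (.cn 4 6 (.lf 110 4) (.cn 3 6 (.lf 111 3) (.cn 2 6 (.cn 1 6 (.lf 231 1) (.cn 0 6 (.st 6 7 (.vi 45) (.cn 5 7 (.lf 49 5) (.lf 50 5)) (.cn 5 7 (.lf 51 5) (.cn 4 7 (.lf 159 4) (.lf 158 4)))) (.lf 233 0))) (.lf 165 2)))) (.xx 5 6))))

/-- a part of a tree -/
def t105 : Tr := (.cn 2 4 (.lf 78 2) (.cn 1 4 (.cn 0 4 (.lf 79 0) (.bt 85 (.st 4 5 (.cn 3 5 (.lf 37 3) (.lf 38 3)) (.cn 3 5 (.lf 39 3) (.cn 2 5 (.lf 80 2) (.lf 43 2))) (.cn 3 5 (.lf 41 3) (.lf 81 2))) (.st 4 5 (.cn 3 5 (.lf 44 3) (.cn 2 5 (.lf 82 2) (.lf 46 2))) (.cn 3 5 (.lf 39 3) (.cn 2 5 (.lf 80 2) (.cn 1 5 (.lf 83 1) t103))) (.xx 4 5)))) (.cn 0 4 (.lf 88 0) (.bt 85 (.st 4 5 (.cn 3 5 (.lf 37 3) (.lf 38 3)) (.cn 3 5 (.lf 39 3) (.cn 2 5 (.lf 80 2) (.lf 43 2))) (.cn 3 5 (.lf 41 3)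 (.lf 81 2))) (.st 4 5 (.cn 3 5 (.lf 44 3) (.cn 2 5 (.lf 82 2) (.lf 46 2))) (.cn 3 5 (.lf 39 3) (.cn 2 5 (.lf 80 2) (.cn 1 5 (.lf 89 1) t104))) (.xx 4 5))))))

/-- a part of a tree -/
def t106 : Tr := (.bt 68 (.st 3 4 (.cn 2 4 (.cn 1 4 (.lf 61 1) (.cn 0 4 (.bt 85 (.st 4 5 (.lf 0 4) (.lf 1 4) (.xx 4 5)) (.st 4 5 (.cn 3 5 (.cn 2 5 (.lf 62 2) (.lf 63 2)) (.lf 13 3)) (.cn 3 5 (.lf 14 3) (.cn 2 5 (.lf 64 2) (.lf 65 2))) (.cn 3 5 (.lf 25 3) (.cn 2 5 (.lf 64 2) (.cn 1 5 (.cn 0 5 (.lf 66 0) (.lf 67 0)) (.cn 0 5 (.lf 68 0) (.lf 67 0))))))) (.lf 69 0))) (.lf 70 2)) (.cn 2 4 (.lf 18 2) (.lf 19 2)) (.cn 2 4 (.cn 1 4 (.lf 71 1) (.lf 72 1)) (.cn 1 4 (.lf 73 1) (.cn 0 4 (.lf 74 0) (.bt 85 (.st 4 5 (.lf 0 4) (.lf 1 4) (.xx 4 5)) (.st 4 5 (.cn 3 5 (.lf 57 3) (.cn 2 5 (.lf 75 2) (.lf 76 2))) (.cn 3 5 (.lf 60 3) (.lf 77 2)) (.vi 51))))))) (.st 3 4 t105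 (.cn 2 4 (.lf 18 2) (.lf 19 2)) (.xx 3 4)))

/-- a part of a tree -/
def t107 : Tr := (.bt 102 (.st 5 6 (.cn 4 6 (.lf 84 4) (.cn 3 6 (.lf 85 3) (.cn 2 6 (.cn 1 6 (.lf 234 1) (.cn 0 6 (.lf 235 0) (.st 6 7 (.lf 0 6) (.vi 44) (.xx 6 7)))) (.lf 236 2)))) (.cn 4 6 (.lf 49 4) (.lf 50 4)) (.cn 4 6 (.lf 51 4) (.cn 3 6 (.lf 52 3) (.cn 2 6 (.cn 1 6 (.lf 234 1) (.cn 0 6 (.lf 237 0) (.st 6 7 (.lf 0 6) (.vi 44) (.xx 6 7)))) (.lf 238 2))))) (.st 5 6 (.cn 4 6 (.lf 84 4) (.cn 3 6 (.lf 85 3) (.cn 2 6 (.cn 1 6 (.lf 234 1) (.cn 0 6 (.lf 235 0) (.st 6 7 (.cn 5 7 (.lf 37 5) (.lf 38 5)) (.vi 44) (.cn 5 7 (.lf 41 5) (.cn 4 7 (.lf 42 4) (.cn 3 7 (.lf 99 3) (.lf 239 3))))))) (.lf 240 2)))) (.cn 4 6 (.lf 110 4) (.cn 3 6 (.lf 111 3) (.cn 2 6 (.cn 1 6 (.lf 234 1) (.cn 0 6 (.lf 237 0) (.st 6 7 (.cn 5 7 (.lf 84 5) (.cn 4 7 (.lf 157 4) (.lf 158 4))) (.vi 44) (.cn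 5 7 (.lf 51 5) (.cn 4 7 (.lf 159 4) (.lf 158 4)))))) (.lf 241 2)))) (.xx 5 6)))

/-- a part of a tree -/
def t108 : Tr := (.bt 68 (.st 3 4 (.cn 2 4 (.lf 37 2) (.lf 38 2)) (.cn 2 4 (.lf 39 2) (.cn 1 4 (.lf 80 1) (.cn 0 4 (.lf 97 0) (.lf 98 0)))) (.cn 2 4 (.lf 41 2) (.cn 1 4 (.lf 42 1) (.cn 0 4 (.lf 99 0) (.lf 98 0))))) (.st 3 4 (.cn 2 4 (.lf 44 2) (.cn 1 4 (.lf 82 1) (.cn 0 4 (.bt 85 (.st 4 5 (.cn 3 5 (.lf 37 3) (.lf 38 3)) (.cn 3 5 (.lf 39 3) (.cn 2 5 (.lf 100 2) (.lf 101 2))) (.cn 3 5 (.lf 41 3) (.cn 2 5 (.lf 102 2) (.lf 101 2)))) (.st 4 5 (.cn 3 5 (.lf 44 3) (.cn 2 5 (.lf 103 2) (.lf 104 2))) (.cn 3 5 (.lf 39 3) (.cn 2 5 (.lf 100 2) (.cn 1 5 (.lf 105 1) (.cn 0 5 (.lf 106 0) t107)))) (.xx 4 5))) (.lf 108 0)))) (.cn 2 4 (.lf 39 2) (.cn 1 4 (.lf 80 1) (.cn 0 4 (.lf 97 0) (.lf 109 0)))) (.xx 3 4)))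

/-- a part of a tree -/
def t109 : Tr := (.bt 34 (.st 1 2 (.cn 0 2 (.lf 2 0) (.lf 3 0)) (.cn 0 2 (.bt 51 (.st 2 3 (.lf 0 2) (.lf 1 2) (.xx 2 3)) (.st 2 3 (.cn 1 3 (.lf 4 1) (.cn 0 3 (.lf 5 0) (.lf 6 0))) (.cn 1 3 (.cn 0 3 (.lf 7 0) (.lf 8 0)) (.lf 9 1)) (.cn 1 3 (.lf 10 1) (.cn 0 3 (.lf 5 0) t102)))) (.lf 56 0)) (.cn 0 2 (.bt 51 (.st 2 3 (.lf 0 2) (.lf 1 2) (.xx 2 3)) (.st 2 3 (.cn 1 3 (.lf 57 1) (.cn 0 3 (.lf 58 0) (.lf 59 0))) (.cn 1 3 (.lf 60 1) (.cn 0 3 t106 (.lf 90 0))) (.vi 49))) (.bt 51 (.st 2 3 (.lf 0 2) (.lf 1 2) (.xx 2 3)) (.st 2 3 (.cn 1 3 (.lf 57 1) (.lf 91 0)) (.cn 1 3 (.lf 60 1) (.cn 0 3 (.lf 92 0) (.lf 93 0))) (.vi 49))))) (.st 1 2 (.cn 0 2 (.lf 2 0) (.lf 3 0)) (.cn 0 2 (.lf 94 0) (.bt 51 (.st 2 3 (.cn 1 3 (.lf 84 1) (.cn 0 3 (.lf 85 0) (.lf 95 0))) (.cn 1 3 (.lf 49 1) (.lf 50 1)) (.cn 1 3 (.lf 51 1) (.lf 96 0))) (.st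 2 3 (.cn 1 3 (.lf 84 1) (.cn 0 3 (.lf 85 0) t108)) (.cn 1 3 (.lf 110 1) (.cn 0 3 (.lf 111 0) (.lf 112 0))) (.xx 2 3)))) (.xx 1 2)))

/-- a part of a tree -/
def t110 : Tr := (.st 5 6 (.cn 4 6 (.lf 2 4) (.lf 3 4)) (.cn 4 6 (.lf 94 4) (.cn 3 6 (.cn 2 6 (.lf 201 2) (.cn 1 6 (.cn 0 6 (.lf 244 0) (.st 6 7 (.cn 5 7 (.lf 84 5) (.cn 4 7 (.lf 85 4) (.lf 95 4))) (.vi 44) (.cn 5 7 (.lf 51 5) (.lf 96 4)))) (.cn 0 6 (.lf 123 0) (.st 6 7 (.cn 5 7 (.lf 84 5) (.cn 4 7 (.lf 85 4) (.lf 95 4))) (.vi 44) (.cn 5 7 (.lf 51 5) (.lf 96 4)))))) (.cn 2 6 (.lf 125 2) (.cn 1 6 (.cn 0 6 (.lf 244 0) (.st 6 7 (.cn 5 7 (.lf 84 5) (.cn 4 7 (.lf 85 4) (.lf 95 4))) (.vi 44) (.cn 5 7 (.lf 51 5) (.lf 96 4)))) (.cn 0 6 (.lf 123 0) (.st 6 7 (.cn 5 7 (.lf 84 5) (.cn 4 7 (.lf 85 4) (.lf 95 4))) (.vi 44) (.cn 5 7 (.lf 51 5) (.lf 96 4)))))))) (.xx 5 6))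

/-- a part of a tree -/
def t111 : Tr := (.st 4 5 (.cn 3 5 (.lf 4 3) (.cn 2 5 (.lf 116 2) (.cn 1 5 (.lf 117 1) (.cn 0 5 (.lf 118 0) (.bt 102 (.st 5 6 (.cn 4 6 (.lf 2 4) (.lf 3 4)) (.cn 4 6 (.cn 3 6 (.lf 119 3) (.lf 120 3)) (.lf 56 4)) (.cn 4 6 (.cn 3 6 (.lf 121 3) (.cn 2 6 (.cn 1 6 (.lf 242 1) (.lf 122 1)) (.cn 1 6 (.lf 243 1) (.cn 0 6 (.lf 123 0) (.st 6 7 (.lf 0 6) (.vi 44) (.xx 6 7)))))) (.cn 3 6 (.lf 124 3) (.cn 2 6 (.lf 125 2) (.cn 1 6 (.cn 0 6 (.lf 244 0) (.st 6 7 (.lf 0 6) (.vi 44) (.xx 6 7))) (.cn 0 6 (.lf 123 0) (.st 6 7 (.lf 0 6) (.vi 44) (.xx 6 7)))))))) t110))))) (.cn 3 5 (.cn 2 5 (.lf 126 2) (.lf 127 2)) (.lf 9 3)) (.cn 3 5 (.lf 10 3) (.cn 2 5 (.lf 128 2) (.lf 129 2))))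

/-- a part of a tree -/
def t112 : Tr := (.bt 102 (.st 5 6 (.cn 4 6 (.lf 37 4) (.lf 38 4)) (.cn 4 6 (.lf 39 4) (.cn 3 6 (.lf 80 3) (.cn 2 6 (.lf 138 2) (.lf 98 2)))) (.cn 4 6 (.lf 41 4) (.cn 3 6 (.lf 42 3) (.cn 2 6 (.lf 139 2) (.lf 98 2))))) (.st 5 6 (.cn 4 6 (.lf 44 4) (.cn 3 6 (.lf 82 3) (.cn 2 6 (.cn 1 6 (.cn 0 6 (.st 6 7 (.vi 45) (.cn 5 7 (.lf 39 5) (.cn 4 7 (.lf 100 4) (.lf 101 4))) (.cn 5 7 (.lf 41 5) (.cn 4 7 (.lf 102 4) (.lf 101 4)))) (.lf 245 0)) (.cn 0 6 (.st 6 7 (.vi 45) (.cn 5 7 (.lf 39 5) (.cn 4 7 (.lf 100 4) (.lf 101 4))) (.cn 5 7 (.lf 41 5) (.cn 4 7 (.lf 102 4) (.lf 101 4)))) (.lf 246 0))) (.lf 223 2)))) (.cn 4 6 (.lf 39 4) (.cn 3 6 (.lf 80 3) (.cn 2 6 (.lf 138 2) (.lf 109 2)))) (.xx 5 6)))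

/-- a part of a tree -/
def t113 : Tr := (.bt 68 (.st 3 4 (.cn 2 4 (.cn 1 4 (.lf 113 1) (.lf 114 1)) (.lf 115 1)) (.cn 2 4 (.cn 1 4 (.cn 0 4 (.bt 85 (.st 4 5 (.lf 0 4) (.lf 1 4) (.xx 4 5)) t111) (.lf 130 0)) (.lf 131 1)) (.cn 1 4 (.lf 132 1) (.lf 133 1))) (.vi 50)) (.st 3 4 (.cn 2 4 (.lf 35 2) (.lf 115 1)) (.cn 2 4 (.lf 55 2) (.cn 1 4 (.lf 132 1) (.cn 0 4 (.lf 134 0) (.bt 85 (.st 4 5 (.cn 3 5 (.lf 84 3) (.lf 135 2)) (.cn 3 5 (.lf 49 3) (.lf 50 3)) (.cn 3 5 (.lf 51 3) (.cn 2 5 (.lf 52 2) (.lf 95 2)))) (.st 4 5 (.cn 3 5 (.lf 84 3) (.cn 2 5 (.lf 136 2) (.cn 1 5 (.lf 137 1) (.cn 0 5 (.lf 118 0) t112)))) (.cn 3 5 (.lf 110 3) (.cn 2 5 (.lf 140 2) (.lf 112 2))) (.xx 4 5)))))) (.xx 3 4)))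

/-- a part of a tree -/
def t114 : Tr := (.cn 0 5 (.bt 102 (.st 5 6 (.cn 4 6 (.lf 37 4) (.lf 38 4)) (.cn 4 6 (.lf 39 4) (.cn 3 6 (.lf 80 3) (.cn 2 6 (.lf 97 2) (.lf 98 2)))) (.cn 4 6 (.lf 41 4) (.cn 3 6 (.lf 42 3) (.cn 2 6 (.lf 99 2) (.lf 98 2))))) (.st 5 6 (.cn 4 6 (.lf 44 4) (.cn 3 6 (.lf 82 3) (.cn 2 6 (.cn 1 6 (.lf 247 1) (.cn 0 6 (.lf 248 0) (.lf 249 0))) (.lf 108 2)))) (.cn 4 6 (.lf 39 4) (.cn 3 6 (.lf 80 3) (.cn 2 6 (.lf 97 2) (.lf 109 2)))) (.xx 5 6))) (.bt 102 (.st 5 6 (.cn 4 6 (.lf 37 4) (.lf 38 4)) (.cn 4 6 (.lf 39 4) (.cn 3 6 (.lf 80 3) (.cn 2 6 (.lf 97 2) (.lf 98 2)))) (.cn 4 6 (.lf 41 4) (.cn 3 6 (.lf 42 3) (.cn 2 6 (.lf 99 2) (.lf 98 2))))) (.st 5 6 (.cn 4 6 (.lf 44 4) (.cn 3 6 (.lf 82 3) (.cn 2 6 (.cn 1 6 (.lf 247 1) (.cn 0 6 (.st 6 7 (.vi 45) (.cn 5 7 (.lf 39 5) (.cn 4 7 (.lf 100 4) (.lf 101 4))) (.cn 5 7 (.lf 41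 5) (.cn 4 7 (.lf 102 4) (.lf 101 4)))) (.lf 249 0))) (.lf 108 2)))) (.cn 4 6 (.lf 39 4) (.cn 3 6 (.lf 80 3) (.cn 2 6 (.lf 97 2) (.lf 109 2)))) (.xx 5 6))))

/-- a part of a tree -/
def t115 : Tr := (.cn 0 5 (.bt 102 (.st 5 6 (.cn 4 6 (.lf 37 4) (.lf 38 4)) (.cn 4 6 (.lf 39 4) (.cn 3 6 (.lf 80 3) (.cn 2 6 (.lf 97 2) (.lf 98 2)))) (.cn 4 6 (.lf 41 4) (.cn 3 6 (.lf 42 3) (.cn 2 6 (.lf 99 2) (.lf 98 2))))) (.st 5 6 (.cn 4 6 (.lf 44 4) (.cn 3 6 (.lf 82 3) (.cn 2 6 (.cn 1 6 (.lf 247 1) (.cn 0 6 (.lf 248 0) (.lf 249 0))) (.lf 108 2)))) (.cn 4 6 (.lf 39 4) (.cn 3 6 (.lf 80 3) (.cn 2 6 (.lf 97 2) (.lf 109 2)))) (.xx 5 6))) (.bt 102 (.st 5 6 (.cn 4 6 (.lf 37 4) (.lf 38 4)) (.cn 4 6 (.lf 39 4) (.cn 3 6 (.lf 80 3) (.cn 2 6 (.lf 97 2) (.lf 98 2)))) (.cn 4 6 (.lf 41 4) (.cn 3 6 (.lf 42 3) (.cn 2 6 (.lf 99 2) (.lf 98 2))))) (.st 5 6 (.cn 4 6 (.lf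 44 4) (.cn 3 6 (.lf 82 3) (.cn 2 6 (.cn 1 6 (.lf 247 1) (.cn 0 6 (.st 6 7 (.vi 45) (.cn 5 7 (.lf 39 5) (.cn 4 7 (.lf 100 4) (.lf 101 4))) (.cn 5 7 (.lf 41 5) (.cn 4 7 (.lf 102 4) (.lf 101 4)))) (.lf 249 0))) (.lf 108 2)))) (.cn 4 6 (.lf 39 4) (.cn 3 6 (.lf 80 3) (.cn 2 6 (.lf 97 2) (.lf 109 2)))) (.xx 5 6))))

/-- a part of a tree -/
def t116 : Tr := (.cn 2 4 (.lf 94 2) (.cn 1 4 (.cn 0 4 (.lf 149 0) (.bt 85 (.st 4 5 (.cn 3 5 (.lf 84 3) (.cn 2 5 (.lf 85 2) (.lf 95 2))) (.cn 3 5 (.lf 49 3) (.lf 50 3)) (.cn 3 5 (.lf 51 3) (.lf 96 2))) (.st 4 5 (.cn 3 5 (.lf 84 3) (.cn 2 5 (.lf 85 2) (.cn 1 5 (.lf 150 1) t114))) (.cn 3 5 (.lf 110 3) (.cn 2 5 (.lf 111 2) (.lf 112 2))) (.xx 4 5)))) (.cn 0 4 (.lf 151 0) (.bt 85 (.st 4 5 (.cn 3 5 (.lf 84 3) (.cn 2 5 (.lf 85 2) (.lf 95 2))) (.cn 3 5 (.lf 49 3) (.lf 50 3)) (.cn 3 5 (.lf 51 3) (.lf 96 2))) (.st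 4 5 (.cn 3 5 (.lf 84 3) (.cn 2 5 (.lf 85 2) (.cn 1 5 (.lf 152 1) t115))) (.cn 3 5 (.lf 110 3) (.cn 2 5 (.lf 111 2) (.lf 112 2))) (.xx 4 5))))))

/-- a part of a tree -/
def t117 : Tr := (.bt 68 (.st 3 4 (.cn 2 4 (.lf 2 2) (.lf 3 2)) (.cn 2 4 (.cn 1 4 (.lf 119 1) (.cn 0 4 (.bt 85 (.st 4 5 (.lf 0 4) (.lf 1 4) (.xx 4 5)) (.st 4 5 (.cn 3 5 (.lf 4 3) (.cn 2 5 (.lf 5 2) (.lf 6 2))) (.cn 3 5 (.cn 2 5 (.lf 7 2) (.lf 8 2)) (.lf 9 3)) (.cn 3 5 (.lf 10 3) (.cn 2 5 (.lf 5 2) (.cn 1 5 (.cn 0 5 (.lf 141 0) (.lf 142 0)) (.cn 0 5 (.lf 143 0) (.lf 142 0))))))) (.lf 144 0))) (.lf 56 2)) (.cn 2 4 (.cn 1 4 (.lf 145 1) (.lf 146 1)) (.cn 1 4 (.lf 147 1) (.cn 0 4 (.lf 148 0) (.bt 85 (.st 4 5 (.lf 0 4) (.lf 1 4) (.xx 4 5)) (.st 4 5 (.cn 3 5 (.lf 57 3) (.lf 91 2)) (.cn 3 5 (.lf 60 3) (.cn 2 5 (.lf 92 2) (.lf 93 2))) (.vi 51))))))) (.st 3 4 (.cn 2 4 (.lf 2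 2) (.lf 3 2)) t116 (.xx 3 4)))

/-- a part of a tree -/
def t118 : Tr := (.bt 102 (.st 5 6 (.cn 4 6 (.lf 37 4) (.lf 38 4)) (.cn 4 6 (.lf 39 4) (.cn 3 6 (.lf 80 3) (.cn 2 6 (.cn 1 6 (.lf 250 1) (.cn 0 6 (.lf 251 0) (.st 6 7 (.lf 0 6) (.vi 44) (.xx 6 7)))) (.lf 252 2)))) (.cn 4 6 (.lf 41 4) (.cn 3 6 (.lf 42 3) (.cn 2 6 (.cn 1 6 (.lf 250 1) (.cn 0 6 (.lf 253 0) (.st 6 7 (.lf 0 6) (.vi 44) (.xx 6 7)))) (.lf 254 2))))) (.st 5 6 (.cn 4 6 (.lf 44 4) (.cn 3 6 (.lf 82 3) (.cn 2 6 (.cn 1 6 (.lf 250 1) (.cn 0 6 (.lf 253 0) (.st 6 7 (.cn 5 7 (.lf 37 5) (.lf 38 5)) (.vi 44) (.cn 5 7 (.lf 41 5) (.cn 4 7 (.lf 102 4) (.lf 101 4)))))) (.lf 255 2)))) (.cn 4 6 (.lf 39 4) (.cn 3 6 (.lf 80 3) (.cn 2 6 (.cn 1 6 (.lf 250 1) (.cn 0 6 (.lf 251 0) (.st 6 7 (.cn 5 7 (.lf 84 5) (.cn 4 7 (.lf 85 4) (.cn 3 7 (.lf 86 3) (.lf 256 3)))) (.vi 44) (.cn 5 7 (.lf 51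 5) (.cn 4 7 (.lf 52 4) (.cn 3 7 (.lf 87 3) (.lf 256 3))))))) (.lf 257 2)))) (.xx 5 6)))

/-- a part of a tree -/
def t119 : Tr := (.bt 68 (.st 3 4 (.cn 2 4 (.lf 84 2) (.cn 1 4 (.lf 85 1) (.cn 0 4 (.lf 86 0) (.lf 54 0)))) (.cn 2 4 (.lf 49 2) (.lf 50 2)) (.cn 2 4 (.lf 51 2) (.cn 1 4 (.lf 52 1) (.cn 0 4 (.lf 87 0) (.lf 54 0))))) (.st 3 4 (.cn 2 4 (.lf 84 2) (.cn 1 4 (.lf 85 1) (.cn 0 4 (.lf 86 0) (.lf 156 0)))) (.cn 2 4 (.lf 110 2) (.cn 1 4 (.lf 111 1) (.cn 0 4 (.bt 85 (.st 4 5 (.cn 3 5 (.lf 84 3) (.cn 2 5 (.lf 157 2) (.lf 158 2))) (.cn 3 5 (.lf 49 3) (.lf 50 3)) (.cn 3 5 (.lf 51 3) (.cn 2 5 (.lf 159 2) (.lf 158 2)))) (.st 4 5 (.cn 3 5 (.lf 84 3) (.cn 2 5 (.lf 157 2) (.cn 1 5 (.lf 160 1) (.cn 0 5 (.lf 161 0) t118)))) (.cn 3 5 (.lf 110 3) (.cn 2 5 (.lf 163 2) (.lf 164 2))) (.xx 4 5))) (.lf 165 0)))) (.xx 3 4)))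

/-- a part of a tree -/
def t120 : Tr := (.bt 34 (.st 1 2 (.cn 0 2 (.bt 51 (.st 2 3 (.lf 0 2) (.lf 1 2) (.xx 2 3)) (.st 2 3 (.cn 1 3 (.cn 0 3 (.lf 62 0) (.lf 63 0)) (.lf 13 1)) (.cn 1 3 (.lf 14 1) (.cn 0 3 (.lf 64 0) (.lf 65 0))) (.cn 1 3 (.lf 25 1) (.cn 0 3 (.lf 64 0) t113)))) (.lf 70 0)) (.cn 0 2 (.lf 18 0) (.lf 19 0)) (.cn 0 2 (.bt 51 (.st 2 3 (.lf 0 2) (.lf 1 2) (.xx 2 3)) (.st 2 3 (.cn 1 3 (.lf 57 1) (.cn 0 3 t117 (.lf 153 0))) (.cn 1 3 (.lf 60 1) (.cn 0 3 (.lf 154 0) (.lf 155 0))) (.vi 49))) (.bt 51 (.st 2 3 (.lf 0 2) (.lf 1 2) (.xx 2 3)) (.st 2 3 (.cn 1 3 (.lf 57 1) (.cn 0 3 (.lf 75 0) (.lf 76 0))) (.cn 1 3 (.lf 60 1) (.lf 77 0)) (.vi 49))))) (.st 1 2 (.cn 0 2 (.lf 78 0) (.bt 51 (.st 2 3 (.cn 1 3 (.lf 37 1) (.lf 38 1)) (.cn 1 3 (.lf 39 1) (.cn 0 3 (.lf 80 0) (.lf 43 0))) (.cn 1 3 (.lf 41 1) (.lf 81 0))) (.st 2 3 (.cn 1 3 (.lf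 44 1) (.cn 0 3 (.lf 82 0) (.lf 46 0))) (.cn 1 3 (.lf 39 1) (.cn 0 3 (.lf 80 0) t119)) (.xx 2 3)))) (.cn 0 2 (.lf 18 0) (.lf 19 0)) (.xx 1 2)))

/-- a part of a tree -/
def t121 : Tr := (.cn 0 5 (.lf 170 0) (.bt 102 (.st 5 6 (.cn 4 6 (.lf 2 4) (.lf 3 4)) (.cn 4 6 (.cn 3 6 (.lf 119 3) (.cn 2 6 (.cn 1 6 (.lf 258 1) (.cn 0 6 (.lf 171 0) (.st 6 7 (.lf 0 6) (.vi 44) (.xx 6 7)))) (.lf 144 2))) (.lf 56 4)) (.cn 4 6 (.cn 3 6 (.lf 145 3) (.lf 146 3)) (.cn 3 6 (.lf 147 3) (.cn 2 6 (.lf 148 2) (.cn 1 6 (.cn 0 6 (.lf 173 0) (.lf 259 0)) (.cn 0 6 (.lf 174 0) (.lf 260 0))))))) (.st 5 6 (.cn 4 6 (.lf 2 4) (.lf 3 4)) (.cn 4 6 (.lf 94 4) (.cn 3 6 (.cn 2 6 (.lf 149 2) (.cn 1 6 (.cn 0 6 (.lf 173 0) (.lf 261 0)) (.cn 0 6 (.lf 174 0) (.lf 261 0)))) (.cn 2 6 (.lf 151 2) (.cn 1 6 (.cn 0 6 (.lf 173 0) (.lf 259 0)) (.cn 0 6 (.lf 174 0) (.lf 262 0)))))) (.xx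 5 6))))

/-- a part of a tree -/
def t122 : Tr := (.cn 2 4 (.cn 1 4 (.lf 20 1) (.cn 0 4 (.bt 85 (.st 4 5 (.lf 0 4) (.lf 1 4) (.xx 4 5)) (.st 4 5 (.cn 3 5 (.lf 57 3) (.cn 2 5 (.cn 1 5 (.lf 167 1) (.cn 0 5 (.lf 168 0) (.lf 169 0))) (.lf 153 2))) (.cn 3 5 (.lf 60 3) (.cn 2 5 (.lf 154 2) (.lf 155 2))) (.vi 51))) (.bt 85 (.st 4 5 (.lf 0 4) (.lf 1 4) (.xx 4 5)) (.st 4 5 (.cn 3 5 (.lf 57 3) (.cn 2 5 (.cn 1 5 (.lf 167 1) t121) (.lf 153 2))) (.cn 3 5 (.lf 60 3) (.cn 2 5 (.lf 154 2) (.lf 155 2))) (.vi 51))))) (.cn 1 4 (.lf 23 1) (.cn 0 4 (.lf 24 0) (.bt 85 (.st 4 5 (.lf 0 4) (.lf 1 4) (.xx 4 5)) (.st 4 5 (.cn 3 5 (.lf 57 3) (.cn 2 5 (.lf 75 2) (.lf 76 2))) (.cn 3 5 (.lf 60 3) (.lf 77 2)) (.vi 51))))))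

/-- a part of a tree -/
def t123 : Tr := (.st 4 5 (.cn 3 5 (.lf 44 3) (.cn 2 5 (.lf 82 2) (.lf 46 2))) (.cn 3 5 (.lf 39 3) (.cn 2 5 (.lf 80 2) (.cn 1 5 (.lf 83 1) (.cn 0 5 (.lf 176 0) (.bt 102 (.st 5 6 (.cn 4 6 (.lf 84 4) (.cn 3 6 (.lf 85 3) (.cn 2 6 (.lf 86 2) (.lf 54 2)))) (.cn 4 6 (.lf 49 4) (.lf 50 4)) (.cn 4 6 (.lf 51 4) (.cn 3 6 (.lf 52 3) (.cn 2 6 (.lf 87 2) (.lf 54 2))))) (.st 5 6 (.cn 4 6 (.lf 84 4) (.cn 3 6 (.lf 85 3) (.cn 2 6 (.lf 86 2) (.lf 156 2)))) (.cn 4 6 (.lf 110 4) (.cn 3 6 (.lf 111 3) (.cn 2 6 (.cn 1 6 (.lf 263 1) (.cn 0 6 (.st 6 7 (.vi 45) (.cn 5 7 (.lf 49 5) (.lf 50 5)) (.cn 5 7 (.lf 51 5) (.cn 4 7 (.lf 159 4) (.lf 158 4)))) (.lf 264 0))) (.lf 165 2)))) (.xx 5 6))))))) (.xx 4 5))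

/-- a part of a tree -/
def t124 : Tr := (.st 4 5 (.cn 3 5 (.lf 44 3) (.cn 2 5 (.lf 82 2) (.lf 46 2))) (.cn 3 5 (.lf 39 3) (.cn 2 5 (.lf 80 2) (.cn 1 5 (.lf 177 1) (.cn 0 5 (.lf 176 0) (.bt 102 (.st 5 6 (.cn 4 6 (.lf 84 4) (.cn 3 6 (.lf 85 3) (.cn 2 6 (.lf 86 2) (.lf 54 2)))) (.cn 4 6 (.lf 49 4) (.lf 50 4)) (.cn 4 6 (.lf 51 4) (.cn 3 6 (.lf 52 3) (.cn 2 6 (.lf 87 2) (.lf 54 2))))) (.st 5 6 (.cn 4 6 (.lf 84 4) (.cn 3 6 (.lf 85 3) (.cn 2 6 (.lf 86 2) (.lf 156 2)))) (.cn 4 6 (.lf 110 4) (.cn 3 6 (.lf 111 3) (.cn 2 6 (.cn 1 6 (.lf 263 1) (.cn 0 6 (.st 6 7 (.vi 45) (.cn 5 7 (.lf 49 5) (.lf 50 5)) (.cn 5 7 (.lf 51 5) (.cn 4 7 (.lf 159 4) (.lf 158 4)))) (.lf 264 0))) (.lf 165 2)))) (.xx 5 6))))))) (.xx 4 5))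

/-- a part of a tree -/
def t125 : Tr := (.st 2 3 (.cn 1 3 (.cn 0 3 (.lf 11 0) (.lf 12 0)) (.lf 13 1)) (.cn 1 3 (.lf 14 1) (.cn 0 3 (.lf 15 0) (.bt 68 (.st 3 4 (.cn 2 4 (.cn 1 4 (.lf 61 1) (.lf 166 1)) (.lf 70 2)) (.cn 2 4 (.lf 18 2) (.lf 19 2)) t122) (.st 3 4 (.cn 2 4 (.lf 78 2) (.cn 1 4 (.cn 0 4 (.lf 175 0) (.bt 85 (.st 4 5 (.cn 3 5 (.lf 37 3) (.lf 38 3)) (.cn 3 5 (.lf 39 3) (.cn 2 5 (.lf 80 2) (.lf 43 2))) (.cn 3 5 (.lf 41 3) (.lf 81 2))) t123)) (.cn 0 4 (.lf 24 0) (.bt 85 (.st 4 5 (.cn 3 5 (.lf 37 3) (.lf 38 3)) (.cn 3 5 (.lf 39 3) (.cn 2 5 (.lf 80 2) (.lf 43 2))) (.cn 3 5 (.lf 41 3) (.lf 81 2))) t124)))) (.cn 2 4 (.lf 18 2) (.lf 19 2)) (.xx 3 4))))) (.cn 1 3 (.lf 25 1) (.cn 0 3 (.lf 26 0) (.lf 27 0))))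

/-- a part of a tree -/
def t126 : Tr := (.cn 0 5 (.bt 102 (.st 5 6 (.cn 4 6 (.lf 2 4) (.lf 3 4)) (.cn 4 6 (.cn 3 6 (.lf 119 3) (.cn 2 6 (.cn 1 6 (.lf 258 1) (.cn 0 6 (.lf 224 0) (.st 6 7 (.lf 0 6) (.vi 44) (.xx 6 7)))) (.lf 144 2))) (.lf 56 4)) (.cn 4 6 (.cn 3 6 (.lf 145 3) (.lf 146 3)) (.cn 3 6 (.lf 147 3) (.cn 2 6 (.lf 148 2) (.lf 183 0))))) (.st 5 6 (.cn 4 6 (.lf 2 4) (.lf 3 4)) (.cn 4 6 (.lf 94 4) (.cn 3 6 (.cn 2 6 (.lf 149 2) (.cn 1 6 (.lf 184 0) (.cn 0 6 (.lf 185 0) (.lf 261 0)))) (.cn 2 6 (.lf 151 2) (.cn 1 6 (.lf 184 0) (.cn 0 6 (.lf 185 0) (.st 6 7 (.cn 5 7 (.lf 84 5) (.cn 4 7 (.lf 85 4) (.lf 95 4))) (.vi 44) (.cn 5 7 (.lf 51 5) (.lf 96 4)))))))) (.xx 5 6))) (.bt 102 (.st 5 6 (.cn 4 6 (.lf 2 4) (.lf 3 4)) (.cn 4 6 (.cn 3 6 (.lf 119 3) (.cn 2 6 (.cn 1 6 (.lf 258 1) (.cn 0 6 (.lf 171 0) (.st 6 7 (.lf 0 6) (.vi 44) (.xx 6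 7)))) (.lf 144 2))) (.lf 56 4)) (.cn 4 6 (.cn 3 6 (.lf 145 3) (.lf 146 3)) (.cn 3 6 (.lf 147 3) (.cn 2 6 (.lf 148 2) (.cn 1 6 (.lf 184 0) (.cn 0 6 (.lf 185 0) (.lf 260 0))))))) (.st 5 6 (.cn 4 6 (.lf 2 4) (.lf 3 4)) (.cn 4 6 (.lf 94 4) (.cn 3 6 (.cn 2 6 (.lf 149 2) (.cn 1 6 (.lf 184 0) (.cn 0 6 (.lf 185 0) (.lf 261 0)))) (.cn 2 6 (.lf 151 2) (.cn 1 6 (.lf 184 0) (.cn 0 6 (.lf 185 0) (.lf 262 0)))))) (.xx 5 6))))

/-- a part of a tree -/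
def t127 : Tr := (.st 4 5 (.cn 3 5 (.lf 44 3) (.cn 2 5 (.lf 82 2) (.lf 46 2))) (.cn 3 5 (.lf 39 3) (.cn 2 5 (.lf 80 2) (.cn 1 5 (.lf 83 1) (.cn 0 5 (.lf 106 0) (.bt 102 (.st 5 6 (.cn 4 6 (.lf 84 4) (.cn 3 6 (.lf 85 3) (.cn 2 6 (.lf 86 2) (.lf 54 2)))) (.cn 4 6 (.lf 49 4) (.lf 50 4)) (.cn 4 6 (.lf 51 4) (.cn 3 6 (.lf 52 3) (.cn 2 6 (.lf 87 2) (.lf 54 2))))) (.st 5 6 (.cn 4 6 (.lf 84 4) (.cn 3 6 (.lf 85 3) (.cn 2 6 (.lf 86 2) (.lf 156 2)))) (.cn 4 6 (.lf 110 4) (.cn 3 6 (.lf 111 3) (.cn 2 6 (.cn 1 6 (.lf 263 1) (.cn 0 6 (.lf 265 0) (.st 6 7 (.cn 5 7 (.lf 84 5) (.cn 4 7 (.lf 157 4) (.lf 158 4))) (.vi 44) (.cn 5 7 (.lf 51 5) (.cn 4 7 (.lf 159 4) (.lf 158 4)))))) (.lf 165 2)))) (.xx 5 6))))))) (.xx 4 5))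

/-- a part of a tree -/
def t128 : Tr := (.bt 68 (.st 3 4 (.cn 2 4 (.cn 1 4 (.lf 61 1) (.lf 166 1)) (.lf 70 2)) (.cn 2 4 (.lf 18 2) (.lf 19 2)) (.cn 2 4 (.cn 1 4 (.lf 20 1) (.cn 0 4 (.lf 181 0) (.bt 85 (.st 4 5 (.lf 0 4) (.lf 1 4) (.xx 4 5)) (.st 4 5 (.cn 3 5 (.lf 57 3) (.cn 2 5 (.cn 1 5 (.lf 167 1) t126) (.lf 153 2))) (.cn 3 5 (.lf 60 3) (.cn 2 5 (.lf 154 2) (.lf 155 2))) (.vi 51))))) (.cn 1 4 (.lf 23 1) (.cn 0 4 (.lf 186 0) (.lf 54 0))))) (.st 3 4 (.cn 2 4 (.lf 78 2) (.cn 1 4 (.cn 0 4 (.bt 85 (.st 4 5 (.cn 3 5 (.lf 37 3) (.lf 38 3)) (.cn 3 5 (.lf 39 3) (.cn 2 5 (.lf 80 2) (.lf 43 2))) (.cn 3 5 (.lf 41 3) (.lf 81 2))) t127) (.lf 187 0)) (.lf 188 0))) (.cn 2 4 (.lf 18 2) (.lf 19 2)) (.xx 3 4)))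

/-- a part of a tree -/
def t129 : Tr := (.bt 102 (.st 5 6 (.cn 4 6 (.lf 2 4) (.lf 3 4)) (.cn 4 6 (.cn 3 6 (.lf 119 3) (.lf 120 3)) (.lf 56 4)) (.cn 4 6 (.cn 3 6 (.lf 121 3) (.cn 2 6 (.cn 1 6 (.lf 242 1) (.lf 122 1)) (.cn 1 6 (.lf 243 1) (.cn 0 6 (.lf 172 0) (.lf 270 0))))) (.cn 3 6 (.lf 124 3) (.cn 2 6 (.lf 125 2) (.cn 1 6 (.lf 267 0) (.cn 0 6 (.lf 192 0) (.lf 270 0))))))) (.st 5 6 (.cn 4 6 (.lf 2 4) (.lf 3 4)) (.cn 4 6 (.lf 94 4) (.cn 3 6 (.cn 2 6 (.lf 201 2) (.cn 1 6 (.lf 267 0) (.cn 0 6 (.st 6 7 (.vi 45) (.cn 5 7 (.lf 49 5) (.lf 50 5)) (.cn 5 7 (.lf 51 5) (.lf 96 4))) (.lf 262 0)))) (.cn 2 6 (.lf 125 2) (.cn 1 6 (.lf 267 0) (.cn 0 6 (.st 6 7 (.vi 45) (.cn 5 7 (.lf 49 5) (.lf 50 5)) (.cn 5 7 (.lf 51 5) (.lf 96 4))) (.lf 262 0)))))) (.xx 5 6)))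

/-- a part of a tree -/
def t130 : Tr := (.cn 1 5 (.lf 117 1) (.cn 0 5 (.bt 102 (.st 5 6 (.cn 4 6 (.lf 2 4) (.lf 3 4)) (.cn 4 6 (.cn 3 6 (.lf 119 3) (.lf 120 3)) (.lf 56 4)) (.cn 4 6 (.cn 3 6 (.lf 121 3) (.cn 2 6 (.cn 1 6 (.lf 242 1) (.lf 122 1)) (.cn 1 6 (.lf 243 1) (.cn 0 6 (.lf 182 0) (.lf 266 0))))) (.cn 3 6 (.lf 124 3) (.cn 2 6 (.lf 125 2) (.lf 191 0))))) (.st 5 6 (.cn 4 6 (.lf 2 4) (.lf 3 4)) (.cn 4 6 (.lf 94 4) (.cn 3 6 (.cn 2 6 (.lf 201 2) (.cn 1 6 (.lf 267 0) (.cn 0 6 (.lf 268 0) (.lf 269 0)))) (.cn 2 6 (.lf 125 2) (.cn 1 6 (.lf 267 0) (.cn 0 6 (.lf 268 0) (.st 6 7 (.cn 5 7 (.lf 84 5) (.cn 4 7 (.lf 85 4) (.lf 95 4))) (.vi 44) (.cn 5 7 (.lf 51 5) (.lf 96 4)))))))) (.xx 5 6))) t129))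

/-- a part of a tree -/
def t131 : Tr := (.bt 51 (.st 2 3 (.lf 0 2) (.lf 1 2) (.xx 2 3)) (.st 2 3 (.cn 1 3 (.cn 0 3 (.lf 178 0) (.lf 179 0)) (.lf 13 1)) (.cn 1 3 (.lf 14 1) (.cn 0 3 (.lf 180 0) t128)) (.cn 1 3 (.lf 25 1) (.cn 0 3 (.lf 189 0) (.bt 68 (.st 3 4 (.cn 2 4 (.cn 1 4 (.lf 113 1) (.lf 114 1)) (.lf 115 1)) (.cn 2 4 (.cn 1 4 (.cn 0 4 (.lf 190 0) (.bt 85 (.st 4 5 (.lf 0 4) (.lf 1 4) (.xx 4 5)) (.st 4 5 (.cn 3 5 (.lf 4 3) (.cn 2 5 (.lf 116 2) t130)) (.cn 3 5 (.cn 2 5 (.lf 126 2) (.lf 127 2)) (.lf 9 3)) (.cn 3 5 (.lf 10 3) (.cn 2 5 (.lf 128 2) (.lf 129 2)))))) (.lf 131 1)) (.lf 193 0)) (.vi 50)) (.st 3 4 (.cn 2 4 (.lf 35 2) (.lf 115 1)) (.cn 2 4 (.lf 55 2) (.lf 193 0)) (.xx 3 4)))))))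

/-- a part of a tree -/
def t132 : Tr := (.cn 0 5 (.lf 197 0) (.bt 102 (.st 5 6 (.cn 4 6 (.cn 3 6 (.lf 61 3) (.cn 2 6 (.cn 1 6 (.lf 271 1) (.cn 0 6 (.lf 225 0) (.st 6 7 (.lf 0 6) (.vi 44) (.xx 6 7)))) (.lf 69 2))) (.lf 70 4)) (.cn 4 6 (.lf 18 4) (.lf 19 4)) (.cn 4 6 (.cn 3 6 (.lf 71 3) (.lf 72 3)) (.cn 3 6 (.lf 73 3) (.cn 2 6 (.lf 74 2) (.cn 1 6 (.cn 0 6 (.lf 199 0) (.lf 259 0)) (.cn 0 6 (.lf 200 0) (.lf 272 0))))))) (.st 5 6 (.cn 4 6 (.lf 78 4) (.cn 3 6 (.cn 2 6 (.lf 79 2) (.cn 1 6 (.cn 0 6 (.lf 199 0) (.lf 261 0)) (.cn 0 6 (.lf 200 0) (.lf 261 0)))) (.cn 2 6 (.lf 88 2) (.cn 1 6 (.cn 0 6 (.lf 199 0) (.lf 259 0)) (.cn 0 6 (.lf 200 0) (.lf 273 0)))))) (.cn 4 6 (.lf 18 4) (.lf 19 4)) (.xx 5 6))))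

/-- a part of a tree -/
def t133 : Tr := (.cn 2 4 (.cn 1 4 (.lf 121 1) (.cn 0 4 (.bt 85 (.st 4 5 (.lf 0 4) (.lf 1 4) (.xx 4 5)) (.st 4 5 (.cn 3 5 (.lf 57 3) (.cn 2 5 (.lf 58 2) (.lf 59 2))) (.cn 3 5 (.lf 60 3) (.cn 2 5 (.cn 1 5 (.lf 194 1) (.cn 0 5 (.lf 195 0) (.lf 196 0))) (.lf 90 2))) (.vi 51))) (.bt 85 (.st 4 5 (.lf 0 4) (.lf 1 4) (.xx 4 5)) (.st 4 5 (.cn 3 5 (.lf 57 3) (.cn 2 5 (.lf 58 2) (.lf 59 2))) (.cn 3 5 (.lf 60 3) (.cn 2 5 (.cn 1 5 (.lf 194 1) t132) (.lf 90 2))) (.vi 51))))) (.cn 1 4 (.lf 124 1) (.cn 0 4 (.lf 125 0) (.bt 85 (.st 4 5 (.lf 0 4) (.lf 1 4) (.xx 4 5)) (.st 4 5 (.cn 3 5 (.lf 57 3) (.lf 91 2)) (.cn 3 5 (.lf 60 3) (.cn 2 5 (.lf 92 2) (.lf 93 2))) (.vi 51))))))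

/-- a part of a tree -/
def t134 : Tr := (.st 4 5 (.cn 3 5 (.lf 84 3) (.cn 2 5 (.lf 85 2) (.cn 1 5 (.lf 150 1) (.cn 0 5 (.lf 202 0) (.bt 102 (.st 5 6 (.cn 4 6 (.lf 37 4) (.lf 38 4)) (.cn 4 6 (.lf 39 4) (.cn 3 6 (.lf 80 3) (.cn 2 6 (.lf 97 2) (.lf 98 2)))) (.cn 4 6 (.lf 41 4) (.cn 3 6 (.lf 42 3) (.cn 2 6 (.lf 99 2) (.lf 98 2))))) (.st 5 6 (.cn 4 6 (.lf 44 4) (.cn 3 6 (.lf 82 3) (.cn 2 6 (.cn 1 6 (.lf 274 1) (.cn 0 6 (.st 6 7 (.vi 45) (.cn 5 7 (.lf 39 5) (.cn 4 7 (.lf 100 4) (.lf 101 4))) (.cn 5 7 (.lf 41 5) (.cn 4 7 (.lf 102 4) (.lf 101 4)))) (.lf 275 0))) (.lf 108 2)))) (.cn 4 6 (.lf 39 4) (.cn 3 6 (.lf 80 3) (.cn 2 6 (.lf 97 2) (.lf 109 2)))) (.xx 5 6))))))) (.cn 3 5 (.lf 110 3) (.cn 2 5 (.lf 111 2) (.lf 112 2))) (.xx 4 5))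

/-- a part of a tree -/
def t135 : Tr := (.st 4 5 (.cn 3 5 (.lf 84 3) (.cn 2 5 (.lf 85 2) (.cn 1 5 (.lf 203 1) (.cn 0 5 (.lf 202 0) (.bt 102 (.st 5 6 (.cn 4 6 (.lf 37 4) (.lf 38 4)) (.cn 4 6 (.lf 39 4) (.cn 3 6 (.lf 80 3) (.cn 2 6 (.lf 97 2) (.lf 98 2)))) (.cn 4 6 (.lf 41 4) (.cn 3 6 (.lf 42 3) (.cn 2 6 (.lf 99 2) (.lf 98 2))))) (.st 5 6 (.cn 4 6 (.lf 44 4) (.cn 3 6 (.lf 82 3) (.cn 2 6 (.cn 1 6 (.lf 274 1) (.cn 0 6 (.st 6 7 (.vi 45) (.cn 5 7 (.lf 39 5) (.cn 4 7 (.lf 100 4) (.lf 101 4))) (.cn 5 7 (.lf 41 5) (.cn 4 7 (.lf 102 4) (.lf 101 4)))) (.lf 275 0))) (.lf 108 2)))) (.cn 4 6 (.lf 39 4) (.cn 3 6 (.lf 80 3) (.cn 2 6 (.lf 97 2) (.lf 109 2)))) (.xx 5 6))))))) (.cn 3 5 (.lf 110 3) (.cn 2 5 (.lf 111 2) (.lf 112 2))) (.xx 4 5))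

/-- a part of a tree -/
def t136 : Tr := (.st 2 3 (.cn 1 3 (.lf 4 1) (.cn 0 3 (.lf 116 0) (.bt 68 (.st 3 4 (.cn 2 4 (.lf 2 2) (.lf 3 2)) (.cn 2 4 (.cn 1 4 (.lf 119 1) (.lf 120 1)) (.lf 56 2)) t133) (.st 3 4 (.cn 2 4 (.lf 2 2) (.lf 3 2)) (.cn 2 4 (.lf 94 2) (.cn 1 4 (.cn 0 4 (.lf 201 0) (.bt 85 (.st 4 5 (.cn 3 5 (.lf 84 3) (.cn 2 5 (.lf 85 2) (.lf 95 2))) (.cn 3 5 (.lf 49 3) (.lf 50 3)) (.cn 3 5 (.lf 51 3) (.lf 96 2))) t134)) (.cn 0 4 (.lf 125 0) (.bt 85 (.st 4 5 (.cn 3 5 (.lf 84 3) (.cn 2 5 (.lf 85 2) (.lf 95 2))) (.cn 3 5 (.lf 49 3) (.lf 50 3)) (.cn 3 5 (.lf 51 3) (.lf 96 2))) t135)))) (.xx 3 4))))) (.cn 1 3 (.cn 0 3 (.lf 126 0) (.lf 127 0)) (.lf 9 1)) (.cn 1 3 (.lf 10 1) (.cn 0 3 (.lf 128 0) (.lf 129 0))))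

/-- a part of a tree -/
def t137 : Tr := (.cn 0 5 (.bt 102 (.st 5 6 (.cn 4 6 (.cn 3 6 (.lf 61 3) (.cn 2 6 (.cn 1 6 (.lf 271 1) (.cn 0 6 (.lf 206 0) (.st 6 7 (.lf 0 6) (.vi 44) (.xx 6 7)))) (.lf 69 2))) (.lf 70 4)) (.cn 4 6 (.lf 18 4) (.lf 19 4)) (.cn 4 6 (.cn 3 6 (.lf 71 3) (.lf 72 3)) (.cn 3 6 (.lf 73 3) (.cn 2 6 (.lf 74 2) (.lf 208 0))))) (.st 5 6 (.cn 4 6 (.lf 78 4) (.cn 3 6 (.cn 2 6 (.lf 79 2) (.cn 1 6 (.lf 209 0) (.cn 0 6 (.lf 210 0) (.lf 261 0)))) (.cn 2 6 (.lf 88 2) (.cn 1 6 (.lf 209 0) (.cn 0 6 (.lf 210 0) (.st 6 7 (.cn 5 7 (.lf 37 5) (.lf 38 5)) (.vi 44) (.cn 5 7 (.lf 41 5) (.lf 81 4)))))))) (.cn 4 6 (.lf 18 4) (.lf 19 4)) (.xx 5 6))) (.bt 102 (.st 5 6 (.cn 4 6 (.cn 3 6 (.lf 61 3) (.cn 2 6 (.cn 1 6 (.lf 271 1) (.cn 0 6 (.lf 225 0) (.st 6 7 (.lf 0 6) (.vi 44) (.xx 6 7)))) (.lf 69 2))) (.lf 70 4)) (.cn 4 6 (.lf 18 4) (.lf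 19 4)) (.cn 4 6 (.cn 3 6 (.lf 71 3) (.lf 72 3)) (.cn 3 6 (.lf 73 3) (.cn 2 6 (.lf 74 2) (.cn 1 6 (.lf 209 0) (.cn 0 6 (.lf 210 0) (.lf 272 0))))))) (.st 5 6 (.cn 4 6 (.lf 78 4) (.cn 3 6 (.cn 2 6 (.lf 79 2) (.cn 1 6 (.lf 209 0) (.cn 0 6 (.lf 210 0) (.lf 261 0)))) (.cn 2 6 (.lf 88 2) (.cn 1 6 (.lf 209 0) (.cn 0 6 (.lf 210 0) (.lf 273 0)))))) (.cn 4 6 (.lf 18 4) (.lf 19 4)) (.xx 5 6))))

/-- a part of a tree -/
def t138 : Tr := (.st 4 5 (.cn 3 5 (.lf 84 3) (.cn 2 5 (.lf 85 2) (.cn 1 5 (.lf 150 1) (.cn 0 5 (.lf 161 0) (.bt 102 (.st 5 6 (.cn 4 6 (.lf 37 4) (.lf 38 4)) (.cn 4 6 (.lf 39 4) (.cn 3 6 (.lf 80 3) (.cn 2 6 (.lf 97 2) (.lf 98 2)))) (.cn 4 6 (.lf 41 4) (.cn 3 6 (.lf 42 3) (.cn 2 6 (.lf 99 2) (.lf 98 2))))) (.st 5 6 (.cn 4 6 (.lf 44 4) (.cn 3 6 (.lf 82 3) (.cn 2 6 (.cn 1 6 (.lf 274 1) (.cn 0 6 (.lf 265 0) (.st 6 7 (.cn 5 7 (.lf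 37 5) (.lf 38 5)) (.vi 44) (.cn 5 7 (.lf 41 5) (.cn 4 7 (.lf 102 4) (.lf 101 4)))))) (.lf 108 2)))) (.cn 4 6 (.lf 39 4) (.cn 3 6 (.lf 80 3) (.cn 2 6 (.lf 97 2) (.lf 109 2)))) (.xx 5 6))))))) (.cn 3 5 (.lf 110 3) (.cn 2 5 (.lf 111 2) (.lf 112 2))) (.xx 4 5))

/-- a part of a tree -/
def t139 : Tr := (.bt 68 (.st 3 4 (.cn 2 4 (.lf 2 2) (.lf 3 2)) (.cn 2 4 (.cn 1 4 (.lf 119 1) (.lf 120 1)) (.lf 56 2)) (.cn 2 4 (.cn 1 4 (.lf 121 1) (.cn 0 4 (.lf 205 0) (.bt 85 (.st 4 5 (.lf 0 4) (.lf 1 4) (.xx 4 5)) (.st 4 5 (.cn 3 5 (.lf 57 3) (.cn 2 5 (.lf 58 2) (.lf 59 2))) (.cn 3 5 (.lf 60 3) (.cn 2 5 (.cn 1 5 (.lf 194 1) t137) (.lf 90 2))) (.vi 51))))) (.cn 1 4 (.lf 124 1) (.cn 0 4 (.lf 211 0) (.lf 98 0))))) (.st 3 4 (.cn 2 4 (.lf 2 2) (.lf 3 2)) (.cn 2 4 (.lf 94 2) (.cn 1 4 (.cn 0 4 (.bt 85 (.st 4 5 (.cn 3 5 (.lf 84 3) (.cn 2 5 (.lf 85 2) (.lf 95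 2))) (.cn 3 5 (.lf 49 3) (.lf 50 3)) (.cn 3 5 (.lf 51 3) (.lf 96 2))) t138) (.lf 212 0)) (.lf 213 0))) (.xx 3 4)))

/-- a part of a tree -/
def t140 : Tr := (.bt 102 (.st 5 6 (.cn 4 6 (.cn 3 6 (.lf 61 3) (.lf 166 3)) (.lf 70 4)) (.cn 4 6 (.lf 18 4) (.lf 19 4)) (.cn 4 6 (.cn 3 6 (.lf 20 3) (.cn 2 6 (.cn 1 6 (.lf 21 1) (.lf 226 1)) (.cn 1 6 (.lf 227 1) (.cn 0 6 (.lf 198 0) (.lf 279 0))))) (.cn 3 6 (.lf 23 3) (.cn 2 6 (.lf 24 2) (.cn 1 6 (.lf 276 0) (.cn 0 6 (.lf 219 0) (.lf 279 0))))))) (.st 5 6 (.cn 4 6 (.lf 78 4) (.cn 3 6 (.cn 2 6 (.lf 175 2) (.cn 1 6 (.lf 276 0) (.cn 0 6 (.st 6 7 (.vi 45) (.cn 5 7 (.lf 39 5) (.cn 4 7 (.lf 80 4) (.lf 43 4))) (.cn 5 7 (.lf 41 5) (.lf 81 4))) (.lf 273 0)))) (.cn 2 6 (.lf 24 2) (.cn 1 6 (.lf 276 0) (.cn 0 6 (.st 6 7 (.vi 45) (.cn 5 7 (.lf 39 5) (.cn 4 7 (.lf 80 4) (.lf 43 4))) (.cn 5 7 (.lf 41 5) (.lf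 81 4))) (.lf 273 0)))))) (.cn 4 6 (.lf 18 4) (.lf 19 4)) (.xx 5 6)))

/-- a part of a tree -/
def t141 : Tr := (.cn 2 5 (.lf 15 2) (.cn 1 5 (.lf 16 1) (.cn 0 5 (.bt 102 (.st 5 6 (.cn 4 6 (.cn 3 6 (.lf 61 3) (.lf 166 3)) (.lf 70 4)) (.cn 4 6 (.lf 18 4) (.lf 19 4)) (.cn 4 6 (.cn 3 6 (.lf 20 3) (.cn 2 6 (.cn 1 6 (.lf 21 1) (.lf 226 1)) (.cn 1 6 (.lf 227 1) (.cn 0 6 (.lf 207 0) (.lf 266 0))))) (.cn 3 6 (.lf 23 3) (.cn 2 6 (.lf 24 2) (.lf 218 0))))) (.st 5 6 (.cn 4 6 (.lf 78 4) (.cn 3 6 (.cn 2 6 (.lf 175 2) (.cn 1 6 (.lf 276 0) (.cn 0 6 (.lf 277 0) (.lf 278 0)))) (.cn 2 6 (.lf 24 2) (.cn 1 6 (.lf 276 0) (.cn 0 6 (.lf 277 0) (.st 6 7 (.cn 5 7 (.lf 37 5) (.lf 38 5)) (.vi 44) (.cn 5 7 (.lf 41 5) (.lf 81 4)))))))) (.cn 4 6 (.lf 18 4) (.lf 19 4)) (.xx 5 6))) t140)))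

/-- a part of a tree -/
def t142 : Tr := (.bt 51 (.st 2 3 (.lf 0 2) (.lf 1 2) (.xx 2 3)) (.st 2 3 (.cn 1 3 (.lf 4 1) (.cn 0 3 (.lf 204 0) t139)) (.cn 1 3 (.cn 0 3 (.lf 214 0) (.lf 215 0)) (.lf 9 1)) (.cn 1 3 (.lf 10 1) (.cn 0 3 (.lf 216 0) (.bt 68 (.st 3 4 (.cn 2 4 (.cn 1 4 (.cn 0 4 (.lf 217 0) (.bt 85 (.st 4 5 (.lf 0 4) (.lf 1 4) (.xx 4 5)) (.st 4 5 (.cn 3 5 (.cn 2 5 (.lf 11 2) (.lf 12 2)) (.lf 13 3)) (.cn 3 5 (.lf 14 3) t141) (.cn 3 5 (.lf 25 3) (.cn 2 5 (.lf 26 2) (.lf 27 2)))))) (.lf 29 1)) (.lf 220 0)) (.cn 2 4 (.cn 1 4 (.lf 32 1) (.lf 33 1)) (.lf 34 1)) (.vi 50)) (.st 3 4 (.cn 2 4 (.lf 35 2) (.lf 220 0)) (.cn 2 4 (.lf 55 2) (.lf 34 1)) (.xx 3 4)))))))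

/-- a part of a tree -/
def t143 : Tr := (.bt 102 (.st 5 6 (.cn 4 6 (.lf 37 4) (.lf 38 4)) (.cn 4 6 (.lf 39 4) (.cn 3 6 (.lf 80 3) (.cn 2 6 (.cn 1 6 (.lf 250 1) (.cn 0 6 (.lf 253 0) (.st 6 7 (.lf 0 6) (.vi 44) (.xx 6 7)))) (.lf 252 2)))) (.cn 4 6 (.lf 41 4) (.cn 3 6 (.lf 42 3) (.cn 2 6 (.cn 1 6 (.lf 250 1) (.cn 0 6 (.lf 253 0) (.st 6 7 (.lf 0 6) (.vi 44) (.xx 6 7)))) (.lf 254 2))))) (.st 5 6 (.cn 4 6 (.lf 44 4) (.cn 3 6 (.lf 82 3) (.cn 2 6 (.cn 1 6 (.lf 250 1) (.cn 0 6 (.lf 253 0) (.st 6 7 (.cn 5 7 (.lf 37 5) (.lf 38 5)) (.vi 44) (.cn 5 7 (.lf 41 5) (.cn 4 7 (.lf 102 4) (.lf 101 4)))))) (.lf 255 2)))) (.cn 4 6 (.lf 39 4) (.cn 3 6 (.lf 80 3) (.cn 2 6 (.cn 1 6 (.lf 250 1) (.cn 0 6 (.lf 253 0) (.st 6 7 (.cn 5 7 (.lf 84 5) (.cn 4 7 (.lf 85 4) (.cn 3 7 (.lf 86 3) (.lf 256 3)))) (.vi 44) (.cn 5 7 (.lf 51 5) (.cn 4 7 (.lf 52 4) (.cn 3 7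 (.lf 87 3) (.lf 256 3))))))) (.lf 257 2)))) (.xx 5 6)))

/-- a part of a tree -/
def t144 : Tr := (.bt 68 (.st 3 4 (.cn 2 4 (.lf 84 2) (.cn 1 4 (.lf 85 1) (.cn 0 4 (.lf 221 0) (.lf 54 0)))) (.cn 2 4 (.lf 49 2) (.lf 50 2)) (.cn 2 4 (.lf 51 2) (.cn 1 4 (.lf 52 1) (.cn 0 4 (.lf 53 0) (.lf 54 0))))) (.st 3 4 (.cn 2 4 (.lf 84 2) (.cn 1 4 (.lf 85 1) (.cn 0 4 (.lf 221 0) (.lf 156 0)))) (.cn 2 4 (.lf 110 2) (.cn 1 4 (.lf 111 1) (.cn 0 4 (.bt 85 (.st 4 5 (.cn 3 5 (.lf 84 3) (.cn 2 5 (.lf 157 2) (.lf 158 2))) (.cn 3 5 (.lf 49 3) (.lf 50 3)) (.cn 3 5 (.lf 51 3) (.cn 2 5 (.lf 159 2) (.lf 158 2)))) (.st 4 5 (.cn 3 5 (.lf 84 3) (.cn 2 5 (.lf 157 2) (.cn 1 5 (.lf 160 1) (.cn 0 5 (.lf 161 0) t143)))) (.cn 3 5 (.lf 110 3) (.cn 2 5 (.lf 163 2) (.lf 164 2))) (.xx 4 5))) (.lf 222 0)))) (.xx 3 4)))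

/-- a part of a tree -/
def t145 : Tr := (.bt 102 (.st 5 6 (.cn 4 6 (.lf 84 4) (.cn 3 6 (.lf 85 3) (.cn 2 6 (.cn 1 6 (.lf 234 1) (.cn 0 6 (.lf 237 0) (.st 6 7 (.lf 0 6) (.vi 44) (.xx 6 7)))) (.lf 236 2)))) (.cn 4 6 (.lf 49 4) (.lf 50 4)) (.cn 4 6 (.lf 51 4) (.cn 3 6 (.lf 52 3) (.cn 2 6 (.cn 1 6 (.lf 234 1) (.cn 0 6 (.lf 237 0) (.st 6 7 (.lf 0 6) (.vi 44) (.xx 6 7)))) (.lf 238 2))))) (.st 5 6 (.cn 4 6 (.lf 84 4) (.cn 3 6 (.lf 85 3) (.cn 2 6 (.cn 1 6 (.lf 234 1) (.cn 0 6 (.lf 237 0) (.st 6 7 (.cn 5 7 (.lf 37 5) (.lf 38 5)) (.vi 44) (.cn 5 7 (.lf 41 5) (.cn 4 7 (.lf 42 4) (.cn 3 7 (.lf 99 3) (.lf 239 3))))))) (.lf 240 2)))) (.cn 4 6 (.lf 110 4) (.cn 3 6 (.lf 111 3) (.cn 2 6 (.cn 1 6 (.lf 234 1) (.cn 0 6 (.lf 237 0) (.st 6 7 (.cn 5 7 (.lf 84 5) (.cn 4 7 (.lf 157 4) (.lf 158 4))) (.vi 44) (.cn 5 7 (.lf 51 5) (.cn 4 7 (.lf 159 4) (.lf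 158 4)))))) (.lf 241 2)))) (.xx 5 6)))

/-- a part of a tree -/
def t146 : Tr := (.bt 68 (.st 3 4 (.cn 2 4 (.lf 37 2) (.lf 38 2)) (.cn 2 4 (.lf 39 2) (.cn 1 4 (.lf 80 1) (.cn 0 4 (.lf 138 0) (.lf 98 0)))) (.cn 2 4 (.lf 41 2) (.cn 1 4 (.lf 42 1) (.cn 0 4 (.lf 139 0) (.lf 98 0))))) (.st 3 4 (.cn 2 4 (.lf 44 2) (.cn 1 4 (.lf 82 1) (.cn 0 4 (.bt 85 (.st 4 5 (.cn 3 5 (.lf 37 3) (.lf 38 3)) (.cn 3 5 (.lf 39 3) (.cn 2 5 (.lf 100 2) (.lf 101 2))) (.cn 3 5 (.lf 41 3) (.cn 2 5 (.lf 102 2) (.lf 101 2)))) (.st 4 5 (.cn 3 5 (.lf 44 3) (.cn 2 5 (.lf 103 2) (.lf 104 2))) (.cn 3 5 (.lf 39 3) (.cn 2 5 (.lf 100 2) (.cn 1 5 (.lf 105 1) (.cn 0 5 (.lf 106 0) t145)))) (.xx 4 5))) (.lf 223 0)))) (.cn 2 4 (.lf 39 2) (.cn 1 4 (.lf 80 1) (.cn 0 4 (.lf 138 0) (.lf 109 0)))) (.xx 3 4)))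

/-- a part of a tree -/
def t147 : Tr := (.bt 34 (.st 1 2 (.cn 0 2 (.bt 51 (.st 2 3 (.lf 0 2) (.lf 1 2) (.xx 2 3)) t125) t131) (.cn 0 2 (.bt 51 (.st 2 3 (.lf 0 2) (.lf 1 2) (.xx 2 3)) t136) t142) (.vi 48)) (.st 1 2 (.cn 0 2 (.lf 35 0) (.bt 51 (.st 2 3 (.cn 1 3 (.lf 37 1) (.lf 38 1)) (.cn 1 3 (.lf 39 1) (.lf 40 0)) (.cn 1 3 (.lf 41 1) (.cn 0 3 (.lf 42 0) (.lf 43 0)))) (.st 2 3 (.cn 1 3 (.lf 44 1) (.cn 0 3 (.lf 45 0) (.lf 46 0))) (.cn 1 3 (.lf 39 1) (.cn 0 3 (.lf 47 0) t144)) (.xx 2 3)))) (.cn 0 2 (.lf 55 0) (.bt 51 (.st 2 3 (.cn 1 3 (.lf 84 1) (.lf 135 0)) (.cn 1 3 (.lf 49 1) (.lf 50 1)) (.cn 1 3 (.lf 51 1) (.cn 0 3 (.lf 52 0) (.lf 95 0)))) (.st 2 3 (.cn 1 3 (.lf 84 1) (.cn 0 3 (.lf 136 0) t146)) (.cn 1 3 (.lf 110 1) (.cn 0 3 (.lf 140 0) (.lf 112 0))) (.xx 2 3)))) (.xx 1 2)))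

theorem ok0 : c0.all ckCert = true := by decide +kernel

theorem ok1 : c1.all ckCert = true := by decide +kernel

theorem ok2 : c2.all ckCert = true := by decide +kernel

theorem ok3 : c3.all ckCert = true := by decide +kernel

theorem ok4 : c4.all ckCert = true := by decide +kernel

theorem ok5 : c5.all ckCert = true := by decide +kernel

theorem ok6 : c6.all ckCert = true := by decide +kernel

theorem ok7 : c7.all ckCert = true := by decide +kernel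

theorem ok8 : c8.all ckCert = true := by decide +kernel

theorem ok9 : c9.all ckCert = true := by decide +kernel

theorem ok : lib.all ckCert = true := by
  simp only [lib, List.all_append, ok0, ok1, ok2, ok3, ok4, ok5, ok6, ok7, ok8, ok9, Bool.and_self]

/-- the excluded tables of `c7p` -/
def c7p_I : List (ℕ × ℕ) := [(158456325028528675187087900674, 65536), (65536, 158456325028528675187087900674), (4194306, 65536), (65536, 4194306), (4194306, 158456325028528675187087900672), (158456325028528675187087900672, 4194306), (4259840, 158456325028528675187087900672), (158456325028528675187087900672, 4259840), (316912650057057350374175801348, 4294967296), (4294967296, 316912650057057350374175801348), (274877906948, 4294967296), (4294967296, 274877906948), (274877906948, 316912650057057350374175801344), (316912650057057350374175801344, 274877906948),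 (279172874240, 316912650057057350374175801344), (316912650057057350374175801344, 279172874240), (633825300114114700748351602696, 281474976710656), (281474976710656, 633825300114114700748351602696), (18014398509481992, 281474976710656), (281474976710656, 18014398509481992), (18014398509481992, 633825300114114700748351602688), (633825300114114700748351602688, 18014398509481992), (18295873486192640, 633825300114114700748351602688), (633825300114114700748351602688, 18295873486192640), (1267650600228229401496703205392, 18446744073709551616), (18446744073709551616, 1267650600228229401496703205392), (1180591620717411303440, 18446744073709551616), (18446744073709551616, 1180591620717411303440), (1180591620717411303440, 1267650600228229401496703205376), (1267650600228229401496703205376, 1180591620717411303440), (1199038364791120855040, 1267650600228229401496703205376),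 (1267650600228229401496703205376, 1199038364791120855040), (2535301200456458802993406410784, 1208925819614629174706176), (1208925819614629174706176, 2535301200456458802993406410784), (77371252455336267181195296, 1208925819614629174706176), (1208925819614629174706176, 77371252455336267181195296), (77371252455336267181195296, 2535301200456458802993406410752), (2535301200456458802993406410752, 77371252455336267181195296), (78580178274950896355901440, 2535301200456458802993406410752), (2535301200456458802993406410752, 78580178274950896355901440), (8590262274, 0), (1125942856777728, 0), (147579582123570364416, 0), (19343550988100614804733952, 0), (2535397915112323783686088556544, 0)]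

theorem c7p_t : chkT (lib.map ngd) 7 0 1180618642796219727996 77371842755650259874217986 c7p_I [] (.bt 17 (.st 0 1 (.lf 0 0) (.lf 1 0) (.xx 0 1)) t25) 0 7410693711188236507108543040556026102609279018606145929088712558450020653727809 = true := by decide +kernel

/-- closed chordless tracks with 7 rails and a stable base, the last rail increases -/
theorem c7p {V : Type} {G : SimpleGraph V} (hH : ¬ IMS (KA 3 3 ![{0}, {1}, {0, 2}]) G Set.univ)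
    (hJ : ¬ IMS (F9.JS ![0, 1, 1] 2) G Set.univ) {x : ℕ → ℕ → V} {F : ℕ → Bool}
    (h : HV G 7 16 0 x F) (hy : Hy 1180618642796219727996 77371842755650259874217986 c7p_I F) (hM : Mt 0 7410693711188236507108543040556026102609279018606145929088712558450020653727809 F) : False :=
  refute hH hJ h (by norm_num) hy hM lib ok _ c7p_t

/-- the excluded tables of `c7m` -/
def c7m_I : List (ℕ × ℕ) := [(4194306, 65536), (65536, 4194306), (158456325028528675187087900674, 65536), (65536, 158456325028528675187087900674), (158456325028528675187087900674, 4194304), (4194304, 158456325028528675187087900674), (158456325028528675187087966208, 4194304), (4194304, 158456325028528675187087966208), (274877906948, 4294967296), (4294967296, 274877906948), (316912650057057350374175801348, 4294967296), (4294967296, 316912650057057350374175801348), (316912650057057350374175801348,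 274877906944), (274877906944, 316912650057057350374175801348), (316912650057057350378470768640, 274877906944), (274877906944, 316912650057057350378470768640), (18014398509481992, 281474976710656), (281474976710656, 18014398509481992), (633825300114114700748351602696, 281474976710656), (281474976710656, 633825300114114700748351602696), (633825300114114700748351602696, 18014398509481984), (18014398509481984, 633825300114114700748351602696), (633825300114114982223328313344, 18014398509481984), (18014398509481984, 633825300114114982223328313344), (1180591620717411303440, 18446744073709551616), (18446744073709551616, 1180591620717411303440), (1267650600228229401496703205392, 18446744073709551616), (18446744073709551616, 1267650600228229401496703205392), (1267650600228229401496703205392, 1180591620717411303424), (1180591620717411303424,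 1267650600228229401496703205392), (1267650600246676145570412756992, 1180591620717411303424), (1180591620717411303424, 1267650600246676145570412756992), (77371252455336267181195296, 1208925819614629174706176), (1208925819614629174706176, 77371252455336267181195296), (2535301200456458802993406410784, 1208925819614629174706176), (1208925819614629174706176, 2535301200456458802993406410784), (2535301200456458802993406410784, 77371252455336267181195264), (77371252455336267181195264, 2535301200456458802993406410784), (2535302409382278417622581116928, 77371252455336267181195264), (77371252455336267181195264, 2535302409382278417622581116928), (8590262274, 0), (1125942856777728, 0), (147579582123570364416, 0), (19343550988100614804733952, 0), (2535397915112323783686088556544, 0)]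

theorem c7m_t : chkT (lib.map ngd) 7 0 1180618642796219727996 77371842755650259874217986 c7m_I [] (.bt 17 (.st 0 1 (.lf 0 0) (.lf 1 0) (.xx 0 1)) t51) 0 7410693711188236507108543040556026102609279018606145929088712558450020653727809 = true := by decide +kernel

/-- closed chordless tracks with 7 rails and a stable base, the last rail decreases -/
theorem c7m {V : Type} {G : SimpleGraph V} (hH : ¬ IMS (KA 3 3 ![{0}, {1}, {0, 2}]) G Set.univ)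
    (hJ : ¬ IMS (F9.JS ![0, 1, 1] 2) G Set.univ) {x : ℕ → ℕ → V} {F : ℕ → Bool}
    (h : HV G 7 16 0 x F) (hy : Hy 1180618642796219727996 77371842755650259874217986 c7m_I F) (hM : Mt 0 7410693711188236507108543040556026102609279018606145929088712558450020653727809 F) : False :=
  refute hH hJ h (by norm_num) hy hM lib ok _ c7m_t

/-- the excluded tables of `c8p` -/
def c8p_I : List (ℕ × ℕ) := [(10384593717069655257060992658440194, 65536), (65536, 10384593717069655257060992658440194), (8388610, 65536), (65536, 8388610), (8388610, 10384593717069655257060992658440192), (10384593717069655257060992658440192, 8388610), (8454144, 10384593717069655257060992658440192), (10384593717069655257060992658440192, 8454144), (20769187434139310514121985316880388, 4294967296), (4294967296, 20769187434139310514121985316880388), (549755813892, 4294967296),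 (4294967296, 549755813892), (549755813892, 20769187434139310514121985316880384), (20769187434139310514121985316880384, 549755813892), (554050781184, 20769187434139310514121985316880384), (20769187434139310514121985316880384, 554050781184), (41538374868278621028243970633760776, 281474976710656), (281474976710656, 41538374868278621028243970633760776), (36028797018963976, 281474976710656), (281474976710656, 36028797018963976), (36028797018963976, 41538374868278621028243970633760768), (41538374868278621028243970633760768, 36028797018963976), (36310271995674624, 41538374868278621028243970633760768), (41538374868278621028243970633760768, 36310271995674624), (83076749736557242056487941267521552, 18446744073709551616), (18446744073709551616, 83076749736557242056487941267521552), (2361183241434822606864, 18446744073709551616), (18446744073709551616,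 2361183241434822606864), (2361183241434822606864, 83076749736557242056487941267521536), (83076749736557242056487941267521536, 2361183241434822606864), (2379629985508532158464, 83076749736557242056487941267521536), (83076749736557242056487941267521536, 2379629985508532158464), (166153499473114484112975882535043104, 1208925819614629174706176), (1208925819614629174706176, 166153499473114484112975882535043104), (154742504910672534362390560, 1208925819614629174706176), (1208925819614629174706176, 154742504910672534362390560), (154742504910672534362390560, 166153499473114484112975882535043072), (166153499473114484112975882535043072, 154742504910672534362390560), (155951430730287163537096704, 166153499473114484112975882535043072), (166153499473114484112975882535043072, 155951430730287163537096704), (332306998946228968225951765070086208,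 79228162514264337593543950336), (79228162514264337593543950336, 332306998946228968225951765070086208), (10141204801825835211973625643072, 79228162514264337593543950336), (79228162514264337593543950336, 10141204801825835211973625643072), (10141204801825835211973625643072, 332306998946228968225951765070086144), (332306998946228968225951765070086144, 10141204801825835211973625643072), (10220432964340099549567169593344, 332306998946228968225951765070086144), (332306998946228968225951765070086144, 10220432964340099549567169593344), (8590262274, 0), (1125942856777728, 0), (147579582123570364416, 0), (19343550988100614804733952, 0), (2535397915112323783686088556544, 0), (332319675529602502975302999283335168, 0)]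

theorem c8p_t : chkT (lib.map ngd) 8 0 154746046748586112187891964 10141282173668590862233499860994 c8p_I [] (.bt 17 (.st 0 1 (.lf 0 0) (.lf 1 0) (.xx 0 1)) (.st 0 1 t62 t72 t99)) 0 14821387422376473014217086081112052205218558707008286948043334833446907063304321 = true := by decide +kernel

/-- closed chordless tracks with 8 rails and a stable base, the last rail increases -/
theorem c8p {V : Type} {G : SimpleGraph V} (hH : ¬ IMS (KA 3 3 ![{0}, {1}, {0, 2}]) G Set.univ)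
    (hJ : ¬ IMS (F9.JS ![0, 1, 1] 2) G Set.univ) {x : ℕ → ℕ → V} {F : ℕ → Bool}
    (h : HV G 8 16 0 x F) (hy : Hy 154746046748586112187891964 10141282173668590862233499860994 c8p_I F) (hM : Mt 0 14821387422376473014217086081112052205218558707008286948043334833446907063304321 F) : False :=
  refute hH hJ h (by norm_num) hy hM lib ok _ c8p_t

/-- the excluded tables of `c8m` -/
def c8m_I : List (ℕ × ℕ) := [(8388610, 65536), (65536, 8388610), (10384593717069655257060992658440194, 65536), (65536, 10384593717069655257060992658440194), (10384593717069655257060992658440194, 8388608), (8388608, 10384593717069655257060992658440194), (10384593717069655257060992658505728, 8388608), (8388608, 10384593717069655257060992658505728), (549755813892, 4294967296), (4294967296, 549755813892), (20769187434139310514121985316880388, 4294967296), (4294967296,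 20769187434139310514121985316880388), (20769187434139310514121985316880388, 549755813888), (549755813888, 20769187434139310514121985316880388), (20769187434139310514121989611847680, 549755813888), (549755813888, 20769187434139310514121989611847680), (36028797018963976, 281474976710656), (281474976710656, 36028797018963976), (41538374868278621028243970633760776, 281474976710656), (281474976710656, 41538374868278621028243970633760776), (41538374868278621028243970633760776, 36028797018963968), (36028797018963968, 41538374868278621028243970633760776), (41538374868278621028525445610471424, 36028797018963968), (36028797018963968, 41538374868278621028525445610471424), (2361183241434822606864, 18446744073709551616), (18446744073709551616, 2361183241434822606864), (83076749736557242056487941267521552, 18446744073709551616), (18446744073709551616,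 83076749736557242056487941267521552), (83076749736557242056487941267521552, 2361183241434822606848), (2361183241434822606848, 83076749736557242056487941267521552), (83076749736557260503232014977073152, 2361183241434822606848), (2361183241434822606848, 83076749736557260503232014977073152), (154742504910672534362390560, 1208925819614629174706176), (1208925819614629174706176, 154742504910672534362390560), (166153499473114484112975882535043104, 1208925819614629174706176), (1208925819614629174706176, 166153499473114484112975882535043104), (166153499473114484112975882535043104, 154742504910672534362390528), (154742504910672534362390528, 166153499473114484112975882535043104), (166153499474323409932590511709749248, 154742504910672534362390528), (154742504910672534362390528, 166153499474323409932590511709749248), (10141204801825835211973625643072,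 79228162514264337593543950336), (79228162514264337593543950336, 10141204801825835211973625643072), (332306998946228968225951765070086208, 79228162514264337593543950336), (79228162514264337593543950336, 332306998946228968225951765070086208), (332306998946228968225951765070086208, 10141204801825835211973625643008), (10141204801825835211973625643008, 332306998946228968225951765070086208), (332307078174391482490289358614036480, 10141204801825835211973625643008), (10141204801825835211973625643008, 332307078174391482490289358614036480), (8590262274, 0), (1125942856777728, 0), (147579582123570364416, 0), (19343550988100614804733952, 0), (2535397915112323783686088556544, 0), (332319675529602502975302999283335168, 0)]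

theorem c8m_t : chkT (lib.map ngd) 8 0 154746046748586112187891964 10141282173668590862233499860994 c8m_I [] (.bt 17 (.st 0 1 (.lf 0 0) (.lf 1 0) (.xx 0 1)) (.st 0 1 t109 t120 t147)) 0 14821387422376473014217086081112052205218558707008286948043334833446907063304321 = true := by decide +kernel

/-- closed chordless tracks with 8 rails and a stable base, the last rail decreases -/
theorem c8m {V : Type} {G : SimpleGraph V} (hH : ¬ IMS (KA 3 3 ![{0}, {1}, {0, 2}]) G Set.univ)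
    (hJ : ¬ IMS (F9.JS ![0, 1, 1] 2) G Set.univ) {x : ℕ → ℕ → V} {F : ℕ → Bool}
    (h : HV G 8 16 0 x F) (hy : Hy 154746046748586112187891964 10141282173668590862233499860994 c8m_I F) (hM : Mt 0 14821387422376473014217086081112052205218558707008286948043334833446907063304321 F) : False :=
  refute hH hJ h (by norm_num) hy hM lib ok _ c8m_t

end Pool.Agent.MPd439b2.FV.ClosB
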