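import Pool.Agent.Lib.MP_d439b2_co.FV.Eng

/-!
# MP_d439b2_co, FV: libraries of nogoods for `K3:0,1,02` and `J_2` (helper40)
-/

set_option autoImplicit false

namespace Pool.Agent.MPd439b2.FV

open Pool.Agent.MPd439b2
open Pool.Agent.MPd439b2.BU
open Pool.Agent.MPd439b2.HC
open Pool.Agent.MPd439b2.FT (Mt)

variable {V : Type}

/-- a certificate: `(b, s, L, p, n, C)`; `b = true` for `K3:0,1,02`, `b = false` for `J_2` -/
abbrev Cert := Bool × ℕ × ℕ × ℕ × ℕ × List (List ℕ)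

/-- the check of one certificate -/
def ckCert (c : Cert) : Bool :=
  Nat.blt c.2.1 c.2.2.1 && bif c.1 then chkC c.2.1 c.2.2.1 c.2.2.2.1 c.2.2.2.2.1 6 R3.q2 c.2.2.2.2.2
    else chkC c.2.1 c.2.2.1 c.2.2.2.1 c.2.2.2.2.1 7 FT.qJ2 c.2.2.2.2.2

/-- the nogood of a certificate -/
def ngd (c : Cert) : ℕ × ℕ × ℕ × ℕ := (c.2.2.2.1, c.2.2.2.2.1, c.2.2.1, c.2.1)

theorem lib_ok {G : SimpleGraph V} (hH : ¬ IMS (KA 3 3 ![{0}, {1}, {0, 2}]) G Set.univ)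
    (hJ : ¬ IMS (F9.JS ![0, 1, 1] 2) G Set.univ) {cs : List Cert} (hc : cs.all ckCert = true) :
    ∀ c ∈ cs.map ngd, NG G c.1 c.2.1 c.2.2.1 c.2.2.2 := by
  intro c hcm
  obtain ⟨d, hd, rfl⟩ := List.mem_map.1 hcm
  have h := (List.all_eq_true.1 hc) d hd
  simp only [ckCert, Bool.and_eq_true] at h
  obtain ⟨h1, h2⟩ := h
  rw [Nat.blt_eq] at h1
  rcases hb : d.1 with _ | _
  · rw [hb, cond_false] at h2
    exact ng_of (FT.spfJ2 hJ) h1 h2
  · rw [hb, cond_true] at h2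
    exact ng_of (R3.spf2 hH) h1 h2

/-- **the main theorem of the engine**: the rows match a survivor -/
theorem sound {G : SimpleGraph V} (hH : ¬ IMS (KA 3 3 ![{0}, {1}, {0, 2}]) G Set.univ)
    (hJ : ¬ IMS (F9.JS ![0, 1, 1] 2) G Set.univ) {L s A B P N : ℕ} {I Sv : List (ℕ × ℕ)}
    {x : ℕ → ℕ → V} {F : ℕ → Bool} (h : HV G L 16 s x F) (hL : L ≤ 16) (hy : Hy A B I F) (hM : Mt P N F)
    (cs : List Cert) (hc : cs.all ckCert = true) (t : Tr)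
    (ht : chkT (cs.map ngd) L s A B I Sv t P N = true) : ∃ c ∈ Sv, Mt c.1 c.2 F :=
  tr_sound h hL (lib_ok hH hJ hc) hy t P N hM ht

/-- **no survivors** -/
theorem refute {G : SimpleGraph V} (hH : ¬ IMS (KA 3 3 ![{0}, {1}, {0, 2}]) G Set.univ)
    (hJ : ¬ IMS (F9.JS ![0, 1, 1] 2) G Set.univ) {L s A B P N : ℕ} {I : List (ℕ × ℕ)}
    {x : ℕ → ℕ → V} {F : ℕ → Bool} (h : HV G L 16 s x F) (hL : L ≤ 16) (hy : Hy A B I F) (hM : Mt P N F)
    (cs : List Cert) (hc : cs.all ckCert = true) (t : Tr)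
    (ht : chkT (cs.map ngd) L s A B I [] t P N = true) : False := by
  obtain ⟨c, hc', _⟩ := sound hH hJ h hL hy hM cs hc t ht
  exact absurd hc' (List.not_mem_nil)

end Pool.Agent.MPd439b2.FV
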