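import Pool.Agent.Lib.MP_d439b2_co.FT.T10
import Pool.Agent.Lib.MP_d439b2_co.FV.Tgt

/-!
# MP_d439b2_co, FV: no chordless track with 10 rails, for `FV.Hy` (helper40, from `FT/T10.lean` of helper32)
-/

set_option autoImplicit false

namespace Pool.Agent.MPd439b2.FV.T10

open Pool.Agent.MPd439b2 Pool.Agent.MPd439b2.FV
open Pool.Agent.MPd439b2.FT (Mt)

/-- conversion of the trees of `FT` -/
def cv : FT.Tr → Tr
  | .lf g s => .lf g s
  | .xx i j => .xx i j
  | .cf => .cf
  | .bt b t u => .bt b (cv t) (cv u)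
  | .cn i j t u => .cn i j (cv t) (cv u)
  | .st i j t u w => .st i j (cv t) (cv u) (cv w)

/-- conversion of the certificates of `FT` -/
def cc (c : FT.Cert) : Cert := (c.1, 0, c.2.1, c.2.2.1, c.2.2.2.1, c.2.2.2.2)

theorem ok0 : (FT.T10.c0.map cc).all ckCert = true := by decide +kernel
theorem ok1 : (FT.T10.c1.map cc).all ckCert = true := by decide +kernel
theorem ok2 : (FT.T10.c2.map cc).all ckCert = true := by decide +kernel
theorem ok3 : (FT.T10.c3.map cc).all ckCert = true := by decide +kernel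
theorem ok4 : (FT.T10.c4.map cc).all ckCert = true := by decide +kernel
theorem ok5 : (FT.T10.c5.map cc).all ckCert = true := by decide +kernel
theorem ok6 : (FT.T10.c6.map cc).all ckCert = true := by decide +kernel

theorem ok : (FT.T10.lib.map cc).all ckCert = true := by
  simp only [FT.T10.lib, List.map_append, List.all_append, ok0, ok1, ok2, ok3, ok4, ok5, ok6, Bool.and_self]

theorem okT : chkT ((FT.T10.lib.map cc).map ngd) 10 0 FT.T10.A FT.T10.B [] [] (cv FT.T10.tree) 0 0 = true := by
  decide +kernel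

/-- **no chordless track with 10 rails** -/
theorem no10 {V : Type} {G : SimpleGraph V} (hH : ¬ IMS (KA 3 3 ![{0}, {1}, {0, 2}]) G Set.univ)
    (hJ : ¬ IMS (F9.JS ![0, 1, 1] 2) G Set.univ) {x : ℕ → ℕ → V} {F : ℕ → Bool}
    (h : HV G 10 16 0 x F) (hy : Hy FT.T10.A FT.T10.B [] F) : False :=
  refute hH hJ h (by norm_num) hy (FT.Mt.zero F) _ ok _ okT

end Pool.Agent.MPd439b2.FV.T10
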