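import Pool.Agent.Lib.MP_d439b2_co.FT.Tgt

/-!
# MP_d439b2_co, FV: finite tables for homogeneous rails AND single vertices, thresholds, survivors (helper40)

Extension of the engine FT (helper32).  Rows `0, .., s - 1` are single vertices, rows `s, .., L - 1` are homogeneous
rails with `M` indices.  The bit of a pair `i < j` with `i < s` is `256 + 16 i + j`.  `I`: partial tables which are
excluded by hypothesis (for example thresholds).  `Sv`: survivors.
-/

set_option autoImplicit false

namespace Pool.Agent.MPd439b2.FV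

open Pool.Agent.MPd439b2
open Pool.Agent.MPd439b2.BU
open Pool.Agent.MPd439b2.HC
open Pool.Agent.MPd439b2.FT (Mt)

variable {V : Type}

/-! ### rows -/

/-- **Single vertices and homogeneous rails.**  `x 0, .., x (s - 1)` are single vertices (constant rows),
`x s, .., x (L - 1)` are rails with `M` indices. -/
structure HV (G : SimpleGraph V) (L M s : ℕ) (x : ℕ → ℕ → V) (F : ℕ → Bool) : Prop where
  cst : ∀ i < s, ∀ k, x i k = x i 0
  dis : ∀ i < L, ∀ j < L, ∀ k < M, ∀ l < M, (i ≠ j ∨ (s ≤ i ∧ k ≠ l)) → x i k ≠ x j l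
  rel : ∀ i < L, ∀ j < L, s ≤ i → s ≤ j → ∀ k l, k < l → l < M →
    (G.Adj (x i k) (x j l) ↔ F (16 * i + j) = true)
  dg : ∀ i < L, ∀ j < L, s ≤ i → i < j → ∀ k < M, (G.Adj (x i k) (x j k) ↔ F (256 + 16 * i + j) = true)
  sg : ∀ i < s, ∀ j < L, i < j → ∀ k < M, (G.Adj (x i 0) (x j k) ↔ F (256 + 16 * i + j) = true)

/-- rails only -/
theorem HV.of_hr {G : SimpleGraph V} {L M : ℕ} {x : ℕ → ℕ → V} {F : ℕ → Bool} (h : FT.HR G L M x F) :
    HV G L M 0 x F :=
  ⟨fun i hi => absurd hi (Nat.not_lt_zero i), fun i hi j hj k hk l hl hkl => h.dis i hi j hj k hk l hl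
      (hkl.imp_right And.right),
    fun i hi j hj _ _ k l hkl hl => h.rel i hi j hj k l hkl hl,
    fun i hi j hj _ hij k hk => h.dg i hi j hj hij k hk, fun i hi => absurd hi (Nat.not_lt_zero i)⟩

/-- the rails `t, .., t + L' - 1` (`s ≤ t`) -/
theorem HV.shift {G : SimpleGraph V} {L M s : ℕ} {x : ℕ → ℕ → V} {F : ℕ → Bool} (h : HV G L M s x F)
    {L' t : ℕ} (ht : s ≤ t) (hs : t + L' ≤ L) :
    HV G L' M 0 (fun i => x (i + t)) (fun b => F (b + 17 * t)) :=
  ⟨fun i hi => absurd hi (Nat.not_lt_zero i),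
    fun i hi j hj k hk l hl hkl => h.dis _ (by omega) _ (by omega) k hk l hl (by omega),
    fun i hi j hj _ _ k l hkl hl => by
      rw [h.rel (i + t) (by omega) (j + t) (by omega) (by omega) (by omega) k l hkl hl,
        show 16 * i + j + 17 * t = 16 * (i + t) + (j + t) from by ring],
    fun i hi j hj _ hij k hk => by
      rw [h.dg (i + t) (by omega) (j + t) (by omega) (by omega) (by omega) k hk,
        show 256 + 16 * i + j + 17 * t = 256 + 16 * (i + t) + (j + t) from by ring],
    fun i hi => absurd hi (Nat.not_lt_zero i)⟩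

/-- the row of the vertex `p` -/
def ri (s L p : ℕ) : ℕ := bif Nat.blt p s then p else s + (p - s) % (L - s)

/-- the index of the vertex `p` -/
def rk (s L p : ℕ) : ℕ := bif Nat.blt p s then 0 else (p - s) / (L - s)

/-- the bit of the pair of the vertices `p` and `q` -/
def ab (s L p q : ℕ) : ℕ :=
  bif Nat.blt p s || Nat.blt q s then
    256 + 16 * (min (ri s L p) (ri s L q)) + max (ri s L p) (ri s L q)
  else bif Nat.blt (rk s L p) (rk s L q) then 16 * ri s L p + ri s L q
  else bif Nat.blt (rk s L q) (rk s L p) then 16 * ri s L q + ri s L p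
  else 256 + 16 * (min (ri s L p) (ri s L q)) + max (ri s L p) (ri s L q)

theorem blt_t {a b : ℕ} (h : a < b) : Nat.blt a b = true := by
  rw [Nat.blt_eq]; exact h

theorem blt_f {a b : ℕ} (h : b ≤ a) : Nat.blt a b = false := by
  rw [Bool.eq_false_iff]
  intro h3
  rw [Nat.blt_eq] at h3
  omega

theorem sp_of_hv {G : SimpleGraph V} {L M s : ℕ} {x : ℕ → ℕ → V} {F : ℕ → Bool}
    (h : HV G L M s x F) (hL : s < L) (hM : 0 < M) :
    SP G Set.univ (s + (L - s) * M) (fun p => {x (ri s L p) (rk s L p)}) (fun p q => F (ab s L p q)) := by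
  have hr : ∀ p, ri s L p < L := by
    intro p
    unfold ri
    rcases lt_or_ge p s with h1 | h1
    · rw [blt_t h1, cond_true]; omega
    · rw [blt_f h1, cond_false]
      have := Nat.mod_lt (p - s) (show 0 < L - s by omega)
      omega
  have hk : ∀ p < s + (L - s) * M, rk s L p < M := by
    intro p hp
    unfold rk
    rcases lt_or_ge p s with h1 | h1
    · rw [blt_t h1, cond_true]; exact hM
    · rw [blt_f h1, cond_false]
      exact Nat.div_lt_of_lt_mul (by omega)
  have hsr : ∀ p, s ≤ p → s ≤ ri s L p := by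
    intro p h1
    unfold ri
    rw [blt_f h1, cond_false]
    omega
  have hss : ∀ p, p < s → ri s L p = p ∧ rk s L p = 0 := by
    intro p h1
    unfold ri rk
    rw [blt_t h1, cond_true, cond_true]
    exact ⟨rfl, rfl⟩
  have hne : ∀ p q, q < p → (ri s L p ≠ ri s L q ∨ (s ≤ ri s L p ∧ rk s L p ≠ rk s L q)) := by
    intro p q hqp
    rcases lt_or_ge p s with h1 | h1
    · left
      rw [(hss p h1).1, (hss q (by omega)).1]
      omega
    · rcases lt_or_ge q s with h2 | h2
      · left
        have := hsr p h1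
        rw [(hss q h2).1]
        omega
      · by_contra hcon
        push Not at hcon
        have h3 := hcon.2 (hsr p h1)
        have h4 := hcon.1
        unfold ri at h4
        unfold rk at h3
        rw [blt_f h1, blt_f h2, cond_false, cond_false] at h3 h4
        have h5 := Nat.div_add_mod (p - s) (L - s)
        have h6 := Nat.div_add_mod (q - s) (L - s)
        rw [h3, show (p - s) % (L - s) = (q - s) % (L - s) from by omega, h6] at h5
        omega
  refine ⟨fun _ _ => Set.subset_univ _, fun _ _ => Conn.singleton G _, fun p hp q hq => ?_,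
    fun p hp q hq => ?_⟩
  · exact Set.disjoint_singleton.2 (h.dis _ (hr p) _ (hr q) _ (hk p hp) _ (hk q (by omega))
      (hne p q hq))
  · have hkp := hk p hp
    have hkq := hk q (by omega)
    rw [tch_single]
    show G.Adj (x (ri s L p) (rk s L p)) (x (ri s L q) (rk s L q)) ↔ F (ab s L p q) = true
    have h7 := hne p q hq
    rcases lt_or_ge q s with h2 | h2
    · -- `q` is a single vertex
      have h8 : ab s L p q = 256 + 16 * (min (ri s L p) (ri s L q)) + max (ri s L p) (ri s L q) := by
        unfold ab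
        rw [blt_t h2, Bool.or_true, cond_true]
      rw [h8]
      obtain ⟨h9, h10⟩ := hss q h2
      rw [h9, h10]
      have h11 : q < ri s L p := by
        rcases lt_or_ge p s with h1 | h1
        · rw [(hss p h1).1]; exact hq
        · exact lt_of_lt_of_le h2 (hsr p h1)
      rw [min_eq_right h11.le, max_eq_left h11.le, SimpleGraph.adj_comm]
      exact h.sg q h2 _ (hr p) h11 _ hkp
    · have h1 : s ≤ p := by omega
      have h8 : ab s L p q = (bif Nat.blt (rk s L p) (rk s L q) then 16 * ri s L p + ri s L q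
          else bif Nat.blt (rk s L q) (rk s L p) then 16 * ri s L q + ri s L p
          else 256 + 16 * (min (ri s L p) (ri s L q)) + max (ri s L p) (ri s L q)) := by
        unfold ab
        rw [blt_f h1, blt_f h2, Bool.or_false, cond_false]
      rw [h8]
      rcases lt_trichotomy (rk s L p) (rk s L q) with h3 | h3 | h3
      · rw [blt_t h3, cond_true]
        exact h.rel _ (hr p) _ (hr q) (hsr p h1) (hsr q h2) _ _ h3 hkq
      · rw [blt_f h3.ge, blt_f h3.le, cond_false, cond_false]
        have h4 : ri s L p ≠ ri s L q := by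
          rcases h7 with h4 | h4
          · exact h4
          · exact absurd h3 h4.2
        rw [h3]
        rcases lt_or_gt_of_ne h4 with h5 | h5
        · rw [min_eq_left h5.le, max_eq_right h5.le]
          exact h.dg _ (hr p) _ (hr q) (hsr p h1) h5 _ hkq
        · rw [min_eq_right h5.le, max_eq_left h5.le, SimpleGraph.adj_comm]
          exact h.dg _ (hr q) _ (hr p) (hsr q h2) h5 _ hkq
      · rw [blt_f h3.le, cond_false, blt_t h3, cond_true, SimpleGraph.adj_comm]
        exact h.rel _ (hr q) _ (hr p) (hsr q h2) (hsr p h1) _ _ h3 hkp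

/-! ### nogoods -/

/-- no rows (`s` single vertices, `L - s` rails, 16 indices) match the partial table -/
def NG (G : SimpleGraph V) (p n L s : ℕ) : Prop := ∀ x F, HV G L 16 s x F → Mt p n F → False

/-- the certificate of a nogood: the branch sets of a pattern, valid for the partial table -/
def chkC (s L p n m : ℕ) (q : ℕ → ℕ → Bool) (C : List (List ℕ)) : Bool :=
  Nat.beq C.length m && Eng.goodL (s + (L - s) * 16) C.flatten &&
    C.all (Eng.connL fun a b => p.testBit (ab s L a b)) &&
    (List.range m).all fun i => (List.range i).all fun j =>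
      bif q i j then Eng.tchL (fun a b => p.testBit (ab s L a b)) (C.getD i []) (C.getD j [])
      else !(Eng.tchL (fun a b => !(n.testBit (ab s L a b))) (C.getD i []) (C.getD j []))

theorem ng_of {G : SimpleGraph V} {s L p n m : ℕ} {q : ℕ → ℕ → Bool} {C : List (List ℕ)}
    (hq : SPF G Set.univ m q) (hL : s < L) (hc : chkC s L p n m q C = true) : NG G p n L s := by
  intro x F hx hF
  have hS := sp_of_hv hx hL (by norm_num)
  refine hq _ (chkG_sp (L := C) hS ?_)
  simp only [chkC, Bool.and_eq_true, List.all_eq_true, List.mem_range] at hc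
  obtain ⟨⟨⟨h1, h2⟩, h3⟩, h4⟩ := hc
  have hp : ∀ a b, p.testBit (ab s L a b) = true → F (ab s L a b) = true := fun a b => hF.1 _
  have hn : ∀ a b, F (ab s L a b) = true → (!(n.testBit (ab s L a b))) = true := by
    intro a b hab
    rcases h5 : n.testBit (ab s L a b) with _ | _
    · rfl
    · rw [hF.2 _ h5] at hab
      exact absurd hab (by decide)
  simp only [chkG, Bool.and_eq_true, List.all_eq_true, List.mem_range, beq_iff_eq]
  refine ⟨⟨⟨h1, h2⟩, fun l hl => FT.connL_mono hp (h3 l hl)⟩, fun i hi j hj => ?_⟩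
  have h5 := h4 i hi j hj
  rcases hq' : q i j with _ | _
  · rw [hq', cond_false, Bool.not_eq_true'] at h5
    rcases h6 : Eng.tchL (fun a b => F (ab s L a b)) (C.getD i []) (C.getD j []) with _ | _
    · rfl
    · rw [FT.tchL_mono hn h6] at h5
      exact absurd h5 (by decide)
  · rw [hq', cond_true] at h5
    exact FT.tchL_mono hp h5

/-! ### trees -/

/-- **Hypotheses on `F`.**  `cn`, `st` as in FT (for rails, and `i, j < 16`); `im`: the tables in `I` are excluded -/
structure Hy (A B : ℕ) (I : List (ℕ × ℕ)) (F : ℕ → Bool) : Prop where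
  cn : ∀ i j, A.testBit (16 * i + j) = true → i < 16 → j < 16 →
    F (16 * i + j) = F (16 * j + i) ∧ F (256 + 16 * i + j) = F (16 * i + j)
  st : ∀ i j, B.testBit (16 * i + j) = true → i < 16 → j < 16 →
    (F (16 * i + j) = true ∧ F (16 * j + i) = false) ∨ (F (16 * i + j) = false ∧ F (16 * j + i) = true) ∨
    (F (16 * i + j) = true ∧ F (16 * j + i) = true ∧ F (256 + 16 * i + j) = false ∧
      F (17 * i) ≠ F (17 * j))
  im : ∀ c ∈ I, ¬ Mt c.1 c.2 F

/-- trees of case splits: `lf g t`: the nogood `g`, shifted by `t`; `xx i j`: co-matching between rails of the same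
type; `cf`: contradictory knowledge; `vi k`: the excluded table `k`; `sv k`: the survivor `k`; `bt b t u`:
split on the bit `b` (`false`, `true`); `cn i j t u`: the constant pair `i, j` (`false`, `true`); `st i j t u w`: the
step `i, j` (`<`, `>`, `=`) -/
inductive Tr : Type
  | lf (g t : ℕ) : Tr
  | xx (i j : ℕ) : Tr
  | cf : Tr
  | vi (k : ℕ) : Tr
  | sv (k : ℕ) : Tr
  | bt (b : ℕ) (t u : Tr) : Tr
  | cn (i j : ℕ) (t u : Tr) : Tr
  | st (i j : ℕ) (t u w : Tr) : Tr

/-- the knowledge `(p, n)` is contained in `(P, N)` -/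
def sb (p n P N : ℕ) : Bool := Nat.beq (P &&& p) p && Nat.beq (N &&& n) n

/-- the checker; `lib` = the list of the nogoods `(p, n, L', s')` -/
def chkT (lib : List (ℕ × ℕ × ℕ × ℕ)) (L s A B : ℕ) (I Sv : List (ℕ × ℕ)) : Tr → ℕ → ℕ → Bool
  | Tr.lf g t, P, N =>
    (bif Nat.beq (lib.getD g (0, 0, 17, 0)).2.2.2 0 then
        Nat.ble s t && Nat.ble (t + (lib.getD g (0, 0, 17, 0)).2.2.1) L
      else Nat.beq t 0 && Nat.beq (lib.getD g (0, 0, 17, 0)).2.2.2 s &&
        Nat.beq (lib.getD g (0, 0, 17, 0)).2.2.1 L) &&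
      sb ((lib.getD g (0, 0, 17, 0)).1 <<< (17 * t)) ((lib.getD g (0, 0, 17, 0)).2.1 <<< (17 * t)) P N
  | Tr.xx i j, P, N => B.testBit (16 * i + j) && (Nat.blt i 16 && Nat.blt j 16) && P.testBit (16 * i + j) && P.testBit (16 * j + i) &&
      ((P.testBit (17 * i) && P.testBit (17 * j)) || (N.testBit (17 * i) && N.testBit (17 * j)))
  | Tr.cf, P, N => !(Nat.beq (P &&& N) 0)
  | Tr.vi k, P, N => Nat.blt k I.length && sb (I.getD k (0, 0)).1 (I.getD k (0, 0)).2 P N
  | Tr.sv k, P, N => Nat.blt k Sv.length && sb (Sv.getD k (0, 0)).1 (Sv.getD k (0, 0)).2 P N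
  | Tr.bt b t u, P, N => chkT lib L s A B I Sv t P (N ||| (1 <<< b)) &&
      chkT lib L s A B I Sv u (P ||| (1 <<< b)) N
  | Tr.cn i j t u, P, N => A.testBit (16 * i + j) && (Nat.blt i 16 && Nat.blt j 16) &&
      chkT lib L s A B I Sv t P
        (N ||| ((1 <<< (16 * i + j)) ||| (1 <<< (16 * j + i)) ||| (1 <<< (256 + 16 * i + j)))) &&
      chkT lib L s A B I Sv u
        (P ||| ((1 <<< (16 * i + j)) ||| (1 <<< (16 * j + i)) ||| (1 <<< (256 + 16 * i + j)))) N
  | Tr.st i j t u w, P, N => B.testBit (16 * i + j) && (Nat.blt i 16 && Nat.blt j 16) &&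
      chkT lib L s A B I Sv t (P ||| (1 <<< (16 * i + j))) (N ||| (1 <<< (16 * j + i))) &&
      chkT lib L s A B I Sv u (P ||| (1 <<< (16 * j + i))) (N ||| (1 <<< (16 * i + j))) &&
      chkT lib L s A B I Sv w (P ||| ((1 <<< (16 * i + j)) ||| (1 <<< (16 * j + i))))
        (N ||| (1 <<< (256 + 16 * i + j)))

theorem sb_mt {p n P N : ℕ} {F : ℕ → Bool} (h : sb p n P N = true) (hM : Mt P N F) : Mt p n F := by
  simp only [sb, Bool.and_eq_true] at h
  exact hM.sub (Nat.eq_of_beq_eq_true h.1) (Nat.eq_of_beq_eq_true h.2)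

/-- **a tree refutes the rows, or they match a survivor** -/
theorem tr_sound {G : SimpleGraph V} {L s A B : ℕ} {I Sv : List (ℕ × ℕ)} {x : ℕ → ℕ → V} {F : ℕ → Bool}
    (h : HV G L 16 s x F) (hL : L ≤ 16) {lib : List (ℕ × ℕ × ℕ × ℕ)} (hlib : ∀ c ∈ lib, NG G c.1 c.2.1 c.2.2.1 c.2.2.2)
    (hy : Hy A B I F) :
    ∀ (t : Tr) (P N : ℕ), Mt P N F → chkT lib L s A B I Sv t P N = true →
      ∃ c ∈ Sv, Mt c.1 c.2 F := by
  intro t
  induction t with
  | lf g t =>
    intro P N hM hc
    simp only [chkT, Bool.and_eq_true] at hc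
    obtain ⟨h1, h2⟩ := hc
    have hg : g < lib.length := by
      by_contra hcon
      rw [List.getD_eq_default _ _ (not_lt.1 hcon)] at h1
      have h3 : Nat.beq 0 0 = true := rfl
      dsimp only at h1
      rw [h3, cond_true, Bool.and_eq_true] at h1
      have h4 := Nat.le_of_ble_eq_true h1.2
      omega
    have hmem : lib.getD g (0, 0, 17, 0) ∈ lib := by
      rw [List.getD_eq_getElem _ _ hg]
      exact List.getElem_mem hg
    have h5 := hlib _ hmem
    have h6 := sb_mt h2 hM
    rcases h7 : Nat.beq (lib.getD g (0, 0, 17, 0)).2.2.2 0 with _ | _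
    · rw [h7, cond_false] at h1
      simp only [Bool.and_eq_true] at h1
      obtain ⟨⟨h8, h9⟩, h10⟩ := h1
      have h8' := Nat.eq_of_beq_eq_true h8
      have h9' := Nat.eq_of_beq_eq_true h9
      have h10' := Nat.eq_of_beq_eq_true h10
      rw [h9', h10'] at h5
      subst h8'
      rw [Nat.mul_zero, Nat.shiftLeft_zero, Nat.shiftLeft_zero] at h6
      exact absurd h6 (fun h6 => h5 _ _ h h6)
    · rw [h7, cond_true] at h1
      simp only [Bool.and_eq_true] at h1
      have h8 := Nat.le_of_ble_eq_true h1.1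
      have h9 := Nat.le_of_ble_eq_true h1.2
      have h7' := Nat.eq_of_beq_eq_true h7
      rw [h7'] at h5
      exact absurd (Mt.shift (s := 17 * t) h6) (fun h6 => h5 _ _ (h.shift h8 h9) h6)
  | xx i j =>
    intro P N hM hc
    simp only [chkT, Bool.and_eq_true, Bool.or_eq_true] at hc
    obtain ⟨⟨⟨⟨h1, h0⟩, h2⟩, h3⟩, h4⟩ := hc
    rw [Nat.blt_eq, Nat.blt_eq] at h0
    have h5 := hM.1 _ h2
    have h6 := hM.1 _ h3
    rcases hy.st i j h1 h0.1 h0.2 with h7 | h7 | h7
    · rw [h7.2] at h6
      exact absurd h6 (by decide)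
    · rw [h7.1] at h5
      exact absurd h5 (by decide)
    · rcases h4 with h4 | h4
      · exact absurd ((hM.1 _ h4.1).trans (hM.1 _ h4.2).symm) h7.2.2.2
      · exact absurd ((hM.2 _ h4.1).trans (hM.2 _ h4.2).symm) h7.2.2.2
  | cf =>
    intro P N hM hc
    simp only [chkT, FT.cf_false hM] at hc
    exact absurd hc (by decide)
  | vi k =>
    intro P N hM hc
    simp only [chkT, Bool.and_eq_true] at hc
    obtain ⟨h1, h2⟩ := hc
    rw [Nat.blt_eq] at h1
    have hmem : I.getD k (0, 0) ∈ I := by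
      rw [List.getD_eq_getElem _ _ h1]
      exact List.getElem_mem h1
    exact absurd (sb_mt h2 hM) (hy.im _ hmem)
  | sv k =>
    intro P N hM hc
    simp only [chkT, Bool.and_eq_true] at hc
    obtain ⟨h1, h2⟩ := hc
    rw [Nat.blt_eq] at h1
    have hmem : Sv.getD k (0, 0) ∈ Sv := by
      rw [List.getD_eq_getElem _ _ h1]
      exact List.getElem_mem h1
    exact ⟨_, hmem, sb_mt h2 hM⟩
  | bt b t u iht ihu =>
    intro P N hM hc
    simp only [chkT, Bool.and_eq_true] at hc
    rcases hb : F b with _ | _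
    · have := hM.or (Mt.nil hb)
      rw [Nat.or_zero] at this
      exact iht _ _ this hc.1
    · have := hM.or (Mt.one hb)
      rw [Nat.or_zero] at this
      exact ihu _ _ this hc.2
  | cn i j t u iht ihu =>
    intro P N hM hc
    simp only [chkT, Bool.and_eq_true] at hc
    obtain ⟨⟨⟨h1, h0⟩, h2⟩, h3⟩ := hc
    rw [Nat.blt_eq, Nat.blt_eq] at h0
    obtain ⟨h4, h5⟩ := hy.cn i j h1 h0.1 h0.2
    rcases hb : F (16 * i + j) with _ | _
    · rw [hb] at h4 h5
      have := hM.or (((Mt.nil hb).or (Mt.nil h4.symm)).or (Mt.nil h5))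
      simp only [Nat.or_zero] at this
      exact iht _ _ this h2
    · rw [hb] at h4 h5
      have := hM.or (((Mt.one hb).or (Mt.one h4.symm)).or (Mt.one h5))
      simp only [Nat.or_zero] at this
      exact ihu _ _ this h3
  | st i j t u w iht ihu ihw =>
    intro P N hM hc
    simp only [chkT, Bool.and_eq_true] at hc
    obtain ⟨⟨⟨⟨h1, h0⟩, h2⟩, h3⟩, h4⟩ := hc
    rw [Nat.blt_eq, Nat.blt_eq] at h0
    rcases hy.st i j h1 h0.1 h0.2 with h5 | h5 | h5
    · have := (hM.or (Mt.one h5.1)).or (Mt.nil h5.2)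
      simp only [Nat.or_zero] at this
      exact iht _ _ this h2
    · have := (hM.or (Mt.one h5.2)).or (Mt.nil h5.1)
      simp only [Nat.or_zero] at this
      exact ihu _ _ this h3
    · have := (hM.or ((Mt.one h5.1).or (Mt.one h5.2.1))).or (Mt.nil h5.2.2.1)
      simp only [Nat.or_zero] at this
      exact ihw _ _ this h4

end Pool.Agent.MPd439b2.FV
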